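import Mathlib
import Pool.Agent.Lib.UP.TrDefs
import Pool.Agent.Lib.MP_98022b_UM.DGDefs

/-!
# Waldhausen's nil classes of an edge of a tree: definitions for the proof

All matrices act on ROWS.
-/

set_option autoImplicit false

open MonoidAlgebra
open Pool.Agent.Lib.MP_98022b_UN Pool.Agent.Lib.MP_98022b_UM Pool.Agent.UP

namespace Pool.Agent.KN

universe u v w

section Ring

variable (R : Type u) [Ring R]

/-- subgroups `S K` of `GL_K(R)` such that `1 + Y X ∈ S L` implies `1 + X Y ∈ S K` -/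
structure NullFam where
  S : ∀ (K : Type) [Fintype K] [DecidableEq K], Subgroup (Matrix K K R)ˣ
  swap : ∀ {K L : Type} [Fintype K] [DecidableEq K] [Fintype L] [DecidableEq L]
    (X : Matrix K L R) (Y : Matrix L K R) (U : (Matrix K K R)ˣ) (V : (Matrix L L R)ˣ),
    (U : Matrix K K R) = 1 + X * Y → (V : Matrix L L R) = 1 + Y * X → V ∈ S L → U ∈ S K

variable {R}

/-- `1 + T` is invertible and belongs to `S K` -/
def NullFam.Z (φ : NullFam R) {K : Type} [Fintype K] [DecidableEq K] (T : Matrix K K R) : Prop :=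
  ∃ U : (Matrix K K R)ˣ, (U : Matrix K K R) = 1 + T ∧ U ∈ φ.S K

variable (R)

/-- a projective module `R^K e` filtered by the submodules `U j` generated by the rows `Φ c` with
`j ≤ p c`, with an endomorphism `θ` which maps `U j` to `U (j + 1)` -/
structure FilD (K J : Type) [Fintype K] [Fintype J] where
  e : Matrix K K R
  θ : Matrix K K R
  p : J → ℕ
  Φ : Matrix J K R
  s : Matrix K J R
  b : Matrix J J R
  Φe : Φ * e = Φ
  sΦ : s * Φ = e
  eθ : e * θ = θ
  θe : θ * e = θ
  Φθ : Φ * θ = b * Φ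
  hb : ∀ a c, b a c ≠ 0 → p a < p c

variable {R}

/-- the row space of `ζ` has a homogeneous resolution of length `≤ n` by finitely generated free
modules and, at the end, a finitely generated projective module -/
def LKg : ℕ → ∀ {I J : Type} [Fintype I] [Fintype J], (I → ℕ) → Matrix I J R → Prop
  | 0, I, J, _, _, q, ζ => ∃ P : Matrix I I R, (∀ a c, P a c ≠ 0 → q a = q c) ∧ P * ζ = ζ ∧
      ∀ κ : Matrix Unit I R, κ * ζ = 0 → κ * P = 0
  | n + 1, I, J, _, _, q, ζ => ∃ (c : ℕ) (q' : Fin c → ℕ) (ζ' : Matrix (Fin c) I R),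
      (∀ a i, ζ' a i ≠ 0 → q' a = q i) ∧ GenR ζ' ζ ∧ LKg n q' ζ'

/-- the rows of `ζ` generate the relations of the graded pieces of the filtration -/
structure FilD.Rel {K J I : Type} [Fintype K] [Fintype J] [Fintype I] (D : FilD R K J)
    (q : I → ℕ) (ζ B : Matrix I J R) : Prop where
  ζ_deg : ∀ a c, ζ a c ≠ 0 → q a = D.p c
  B_deg : ∀ a c, B a c ≠ 0 → q a < D.p c
  eq : ζ * D.Φ = B * D.Φ
  gen : ∀ (j : ℕ) (x y : Matrix Unit J R), (∀ c, x () c ≠ 0 → D.p c = j) →
    (∀ c, y () c ≠ 0 → j < D.p c) → x * D.Φ = y * D.Φ → ∃ κ : Matrix Unit I R, x = κ * ζ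

end Ring

section Sys

variable {Λ : Type w} {G : Type v} [Group G]

/-- one-sided systems: `F l` the object groups, `S l m` the letters from `l` to `m` -/
structure LSys (Λ : Type w) (G : Type v) [Group G] where
  F : Λ → Subgroup G
  S : Λ → Λ → Set G
  left' : ∀ {l m : Λ} {f g : G}, f ∈ F l → g ∈ S l m → f * g ∈ S l m
  right' : ∀ {l m : Λ} {f g : G}, g ∈ S l m → f ∈ F m → g * f ∈ S l m

/-- words of length `n` -/
def LSys.W (E : LSys Λ G) : ℕ → Λ → Λ → Set G
  | 0, l, m => {g | g ∈ E.F l ∧ l = m}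
  | n + 1, l, m => {g | ∃ r : Λ, ∃ s ∈ E.S l r, ∃ t ∈ E.W n r m, s * t = g}

/-- the first letter of a word of given length is determined by the word -/
def LSys.Geo (E : LSys Λ G) : Prop :=
  ∀ (n : ℕ) (l m r r' : Λ) (s s' t t' : G), s ∈ E.S l r → t ∈ E.W n r m → s' ∈ E.S l r' →
    t' ∈ E.W n r' m → s * t = s' * t' → r = r' ∧ s⁻¹ * s' ∈ E.F r

/-- the objects and their groups -/
def fSys (F : Λ → Subgroup G) : BSys Λ G where
  F := F
  S := fun _ _ _ => ∅
  left' := fun _ h => h.elim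
  inv' := fun h => h.elim

variable {A : Type u} [CommRing A]

/-- the entries are supported in the letters -/
def OnSL (E : LSys Λ G) {I J : Type} (r : I → Λ) (t : J → Λ)
    (M : Matrix I J (MonoidAlgebra A G)) : Prop :=
  ∀ i j g, (M i j).coeff g ≠ 0 → g ∈ E.S (r i) (t j)

/-- the row space of `ζ` has a labelled resolution of length `≤ n` -/
def LKo (E : BSys Λ G) : ℕ → ∀ {I J : Type} [Fintype I] [Fintype J], (I → Λ) →
    Matrix I J (MonoidAlgebra A G) → Prop
  | 0, I, J, _, _, r, ζ => ∃ P : Matrix I I (MonoidAlgebra A G), On0 E r r P ∧ P * ζ = ζ ∧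
      ∀ κ : Matrix Unit I (MonoidAlgebra A G), κ * ζ = 0 → κ * P = 0
  | n + 1, I, J, _, _, r, ζ => ∃ (c : ℕ) (r' : Fin c → Λ)
      (ζ' : Matrix (Fin c) I (MonoidAlgebra A G)), On0 E r' r ζ' ∧ GenR ζ' ζ ∧ LKo E n r' ζ'

/-- coherence and finite projective dimension for all finitely generated subgroups -/
def RC (A : Type u) [CommRing A] (F : Subgroup G) : Prop :=
  ∀ H : Subgroup G, H.FG → H ≤ F → CohT (MonoidAlgebra A H) ∧ PDT (MonoidAlgebra A H)

end Sys

end Pool.Agent.KN
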