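import Mathlib
import Pool.Agent.Lib.KN.Defs

/-!
# Stably elementary matrices form a family closed under `X Y ↦ Y X`
-/

set_option autoImplicit false

open Matrix

namespace Pool.Agent.KN

universe u

/-- the group of elementary matrices -/
def Elem (K : Type) (R : Type u) [Ring R] [Fintype K] [DecidableEq K] :
    Subgroup (Matrix K K R)ˣ :=
  Subgroup.closure {U | ∃ i j, i ≠ j ∧ ∃ r : R, (U : Matrix K K R) = 1 + Matrix.single i j r}

/-- stably elementary matrices -/
def StEl {K : Type} {R : Type u} [Ring R] [Fintype K] [DecidableEq K] (T : Matrix K K R) : Prop :=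
  ∃ (k : ℕ) (V : (Matrix (K ⊕ Fin k) (K ⊕ Fin k) R)ˣ), V ∈ Elem (K ⊕ Fin k) R ∧
    (V : Matrix (K ⊕ Fin k) (K ⊕ Fin k) R) = Matrix.fromBlocks T 0 0 1

section

variable {R : Type u} [Ring R]

/-- a homomorphism which maps the generators to generators maps `Elem` to `Elem` -/
theorem Elem.map_mem {K L : Type} [Fintype K] [DecidableEq K] [Fintype L] [DecidableEq L]
    (f : Matrix K K R →* Matrix L L R)
    (hf : ∀ i j, i ≠ j → ∀ r : R, ∃ i' j', i' ≠ j' ∧
      f (1 + Matrix.single i j r) = 1 + Matrix.single i' j' r)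
    {U : (Matrix K K R)ˣ} (hU : U ∈ Elem K R) : Units.map f U ∈ Elem L R := by
  have h : Elem K R ≤ (Elem L R).comap (Units.map f) := by
    refine (Subgroup.closure_le _).2 ?_
    rintro V ⟨i, j, hij, r, hV⟩
    obtain ⟨i', j', hij', h'⟩ := hf i j hij r
    refine Subgroup.mem_comap.2 (Subgroup.subset_closure ⟨i', j', hij', r, ?_⟩)
    rw [Units.coe_map, hV]
    exact h'
  exact h hU

/-- `M ↦ diag(M, 1)` -/
def inlHom (K J : Type) [Fintype K] [DecidableEq K] [Fintype J] [DecidableEq J] :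
    Matrix K K R →* Matrix (K ⊕ J) (K ⊕ J) R where
  toFun M := Matrix.fromBlocks M 0 0 1
  map_one' := Matrix.fromBlocks_one
  map_mul' M N := by simp [Matrix.fromBlocks_multiply]

/-- `M ↦ diag(1, M)` -/
def inrHom (K J : Type) [Fintype K] [DecidableEq K] [Fintype J] [DecidableEq J] :
    Matrix J J R →* Matrix (K ⊕ J) (K ⊕ J) R where
  toFun M := Matrix.fromBlocks 1 0 0 M
  map_one' := Matrix.fromBlocks_one
  map_mul' M N := by simp [Matrix.fromBlocks_multiply]

theorem inl_single {K J : Type} [Fintype K] [DecidableEq K] [Fintype J] [DecidableEq J]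
    (i j : K) (r : R) : (Matrix.fromBlocks (1 + Matrix.single i j r) 0 0 1 :
      Matrix (K ⊕ J) (K ⊕ J) R) = 1 + Matrix.single (Sum.inl i) (Sum.inl j) r := by
  ext a b
  rcases a with a | a <;> rcases b with b | b <;>
    simp [Matrix.single_apply, Matrix.one_apply]

theorem inr_single {K J : Type} [Fintype K] [DecidableEq K] [Fintype J] [DecidableEq J]
    (i j : J) (r : R) : (Matrix.fromBlocks 1 0 0 (1 + Matrix.single i j r) :
      Matrix (K ⊕ J) (K ⊕ J) R) = 1 + Matrix.single (Sum.inr i) (Sum.inr j) r := by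
  ext a b
  rcases a with a | a <;> rcases b with b | b <;>
    simp [Matrix.single_apply, Matrix.one_apply]

theorem Elem.inl_mem {K J : Type} [Fintype K] [DecidableEq K] [Fintype J] [DecidableEq J]
    {U : (Matrix K K R)ˣ} (hU : U ∈ Elem K R) :
    Units.map (inlHom K J) U ∈ Elem (K ⊕ J) R :=
  Elem.map_mem _ (fun i j hij r => ⟨Sum.inl i, Sum.inl j, by simpa using hij,
    inl_single i j r⟩) hU

theorem Elem.inr_mem {K J : Type} [Fintype K] [DecidableEq K] [Fintype J] [DecidableEq J]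
    {U : (Matrix J J R)ˣ} (hU : U ∈ Elem J R) :
    Units.map (inrHom K J) U ∈ Elem (K ⊕ J) R :=
  Elem.map_mem _ (fun i j hij r => ⟨Sum.inr i, Sum.inr j, by simpa using hij,
    inr_single i j r⟩) hU

/-- reindexing -/
def reHom {K L : Type} [Fintype K] [DecidableEq K] [Fintype L] [DecidableEq L] (e : K ≃ L) :
    Matrix K K R →* Matrix L L R where
  toFun M := M.submatrix e.symm e.symm
  map_one' := by simp
  map_mul' M N := by
    rw [Matrix.submatrix_mul_equiv]

theorem Elem.re_mem {K L : Type} [Fintype K] [DecidableEq K] [Fintype L] [DecidableEq L]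
    (e : K ≃ L) {U : (Matrix K K R)ˣ} (hU : U ∈ Elem K R) :
    Units.map (reHom e) U ∈ Elem L R := by
  refine Elem.map_mem _ (fun i j hij r => ⟨e i, e j, fun h => hij (e.injective h), ?_⟩) hU
  ext a b
  simp only [reHom, MonoidHom.coe_mk, OneHom.coe_mk, Matrix.submatrix_apply, Matrix.add_apply,
    Matrix.one_apply, Matrix.single_apply, EmbeddingLike.apply_eq_iff_eq]
  congr 1
  simp only [← Equiv.eq_symm_apply]

/-- stably elementary with the index set `J` of the new rows -/
def StJ {K : Type} [Fintype K] [DecidableEq K] (J : Type) [Fintype J] [DecidableEq J]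
    (T : Matrix K K R) : Prop :=
  ∃ V : (Matrix (K ⊕ J) (K ⊕ J) R)ˣ, V ∈ Elem (K ⊕ J) R ∧
    (V : Matrix (K ⊕ J) (K ⊕ J) R) = Matrix.fromBlocks T 0 0 1

theorem StJ.equiv {K J J' : Type} [Fintype K] [DecidableEq K] [Fintype J] [DecidableEq J]
    [Fintype J'] [DecidableEq J'] (e : J ≃ J') {T : Matrix K K R} (h : StJ J T) : StJ J' T := by
  obtain ⟨V, hV, hT⟩ := h
  refine ⟨Units.map (reHom ((Equiv.refl K).sumCongr e)) V, Elem.re_mem _ hV, ?_⟩
  rw [Units.coe_map, hT]
  ext a b
  rcases a with a | a <;> rcases b with b | b <;>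
    simp [reHom, Matrix.one_apply]

theorem StJ.sum {K J : Type} [Fintype K] [DecidableEq K] [Fintype J] [DecidableEq J]
    (J' : Type) [Fintype J'] [DecidableEq J'] {T : Matrix K K R} (h : StJ J T) :
    StJ (J ⊕ J') T := by
  obtain ⟨V, hV, hT⟩ := h
  refine ⟨Units.map (reHom (Equiv.sumAssoc K J J')) (Units.map (inlHom (K ⊕ J) J') V),
    Elem.re_mem _ (Elem.inl_mem hV), ?_⟩
  rw [Units.coe_map, Units.coe_map, hT]
  ext a b
  rcases a with a | a | a <;> rcases b with b | b | b <;>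
    simp [reHom, inlHom, Matrix.one_apply]

theorem StEl.of_StJ {K J : Type} [Fintype K] [DecidableEq K] [Fintype J] [DecidableEq J]
    {T : Matrix K K R} (h : StJ J T) : StEl T :=
  ⟨Fintype.card J, h.equiv (Fintype.equivFin J)⟩

theorem StEl.one {K : Type} [Fintype K] [DecidableEq K] : StEl (1 : Matrix K K R) :=
  ⟨0, 1, Subgroup.one_mem _, Matrix.fromBlocks_one.symm⟩

theorem StEl.mul {K : Type} [Fintype K] [DecidableEq K] {T T' : Matrix K K R} (h : StEl T)
    (h' : StEl T') : StEl (T * T') := by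
  obtain ⟨k, hk⟩ := h
  obtain ⟨k', hk'⟩ := h'
  have h1 : StJ (Fin k ⊕ Fin k') T := StJ.sum (Fin k') hk
  have h2 : StJ (Fin k ⊕ Fin k') T' :=
    StJ.equiv (Equiv.sumComm _ _) (StJ.sum (Fin k) hk')
  obtain ⟨V, hV, hT⟩ := h1
  obtain ⟨V', hV', hT'⟩ := h2
  refine StEl.of_StJ (J := Fin k ⊕ Fin k') ⟨V * V', Subgroup.mul_mem _ hV hV', ?_⟩
  rw [Units.val_mul, hT, hT']
  simp [Matrix.fromBlocks_multiply]

theorem StEl.inv {K : Type} [Fintype K] [DecidableEq K] {U : (Matrix K K R)ˣ}
    (h : StEl (U : Matrix K K R)) : StEl ((U⁻¹ : (Matrix K K R)ˣ) : Matrix K K R) := by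
  obtain ⟨k, V, hV, hT⟩ := h
  refine ⟨k, V⁻¹, Subgroup.inv_mem _ hV, ?_⟩
  have h1 : V = Units.map (inlHom K (Fin k)) U := Units.ext (by
    rw [hT, Units.coe_map]
    rfl)
  rw [h1, ← map_inv, Units.coe_map]
  rfl

/-- upper triangular block matrices are elementary -/
theorem upper_mem {K L : Type} [Fintype K] [DecidableEq K] [Fintype L] [DecidableEq L]
    (X : Matrix K L R) : ∃ V : (Matrix (K ⊕ L) (K ⊕ L) R)ˣ, V ∈ Elem (K ⊕ L) R ∧
      (V : Matrix (K ⊕ L) (K ⊕ L) R) = Matrix.fromBlocks 1 X 0 1 := by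
  classical
  induction X using Matrix.induction_on' with
  | h_zero => exact ⟨1, Subgroup.one_mem _, Matrix.fromBlocks_one.symm⟩
  | h_add X X' h h' =>
    obtain ⟨V, hV, hX⟩ := h
    obtain ⟨V', hV', hX'⟩ := h'
    refine ⟨V * V', Subgroup.mul_mem _ hV hV', ?_⟩
    rw [Units.val_mul, hX, hX']
    simp [Matrix.fromBlocks_multiply, add_comm]
  | h_std_basis i j r =>
    have h1 : (Matrix.fromBlocks 1 (Matrix.single i j r) 0 1 : Matrix (K ⊕ L) (K ⊕ L) R) =
        1 + Matrix.single (Sum.inl i) (Sum.inr j) r := by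
      ext a b
      rcases a with a | a <;> rcases b with b | b <;>
        simp [Matrix.single_apply, Matrix.one_apply]
    have h2 : ∀ s t : R, s + t = 0 →
        (1 + Matrix.single (Sum.inl i) (Sum.inr j) s : Matrix (K ⊕ L) (K ⊕ L) R) *
        (1 + Matrix.single (Sum.inl i) (Sum.inr j) t) = 1 := by
      intro s t hst
      rw [mul_add, add_mul, add_mul, one_mul, mul_one, one_mul,
        Matrix.single_mul_single_of_ne _ _ _ _ (by simp), add_zero, add_assoc,
        ← Matrix.single_add, hst, Matrix.single_zero, add_zero]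
    refine ⟨⟨1 + Matrix.single (Sum.inl i) (Sum.inr j) r,
      1 + Matrix.single (Sum.inl i) (Sum.inr j) (-r), h2 _ _ (add_neg_cancel r),
      h2 _ _ (neg_add_cancel r)⟩, Subgroup.subset_closure ⟨_, _, by simp, r, rfl⟩, h1.symm⟩

/-- lower triangular block matrices are elementary -/
theorem lower_mem {K L : Type} [Fintype K] [DecidableEq K] [Fintype L] [DecidableEq L]
    (Y : Matrix L K R) : ∃ V : (Matrix (K ⊕ L) (K ⊕ L) R)ˣ, V ∈ Elem (K ⊕ L) R ∧
      (V : Matrix (K ⊕ L) (K ⊕ L) R) = Matrix.fromBlocks 1 0 Y 1 := by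
  obtain ⟨V, hV, hY⟩ := upper_mem Y
  refine ⟨Units.map (reHom (Equiv.sumComm L K)) V, Elem.re_mem _ hV, ?_⟩
  rw [Units.coe_map, hY]
  ext a b
  rcases a with a | a <;> rcases b with b | b <;> simp [reHom, Matrix.one_apply]

/-- the swap for one elementary matrix -/
theorem swap_elem {K L : Type} [Fintype K] [DecidableEq K] [Fintype L] [DecidableEq L]
    (X : Matrix K L R) (Y : Matrix L K R) (V : (Matrix L L R)ˣ) (hV : V ∈ Elem L R)
    (hVY : (V : Matrix L L R) = 1 + Y * X) : StJ L (1 + X * Y) := by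
  obtain ⟨A, hA, hA'⟩ := upper_mem (-X)
  obtain ⟨B, hB, hB'⟩ := lower_mem (-Y)
  obtain ⟨C, hC, hC'⟩ := upper_mem X
  obtain ⟨D, hD, hD'⟩ := lower_mem Y
  refine ⟨A * B * Units.map (inrHom K L) V * C * D,
    Subgroup.mul_mem _ (Subgroup.mul_mem _ (Subgroup.mul_mem _ (Subgroup.mul_mem _ hA hB)
      (Elem.inr_mem hV)) hC) hD, ?_⟩
  have h1 : ((Units.map (inrHom K L) V : (Matrix (K ⊕ L) (K ⊕ L) R)ˣ) :
      Matrix (K ⊕ L) (K ⊕ L) R) = Matrix.fromBlocks 1 0 0 (1 + Y * X) := by
    rw [Units.coe_map, hVY]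
    rfl
  rw [Units.val_mul, Units.val_mul, Units.val_mul, Units.val_mul, hA', hB', hC', hD', h1]
  simp only [Matrix.fromBlocks_multiply, Matrix.mul_zero, Matrix.mul_one,
    Matrix.one_mul, add_zero, zero_add, Matrix.mul_add, Matrix.add_mul, Matrix.neg_mul,
    Matrix.mul_neg, neg_neg, Matrix.mul_assoc]
  congr 1 <;> abel

end

/-- the stably elementary matrices form a family which is closed under `Y X ↦ X Y` -/
theorem exists_el (R : Type u) [Ring R] : ∃ φ : NullFam R, ∀ {K : Type} [Fintype K]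
    [DecidableEq K] (T : Matrix K K R), φ.Z T → StEl (1 + T) := by
  refine ⟨{
    S := fun K _ _ => {
      carrier := {U | StEl (U : Matrix K K R)}
      one_mem' := StEl.one
      mul_mem' := fun h h' => by
        change StEl ((_ * _ : (Matrix K K R)ˣ) : Matrix K K R)
        rw [Units.val_mul]
        exact StEl.mul h h'
      inv_mem' := fun h => StEl.inv h }
    swap := ?_ }, ?_⟩
  · intro K L _ _ _ _ X Y U V hU hV hVS
    obtain ⟨k, W, hW, hWV⟩ := (show StEl (V : Matrix L L R) from hVS)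
    show StEl (U : Matrix K K R)
    have h1 : StJ (L ⊕ Fin k) (1 + (Matrix.fromCols X (0 : Matrix K (Fin k) R)) *
        (Matrix.fromRows Y (0 : Matrix (Fin k) K R))) := by
      refine swap_elem _ _ W hW ?_
      rw [hWV, hV, Matrix.fromRows_mul_fromCols, ← Matrix.fromBlocks_one, Matrix.fromBlocks_add]
      simp
    rw [Matrix.fromCols_mul_fromRows, Matrix.mul_zero, add_zero] at h1
    rw [hU]
    exact StEl.of_StJ h1
  · rintro K _ _ T ⟨U, hU, hS⟩
    rw [← hU]
    exact hS

end Pool.Agent.KN
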