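import Mathlib
import Pool.Agent.Lib.UP.TrDefs
import Pool.Agent.Lib.MIX.LineA

/-!
# Regular coherent rings in module form
-/

set_option autoImplicit false

open MonoidAlgebra
open Pool.Agent.UP Pool.Agent.UP25

namespace Pool.Agent.KN

universe u v

/-- `M` has a resolution of length at most `n` by finitely generated projective modules (free
modules, except for the last one) -/
def FinRes (R : Type u) [Ring R] : ℕ → ∀ (M : Type u) [AddCommGroup M] [Module R M], Prop
  | 0, M, _, _ => Module.Finite R M ∧ Module.Projective R M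
  | n + 1, M, _, _ => ∃ (m : ℕ) (g : (Fin m → R) →ₗ[R] M), Function.Surjective g ∧
      FinRes R n (LinearMap.ker g)

/-- `R` is regular coherent: the kernels of the maps between finitely generated free (left) modules
have finite resolutions by finitely generated projective modules -/
def RegCoh (R : Type u) [Ring R] : Prop :=
  ∀ (k l : ℕ) (f : (Fin k → R) →ₗ[R] (Fin l → R)), ∃ n, FinRes R n (LinearMap.ker f)

section

variable {R : Type u} [Ring R]

theorem FinRes.finite {n : ℕ} {M : Type u} [AddCommGroup M] [Module R M] (h : FinRes R n M) :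
    Module.Finite R M := by
  cases n with
  | zero => exact h.1
  | succ n =>
    obtain ⟨m, g, hg, -⟩ := h
    exact Module.Finite.of_surjective g hg

theorem FinRes.equiv {n : ℕ} {M N : Type u} [AddCommGroup M] [Module R M] [AddCommGroup N]
    [Module R N] (e : M ≃ₗ[R] N) (h : FinRes R n M) : FinRes R n N := by
  cases n with
  | zero =>
    have h1 := h.1
    have h2 := h.2
    exact ⟨Module.Finite.equiv e, Module.Projective.of_equiv e⟩
  | succ n =>
    obtain ⟨m, g, hg, hn⟩ := h
    refine ⟨m, e.toLinearMap ∘ₗ g, e.surjective.comp hg, ?_⟩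
    rw [LinearEquiv.ker_comp]
    exact hn

/-- the row vector as a matrix -/
theorem row_mul {J K : Type} [Fintype J] (x : J → R) (D : Matrix J K R) :
    (Matrix.of (fun _ : Unit => x)) * D = Matrix.of (fun _ : Unit => D.vecMulLinear x) := rfl

theorem row_mul_eq {J K : Type} [Fintype J] (x : Matrix Unit J R) (D : Matrix J K R) :
    (x * D) () = D.vecMulLinear (x ()) := rfl

theorem genR_iff {n J K : Type} [Fintype n] [Fintype J] (ζ : Matrix n J R)
    (D : Matrix J K R) :
    GenR ζ D ↔ LinearMap.range ζ.vecMulLinear = LinearMap.ker D.vecMulLinear := by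
  classical
  constructor
  · rintro ⟨h1, h2⟩
    apply le_antisymm
    · rintro _ ⟨x, rfl⟩
      rw [LinearMap.mem_ker, Matrix.vecMulLinear_apply, Matrix.vecMulLinear_apply,
        Matrix.vecMul_vecMul, h1, Matrix.vecMul_zero]
    · intro x hx
      obtain ⟨κ, hκ⟩ := h2 (Matrix.of fun _ => x) (by
        rw [row_mul, LinearMap.mem_ker.1 hx]
        rfl)
      exact ⟨κ (), (congrFun hκ ()).symm⟩
  · intro h
    constructor
    · ext a k
      have h1 : ζ.vecMulLinear (Pi.single a 1) ∈ LinearMap.ker D.vecMulLinear :=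
        h ▸ LinearMap.mem_range_self _ _
      rw [LinearMap.mem_ker, Matrix.vecMulLinear_apply, Matrix.vecMulLinear_apply,
        Matrix.vecMul_vecMul, Matrix.single_one_vecMul] at h1
      exact congrFun h1 k
    · intro x hx
      have h1 : x () ∈ LinearMap.range ζ.vecMulLinear := by
        rw [h, LinearMap.mem_ker, ← row_mul_eq, hx]
        rfl
      obtain ⟨κ, hκ⟩ := h1
      exact ⟨Matrix.of fun _ => κ, by
        ext i j
        exact (congrFun hκ j).symm⟩

/-- the matrix of a map from a free module -/
theorem exists_matrix {I J : Type} [Fintype I] [DecidableEq I] (g : (I → R) →ₗ[R] (J → R)) :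
    ∃ ζ : Matrix I J R, ζ.vecMulLinear = g := by
  refine ⟨Matrix.of fun i => g (Pi.single i 1), ?_⟩
  refine LinearMap.pi_ext' fun i => LinearMap.ext_ring ?_
  rw [LinearMap.comp_apply, LinearMap.comp_apply, LinearMap.single_apply,
    Matrix.vecMulLinear_apply, Matrix.single_one_vecMul]
  rfl

/-- every finitely generated submodule is a row space -/
theorem exists_rows {J : Type} (N : Submodule R (J → R)) [Module.Finite R N] :
    ∃ (c : ℕ) (ζ : Matrix (Fin c) J R), LinearMap.range ζ.vecMulLinear = N := by
  obtain ⟨c, g, hg⟩ := Module.Finite.exists_fin' R N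
  obtain ⟨ζ, hζ⟩ := exists_matrix (N.subtype ∘ₗ g)
  refine ⟨c, ζ, ?_⟩
  rw [hζ, LinearMap.range_comp, LinearMap.range_eq_top.2 hg, Submodule.map_top,
    Submodule.range_subtype]

theorem pdr_zero_iff {J K : Type} [Fintype J] [Fintype K] (D : Matrix J K R) :
    PDR 0 D ↔ Module.Projective R (LinearMap.range D.vecMulLinear) := by
  classical
  have hsurj : Function.Surjective D.vecMulLinear.rangeRestrict :=
    LinearMap.surjective_rangeRestrict _
  constructor
  · rintro ⟨P, h1, h2⟩
    have h3 : ∀ x y : J → R, D.vecMulLinear x = D.vecMulLinear y →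
        P.vecMulLinear x = P.vecMulLinear y := by
      intro x y hxy
      have h4 := h2 (Matrix.of fun _ => x - y) (by
        rw [row_mul, map_sub, hxy, sub_self]
        rfl)
      rw [row_mul, map_sub] at h4
      exact sub_eq_zero.1 (congrFun h4 ())
    have h5 : ∀ y : LinearMap.range D.vecMulLinear, ∃ x : J → R, D.vecMulLinear x = y.1 :=
      fun y => y.2
    choose s hs using h5
    let t : LinearMap.range D.vecMulLinear →ₗ[R] (J → R) :=
      { toFun := fun y => P.vecMulLinear (s y)
        map_add' := fun y z => by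
          rw [← map_add]
          refine h3 _ _ ?_
          rw [map_add, hs, hs, hs]
          rfl
        map_smul' := fun r y => by
          rw [RingHom.id_apply, ← map_smul]
          refine h3 _ _ ?_
          rw [map_smul, hs, hs]
          rfl }
    refine Module.Projective.of_split t D.vecMulLinear.rangeRestrict (LinearMap.ext fun y => ?_)
    refine Subtype.ext ?_
    show D.vecMulLinear (P.vecMulLinear (s y)) = y.1
    rw [← hs y, Matrix.vecMulLinear_apply, Matrix.vecMulLinear_apply, Matrix.vecMul_vecMul, h1]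
    rfl
  · intro h
    obtain ⟨s, hs⟩ := Module.projective_lifting_property D.vecMulLinear.rangeRestrict
      LinearMap.id hsurj
    obtain ⟨P, hP⟩ := exists_matrix (s ∘ₗ D.vecMulLinear.rangeRestrict)
    refine ⟨P, ?_, ?_⟩
    · ext i k
      have h1 : D.vecMulLinear (P.vecMulLinear (Pi.single i 1)) =
          D.vecMulLinear (Pi.single i 1) := by
        rw [hP, LinearMap.comp_apply]
        have h2 := LinearMap.congr_fun hs (D.vecMulLinear.rangeRestrict (Pi.single i 1))
        exact congrArg Subtype.val h2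
      rw [Matrix.vecMulLinear_apply, Matrix.vecMulLinear_apply, Matrix.vecMul_vecMul,
        Matrix.vecMulLinear_apply, Matrix.single_one_vecMul, Matrix.single_one_vecMul] at h1
      exact congrFun h1 k
    · intro κ hκ
      have h1 : D.vecMulLinear.rangeRestrict (κ ()) = 0 := by
        refine Subtype.ext ?_
        show D.vecMulLinear (κ ()) = 0
        rw [← row_mul_eq, hκ]
        rfl
      have h2 : P.vecMulLinear (κ ()) = 0 := by
        rw [hP, LinearMap.comp_apply, h1, map_zero]
      ext i j
      exact congrFun h2 j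

/-- resolutions of row spaces -/
theorem finRes_of_pdr (n : ℕ) : ∀ {J K : Type} [Fintype J] [Fintype K] (D : Matrix J K R),
    PDR n D → FinRes R n (LinearMap.range D.vecMulLinear) := by
  induction n with
  | zero =>
    intro J K _ _ D h
    exact ⟨inferInstance, (pdr_zero_iff D).1 h⟩
  | succ n ih =>
    intro J K _ _ D h
    obtain ⟨c, ζ, h1, h2⟩ := h
    have h3 := ih ζ h2
    rw [(genR_iff ζ D).1 h1] at h3
    let φ : (Fin (Fintype.card J) → R) ≃ₗ[R] (J → R) :=
      LinearEquiv.funCongrLeft R R (Fintype.equivFin J)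
    refine ⟨Fintype.card J, D.vecMulLinear.rangeRestrict ∘ₗ φ.toLinearMap,
      (LinearMap.surjective_rangeRestrict _).comp φ.surjective, ?_⟩
    have h4 : (LinearMap.ker (D.vecMulLinear.rangeRestrict ∘ₗ φ.toLinearMap)).map φ.toLinearMap =
        LinearMap.ker D.vecMulLinear := by
      rw [LinearMap.ker_comp, LinearMap.ker_rangeRestrict, Submodule.map_comap_eq,
        LinearEquiv.range, top_inf_eq]
    have h5 : FinRes R n ((LinearMap.ker
        (D.vecMulLinear.rangeRestrict ∘ₗ φ.toLinearMap)).map φ.toLinearMap) := by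
      rw [h4]
      exact h3
    exact FinRes.equiv (φ.submoduleMap _).symm h5

/-- matrices with resolutions of the kernel -/
theorem pdr_of_finRes (n : ℕ) : ∀ {J K : Type} [Fintype J] [Fintype K] (D : Matrix J K R),
    FinRes R n (LinearMap.ker D.vecMulLinear) → PDR (n + 1) D := by
  induction n with
  | zero =>
    intro J K _ _ D h
    have h1 := h.1
    have h2 := h.2
    obtain ⟨c, ζ, hζ⟩ := exists_rows (LinearMap.ker D.vecMulLinear)
    refine ⟨c, ζ, (genR_iff ζ D).2 hζ, (pdr_zero_iff ζ).2 ?_⟩
    rw [hζ]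
    exact h2
  | succ n ih =>
    intro J K _ _ D h
    obtain ⟨m, g, hg, h1⟩ := h
    obtain ⟨ζ, hζ⟩ := exists_matrix ((LinearMap.ker D.vecMulLinear).subtype ∘ₗ g)
    refine ⟨m, ζ, (genR_iff ζ D).2 ?_, ih ζ ?_⟩
    · rw [hζ, LinearMap.range_comp, LinearMap.range_eq_top.2 hg, Submodule.map_top,
        Submodule.range_subtype]
    · have h2 : LinearMap.ker ζ.vecMulLinear = LinearMap.ker g := by
        rw [hζ, LinearMap.ker_comp, Submodule.ker_subtype]
        rfl
      rw [h2]
      exact h1

/-- kernels over arbitrary finite index sets -/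
theorem RegCoh.ker (h : RegCoh R) {J K : Type} [Fintype J] [Fintype K] (D : Matrix J K R) :
    ∃ n, FinRes R n (LinearMap.ker D.vecMulLinear) := by
  let φ : (Fin (Fintype.card J) → R) ≃ₗ[R] (J → R) :=
    LinearEquiv.funCongrLeft R R (Fintype.equivFin J)
  let ψ : (K → R) ≃ₗ[R] (Fin (Fintype.card K) → R) :=
    LinearEquiv.funCongrLeft R R (Fintype.equivFin K).symm
  obtain ⟨n, hn⟩ := h _ _ (ψ.toLinearMap ∘ₗ D.vecMulLinear ∘ₗ φ.toLinearMap)
  refine ⟨n, ?_⟩
  rw [LinearEquiv.ker_comp] at hn
  have h4 : (LinearMap.ker (D.vecMulLinear ∘ₗ φ.toLinearMap)).map φ.toLinearMap =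
      LinearMap.ker D.vecMulLinear := by
    rw [LinearMap.ker_comp, Submodule.map_comap_eq, LinearEquiv.range, top_inf_eq]
  have h5 := FinRes.equiv (φ.submoduleMap _) hn
  rw [← h4]
  exact h5

end

/-- the module form and the matrix form -/
theorem regCoh_iff (R : Type u) [Ring R] : RegCoh R ↔ CohT R ∧ PDT R := by
  classical
  constructor
  · intro h
    constructor
    · intro J K _ _ D
      obtain ⟨n, hn⟩ := h.ker D
      have h1 := hn.finite
      obtain ⟨c, ζ, hζ⟩ := exists_rows (LinearMap.ker D.vecMulLinear)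
      exact ⟨c, ζ, (genR_iff ζ D).2 hζ⟩
    · intro J K _ _ D
      obtain ⟨n, hn⟩ := h.ker D
      exact ⟨n + 1, pdr_of_finRes n D hn⟩
  · rintro ⟨h1, h2⟩ k l f
    obtain ⟨D, hD⟩ := exists_matrix f
    obtain ⟨c, ζ, hζ⟩ := h1 _ _ D
    obtain ⟨n, hn⟩ := h2 _ _ ζ
    refine ⟨n, ?_⟩
    rw [← hD, ← (genR_iff ζ D).1 hζ]
    exact finRes_of_pdr n ζ hn

/-- the group rings of the finitely generated groups in the class `IsVT` over good rings are
regular coherent -/
theorem regCoh_of_isVT {A : Type u} [CommRing A] {H : Type v} [Group H]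
    (hA : Pool.Agent.MIX.GoodRing A) (hH : IsVT H) (hfg : Group.FG H) :
    RegCoh (MonoidAlgebra A H) := by
  let _ : StarRing A := starRingOfComm
  have := hA.noeth
  obtain ⟨h1, g, h2⟩ := hA.facts
  obtain ⟨d, hd⟩ := isVT_iff.1 hH
  have h3 := hd.facts h1 h2 hfg
  exact (regCoh_iff _).2 ⟨h3.coh, h3.pd⟩

end Pool.Agent.KN
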