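import Mathlib
import Pool.Agent.Lib.KN.Elem
import Pool.Agent.Lib.KN.RegCoh
import Pool.Agent.Lib.MIX.LineADefs

/-!
# Excision along lines: definitions for the statement

`G` acts on a tree, `e = {p, q}` is an edge which is not inverted and `F = G_p ∩ G_q`.
-/

set_option autoImplicit false

open MonoidAlgebra Pool.Agent.Lib.MP_98022b_UM.UF Pool.Agent.UP25 Pool.Agent.MIX

namespace Pool.Agent.KN

universe u v w

section
variable {G : Type v} [Group G] {V : Type w} [MulAction G V]

variable (G) in
/-- `l` is a geodesic line of translates of the edge `{p, q}`: the edge between `l i` and `l (i + 1)`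
is `g i • {p, q}` -/
structure ELine (Γ : SimpleGraph V) (p q : V) (l : ℤ → V) (g : ℤ → G) : Prop where
  dist : ∀ i j : ℤ, Γ.dist (l i) (l j) = (i - j).natAbs
  edge : ∀ i : ℤ, s(l i, l (i + 1)) = s(g i • p, g i • q)

variable (G) in
/-- the line `l` is reversible: its segments `[l (-k), l k]` are reversed by elements of `G` -/
def Reversible (l : ℤ → V) : Prop :=
  ∀ k : ℤ, ∃ h : G, h • l k = l (-k) ∧ h • l (-k) = l k

/-- `C` holds along the line of the edges `g i • {p, q}`: for every finitely generated subgroup `N`
of `G_p ∩ G_q` there is a `k` such that `C` holds for all finitely generated subgroups `H` of the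
intersection of the conjugates `g i N (g i)⁻¹`, `|i| ≤ k` -/
def Along (p q : V) (g : ℤ → G) (C : Subgroup G → Prop) : Prop :=
  ∀ N : Subgroup G, N.FG → N ≤ MulAction.stabilizer G p ⊓ MulAction.stabilizer G q →
    ∃ k : ℕ, ∀ H : Subgroup G, H.FG →
      (∀ i : ℤ, |i| ≤ k → ∀ h ∈ H, (g i)⁻¹ * h * g i ∈ N) → C H

/-- `(β α; γ δ)` is a Nil matrix of the edge `{p, q}`: it is nilpotent, and the blocks are supported
in `{g | g p = q}`, `G_q - F`, `G_p - F` and `{g | g q = p}` -/
structure NilMatrix {A : Type u} [CommRing A] {m n : Type} [Fintype m] [DecidableEq m] [Fintype n]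
    [DecidableEq n] (p q : V) (β : Matrix m m (MonoidAlgebra A G))
    (α : Matrix m n (MonoidAlgebra A G)) (γ : Matrix n m (MonoidAlgebra A G))
    (δ : Matrix n n (MonoidAlgebra A G)) : Prop where
  suppβ : SuppIn {g : G | g • p = q} β
  suppα : SuppIn {g : G | g • q = q ∧ g • p ≠ p} α
  suppγ : SuppIn {g : G | g • p = p ∧ g • q ≠ q} γ
  suppδ : SuppIn {g : G | g • q = p} δ
  nil : ∃ k : ℕ, (Matrix.fromBlocks β α γ δ) ^ k = 0

end

/-- the Nil obstruction of the edge `{p, q}` vanishes: `1 + M` is stably elementary over `A[G]` for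
every Nil matrix `M` -/
def NilVanishes (A : Type u) [CommRing A] (G : Type v) [Group G] {V : Type w} [MulAction G V]
    (p q : V) : Prop :=
  ∀ (m n : Type) [Fintype m] [DecidableEq m] [Fintype n] [DecidableEq n]
    (β : Matrix m m (MonoidAlgebra A G)) (α : Matrix m n (MonoidAlgebra A G))
    (γ : Matrix n m (MonoidAlgebra A G)) (δ : Matrix n n (MonoidAlgebra A G)),
    NilMatrix p q β α γ δ → StEl (1 + Matrix.fromBlocks β α γ δ)

/-- the UNil obstruction of the edge `{p, q}` vanishes: every `ε`-quadratic UNil form becomes
hyperbolic over `A[G]` after adding a hyperbolic form, for `ε = ± 1` and all orientation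
characters -/
def UNilVanishes (A : Type u) [CommRing A] [StarRing A] (G : Type v) [Group G] {V : Type w}
    [MulAction G V] (p q : V) : Prop :=
  ∀ (χ : G →* ℤˣ) (ε : ℤ), (ε = 1 ∨ ε = -1) → ∀ (n : Type) [Fintype n] [DecidableEq n]
    (x : QForm A χ ε p q n), StablyHyperbolic χ ε (induced x)

/-- **The obstructions to excision live on lines** (over the commutative ring `A` with involution).
Let `G` act on a tree and let `{p, q}` be an edge which is not inverted.

The Nil obstruction of `{p, q}` vanishes if along every line of translates of `{p, q}` the group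
rings `A[H]` are regular coherent.

The UNil obstruction of `{p, q}` vanishes if `G_p` and `G_q` have no elements of order two and along
every reversible line of translates of `{p, q}` the groups are torsion-free and have a subgroup of
finite index which acts on a locally finite tree with virtually poly-`ℤ` stabilisers of bounded
length; if there is a reversible line, `A` has to be good. -/
def ObstructionsOnLines (A : Type u) [CommRing A] [StarRing A] : Prop :=
  ∀ (G : Type v) [Group G] (V : Type w) [MulAction G V] (Γ : SimpleGraph V), Γ.IsTree →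
    (∀ (g : G) (x y : V), Γ.Adj x y → Γ.Adj (g • x) (g • y)) →
    ∀ p q : V, Γ.Adj p q → (∀ g : G, ¬ (g • p = q ∧ g • q = p)) →
    ((∀ (l : ℤ → V) (g : ℤ → G), ELine G Γ p q l g →
        Along p q g fun H => RegCoh (MonoidAlgebra A H)) → NilVanishes A G p q) ∧
    ((∀ g : G, g • p = p → g * g = 1 → g = 1) → (∀ g : G, g • q = q → g * g = 1 → g = 1) →
      (∀ (l : ℤ → V) (g : ℤ → G), ELine G Γ p q l g → Reversible G l →
        GoodRing A ∧ Along p q g fun H => IsVT H) → UNilVanishes A G p q)

end Pool.Agent.KN
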