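import Mathlib

/-! Row R6b: geodesic lines from two rays. -/

set_option autoImplicit false

namespace Pool.Agent.KN

universe v w

section
variable {V : Type w} {Γ : SimpleGraph V}

/-- the vertex at given distances on a geodesic of a tree is unique -/
theorem mid_unique (hΓ : Γ.IsTree) {x y z z' : V} (h1 : Γ.dist x z + Γ.dist z y = Γ.dist x y)
    (h2 : Γ.dist x z' + Γ.dist z' y = Γ.dist x y) (h3 : Γ.dist x z = Γ.dist x z') : z = z' := by
  obtain ⟨a, ha⟩ := hΓ.connected.exists_walk_length_eq_dist x z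
  obtain ⟨b, hb⟩ := hΓ.connected.exists_walk_length_eq_dist z y
  obtain ⟨a', ha'⟩ := hΓ.connected.exists_walk_length_eq_dist x z'
  obtain ⟨b', hb'⟩ := hΓ.connected.exists_walk_length_eq_dist z' y
  have hp : (a.append b).IsPath := SimpleGraph.Walk.isPath_of_length_eq_dist _ (by
    rw [SimpleGraph.Walk.length_append, ha, hb, h1])
  have hp' : (a'.append b').IsPath := SimpleGraph.Walk.isPath_of_length_eq_dist _ (by
    rw [SimpleGraph.Walk.length_append, ha', hb', h2])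
  have h5 := congrArg Subtype.val (hΓ.isAcyclic.path_unique ⟨_, hp⟩ ⟨_, hp'⟩)
  have h6 := congrArg (fun w => SimpleGraph.Walk.getVert w (Γ.dist x z)) h5
  simp only [SimpleGraph.Walk.getVert_append] at h6
  rw [if_neg (by rw [ha]; exact lt_irrefl _), if_neg (by rw [ha', h3]; exact lt_irrefl _),
    ha, ha', h3, Nat.sub_self, SimpleGraph.Walk.getVert_zero, SimpleGraph.Walk.getVert_zero] at h6
  exact h6

/-- the line with the halves `u` and `v` -/
def zLine (u v : ℕ → V) : ℤ → V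
  | Int.ofNat k => u k
  | Int.negSucc k => v k

theorem zLine_adj {u v : ℕ → V} (hu : ∀ k, Γ.Adj (u k) (u (k + 1)))
    (hv : ∀ k, Γ.Adj (v k) (v (k + 1))) (h0 : Γ.Adj (u 0) (v 0)) (i : ℤ) :
    Γ.Adj (zLine u v i) (zLine u v (i + 1)) := by
  rcases i with k | k
  · exact hu k
  · rcases k with _ | k
    · exact h0.symm
    · have : Int.negSucc (k + 1) + 1 = Int.negSucc k := by omega
      rw [this]
      exact (hv k).symm

theorem zLine_le {u v : ℕ → V} (hc : Γ.Connected) (hu : ∀ k, Γ.Adj (u k) (u (k + 1)))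
    (hv : ∀ k, Γ.Adj (v k) (v (k + 1))) (h0 : Γ.Adj (u 0) (v 0)) (i : ℤ) (n : ℕ) :
    Γ.dist (zLine u v i) (zLine u v (i + n)) ≤ n := by
  induction n with
  | zero => simp
  | succ n ih =>
    have h1 := hc.dist_triangle (u := zLine u v i) (v := zLine u v (i + n))
      (w := zLine u v (i + n + 1))
    have h2 : Γ.dist (zLine u v (i + n)) (zLine u v (i + n + 1)) = 1 :=
      SimpleGraph.dist_eq_one_iff_adj.2 (zLine_adj hu hv h0 _)
    push_cast
    rw [← add_assoc]
    omega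

theorem zLine_dist {u v : ℕ → V} (hc : Γ.Connected) (hu : ∀ k, Γ.Adj (u k) (u (k + 1)))
    (hv : ∀ k, Γ.Adj (v k) (v (k + 1))) (h0 : Γ.Adj (u 0) (v 0))
    (hd : ∀ k, Γ.dist (u k) (v k) = 2 * k + 1) (i : ℤ) (n : ℕ) :
    Γ.dist (zLine u v i) (zLine u v (i + n)) = n := by
  refine le_antisymm (zLine_le hc hu hv h0 i n) ?_
  set k : ℕ := i.natAbs + n + 1 with hk
  obtain ⟨a, ha⟩ : ∃ a : ℕ, i = Int.negSucc k + a := ⟨(i + k + 1).toNat, by omega⟩
  obtain ⟨b, hb⟩ : ∃ b : ℕ, Int.ofNat k = i + n + b := ⟨(k - i - n).toNat, by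
    rw [Int.ofNat_eq_natCast]; omega⟩
  have h1 := zLine_le hc hu hv h0 (Int.negSucc k) a
  have h2 := zLine_le hc hu hv h0 (i + n) b
  rw [← ha] at h1
  rw [← hb] at h2
  have h3 : Γ.dist (zLine u v (Int.negSucc k)) (zLine u v (Int.ofNat k)) = 2 * k + 1 := by
    show Γ.dist (v k) (u k) = _
    rw [SimpleGraph.dist_comm, hd]
  have h4 := hc.dist_triangle (u := zLine u v (Int.negSucc k)) (v := zLine u v i)
    (w := zLine u v (Int.ofNat k))
  have h5 := hc.dist_triangle (u := zLine u v i) (v := zLine u v (i + n))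
    (w := zLine u v (Int.ofNat k))
  rw [Int.ofNat_eq_natCast] at hb
  omega

theorem zLine_dist' {u v : ℕ → V} (hc : Γ.Connected) (hu : ∀ k, Γ.Adj (u k) (u (k + 1)))
    (hv : ∀ k, Γ.Adj (v k) (v (k + 1))) (h0 : Γ.Adj (u 0) (v 0))
    (hd : ∀ k, Γ.dist (u k) (v k) = 2 * k + 1) (i j : ℤ) :
    Γ.dist (zLine u v i) (zLine u v j) = (i - j).natAbs := by
  have hD := zLine_dist hc hu hv h0 hd
  rcases le_total i j with h | h
  · obtain ⟨n, rfl⟩ : ∃ n : ℕ, j = i + n := ⟨(j - i).toNat, by omega⟩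
    rw [hD]
    omega
  · obtain ⟨n, rfl⟩ : ∃ n : ℕ, i = j + n := ⟨(i - j).toNat, by omega⟩
    rw [SimpleGraph.dist_comm, hD]
    omega

end

section
variable {V : Type w} {G : Type v} [Group G] [MulAction G V] {Γ : SimpleGraph V}

theorem dist_smul_le (hΓ : Γ.IsTree)
    (hadj : ∀ (g : G) (x y : V), Γ.Adj x y → Γ.Adj (g • x) (g • y)) (g : G) (x y : V) :
    Γ.dist (g • x) (g • y) ≤ Γ.dist x y := by
  obtain ⟨w, hw⟩ := hΓ.connected.exists_walk_length_eq_dist x y
  let f : Γ →g Γ := ⟨fun v => g • v, fun {a b} h => hadj g a b h⟩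
  have h1 : Γ.dist (g • x) (g • y) ≤ (w.map f).length := SimpleGraph.dist_le (w.map f)
  rwa [SimpleGraph.Walk.length_map, hw] at h1

theorem dist_smul (hΓ : Γ.IsTree)
    (hadj : ∀ (g : G) (x y : V), Γ.Adj x y → Γ.Adj (g • x) (g • y)) (g : G) (x y : V) :
    Γ.dist (g • x) (g • y) = Γ.dist x y := by
  refine le_antisymm (dist_smul_le hΓ hadj g x y) ?_
  have h := dist_smul_le hΓ hadj g⁻¹ (g • x) (g • y)
  rwa [inv_smul_smul, inv_smul_smul] at h

/-- the stabiliser of a segment fixes the vertices of the segment -/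
theorem stab_mid (hΓ : Γ.IsTree)
    (hadj : ∀ (g : G) (x y : V), Γ.Adj x y → Γ.Adj (g • x) (g • y)) {x y z : V}
    (h : Γ.dist x z + Γ.dist z y = Γ.dist x y) :
    MulAction.stabilizer G x ⊓ MulAction.stabilizer G y ≤ MulAction.stabilizer G z := by
  intro g hg
  obtain ⟨h1, h2⟩ := Subgroup.mem_inf.1 hg
  rw [MulAction.mem_stabilizer_iff] at h1 h2 ⊢
  have h3 : Γ.dist x (g • z) = Γ.dist x z := by
    conv_lhs => rw [← h1]
    exact dist_smul hΓ hadj g x z
  have h4 : Γ.dist (g • z) y = Γ.dist z y := by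
    conv_lhs => rw [← h2]
    exact dist_smul hΓ hadj g z y
  exact (mid_unique hΓ h (by rw [h3, h4, h]) h3.symm).symm

/-- **two nested rays give a line** -/
theorem exists_line (hΓ : Γ.IsTree)
    (hadj : ∀ (g : G) (x y : V), Γ.Adj x y → Γ.Adj (g • x) (g • y)) {p q : V} {u v : ℕ → V}
    (hu : ∀ k, Γ.Adj (u k) (u (k + 1))) (hv : ∀ k, Γ.Adj (v k) (v (k + 1)))
    (h0 : Γ.Adj (u 0) (v 0)) (eu : ∀ k, ∃ g : G, s(u k, u (k + 1)) = s(g • p, g • q))
    (ev : ∀ k, ∃ g : G, s(v k, v (k + 1)) = s(g • p, g • q))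
    (e0 : ∃ g : G, s(u 0, v 0) = s(g • p, g • q))
    (hd : ∀ k, Γ.dist (u k) (v k) = 2 * k + 1) (P : Subgroup G → Prop)
    (hP : ∀ H K, H ≤ K → P K → P H)
    (hn : ∀ k, ¬ P (MulAction.stabilizer G (u k) ⊓ MulAction.stabilizer G (v k))) :
    ∃ l : ℤ → V, (∀ i j : ℤ, Γ.dist (l i) (l j) = (i - j).natAbs) ∧
      (∀ i : ℤ, ∃ g : G, s(l i, l (i + 1)) = s(g • p, g • q)) ∧
      ∀ i j : ℤ, ¬ P (MulAction.stabilizer G (l i) ⊓ MulAction.stabilizer G (l j)) := by
  have hD := zLine_dist hΓ.connected hu hv h0 hd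
  have hD' : ∀ i j : ℤ, Γ.dist (zLine u v i) (zLine u v j) = (i - j).natAbs := by
    intro i j
    rcases le_total i j with h | h
    · obtain ⟨n, rfl⟩ : ∃ n : ℕ, j = i + n := ⟨(j - i).toNat, by omega⟩
      rw [hD]
      omega
    · obtain ⟨n, rfl⟩ : ∃ n : ℕ, i = j + n := ⟨(i - j).toNat, by omega⟩
      rw [SimpleGraph.dist_comm, hD]
      omega
  refine ⟨zLine u v, hD', ?_, ?_⟩
  · intro i
    rcases i with k | k
    · exact eu k
    · rcases k with _ | k
      · obtain ⟨g, hg⟩ := e0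
        refine ⟨g, ?_⟩
        rw [← hg]
        exact Sym2.eq_swap
      · obtain ⟨g, hg⟩ := ev k
        refine ⟨g, ?_⟩
        have : Int.negSucc (k + 1) + 1 = Int.negSucc k := by omega
        rw [this, ← hg]
        exact Sym2.eq_swap
  · intro i j h
    set k : ℕ := i.natAbs + j.natAbs + 1 with hk
    refine hn k (hP _ _ ?_ h)
    have key : ∀ m : ℤ, m.natAbs < k → MulAction.stabilizer G (u k) ⊓
        MulAction.stabilizer G (v k) ≤ MulAction.stabilizer G (zLine u v m) := by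
      intro m hm
      refine stab_mid hΓ hadj ?_
      have h1 : Γ.dist (u k) (zLine u v m) = (Int.ofNat k - m).natAbs := hD' (Int.ofNat k) m
      have h2 : Γ.dist (zLine u v m) (v k) = (m - Int.negSucc k).natAbs := hD' m (Int.negSucc k)
      rw [h1, h2, hd, Int.ofNat_eq_natCast]
      omega
    exact le_inf (key i (by omega)) (key j (by omega))

end

end Pool.Agent.KN
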