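import Mathlib
import Pool.Agent.Lib.KN.Defs
import Pool.Agent.Lib.MP_98022b_UN.CosL

/-!
# The content lemma (row R3 of theorem K, helper26)
-/

set_option autoImplicit false

open MonoidAlgebra
open Pool.Agent.Lib.MP_98022b_UN Pool.Agent.Lib.MP_98022b_UM Pool.Agent.UP

namespace Pool.Agent.KN

universe u v w

section

variable {A : Type u} {Λ : Type w} {G : Type v} [CommRing A] [Group G]

theorem lw_left (E : LSys Λ G) {n : ℕ} {l m : Λ} {f g : G} (hf : f ∈ E.F l) (hg : g ∈ E.W n l m) :
    f * g ∈ E.W n l m := by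
  cases n with
  | zero => exact ⟨(E.F l).mul_mem hf hg.1, hg.2⟩
  | succ n =>
    obtain ⟨r, s, hs, t, ht, rfl⟩ := hg
    exact ⟨r, f * s, E.left' hf hs, t, ht, by rw [mul_assoc]⟩

theorem pow_supp (E : LSys Λ G) {K : Type} [Fintype K] [DecidableEq K] (t : K → Λ)
    {M : Matrix K K (MonoidAlgebra A G)} (hM : OnSL E t t M) (m : ℕ) :
    ∀ i j g, ((M ^ m) i j).coeff g ≠ 0 → g ∈ E.W m (t i) (t j) := by
  induction m with
  | zero =>
    intro i j g hg
    rw [pow_zero] at hg
    by_cases hij : i = j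
    · subst hij
      rw [Matrix.one_apply_eq] at hg
      rw [OnAux.supp_one hg]
      exact ⟨(E.F (t i)).one_mem, rfl⟩
    · rw [Matrix.one_apply_ne hij] at hg
      exact absurd rfl hg
  | succ m ih =>
    intro i j g hg
    rw [pow_succ', Matrix.mul_apply] at hg
    obtain ⟨k, -, hk⟩ := OnAux.supp_sum hg
    obtain ⟨a, c, ha, hc, rfl⟩ := OnAux.supp_mul hk
    exact ⟨t k, a, hM i k a ha, c, ih k j c hc, rfl⟩

open Classical in
/-- the coset components of the blocks of the rows of a matrix -/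
theorem exists_idx (E : LSys Λ G) {J K : Type} [Fintype J] [Fintype K] (r : J → Λ) (t : K → Λ)
    (Z : Matrix J K (MonoidAlgebra A G)) (hZ : OnSL E r t Z) :
    ∃ (c : ℕ) (row : Fin c → J) (lab : Fin c → Λ) (τ : Fin c → G),
      (∀ a a', row a = row a' → lab a = lab a' → (τ a)⁻¹ * τ a' ∈ E.F (lab a) → a = a') ∧
      (∀ a, τ a ∈ E.S (r (row a)) (lab a)) ∧
      ∀ j k, Z j k = ∑ a, if row a = j ∧ lab a = t k then
        single (τ a) (1 : A) * res (E.F (lab a) : Set G) (single (τ a)⁻¹ 1 * Z j k) else 0 := by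
  -- the block of row `j` with label `l`
  let N : J → Λ → Matrix Unit K (MonoidAlgebra A G) := fun j l _ k => if l = t k then Z j k else 0
  have hN : ∀ j l, ∃ T : Finset G, (∀ g ∈ T, ∀ h ∈ T, g⁻¹ * h ∈ E.F l → g = h) ∧
      (∀ g ∈ T, ∃ f ∈ E.F l, ∃ i k, (N j l i k).coeff (g * f) ≠ 0) ∧
      N j l = ∑ g ∈ T, fun i k => single g 1 * cL (E.F l) g (N j l) i k := fun j l =>
    cL_decomp (E.F l) (N j l)
  choose T h1 h2 h3 using hN
  let S : Finset (Σ _ : J × Λ, G) :=
    ((Finset.univ : Finset J) ×ˢ (Finset.univ.image t)).sigma fun p => T p.1 p.2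
  let e : Fin S.card ≃ S := S.equivFin.symm
  have hmem : ∀ a : Fin S.card, (e a).1.2 ∈ T (e a).1.1.1 (e a).1.1.2 := by
    intro a
    have := (e a).2
    simp only [S, Finset.mem_sigma] at this
    exact this.2
  refine ⟨S.card, fun a => (e a).1.1.1, fun a => (e a).1.1.2, fun a => (e a).1.2, ?_, ?_, ?_⟩
  · intro a a' ha hl hF
    beta_reduce at ha hl hF
    apply e.injective
    apply Subtype.ext
    rcases hx : (e a).1 with ⟨⟨j, l⟩, g⟩
    rcases hx' : (e a').1 with ⟨⟨j', l'⟩, g'⟩
    have m1 := hmem a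
    have m2 := hmem a'
    rw [hx] at ha hl hF m1
    rw [hx'] at ha hl hF m2
    simp only at ha hl hF m1 m2
    subst ha
    subst hl
    rw [h1 j l g m1 g' m2 hF]
  · intro a
    obtain ⟨f, hf, i, k, hk⟩ := h2 _ _ _ (hmem a)
    have hk' : (e a).1.1.2 = t k := by
      by_contra hc
      apply hk
      simp only [N, if_neg hc]
      rfl
    have hk2 : (Z (e a).1.1.1 k).coeff ((e a).1.2 * f) ≠ 0 := by
      simpa only [N, if_pos hk'] using hk
    have h4 := hZ _ _ _ hk2
    rw [← hk'] at h4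
    have h5 := E.right' h4 ((E.F _).inv_mem hf)
    rwa [mul_inv_cancel_right] at h5
  · intro j k
    have h4 : ∑ a : Fin S.card, (if (e a).1.1.1 = j ∧ (e a).1.1.2 = t k then
        single (e a).1.2 (1 : A) * res (E.F (e a).1.1.2 : Set G) (single (e a).1.2⁻¹ 1 * Z j k) else 0) =
        ∑ x ∈ S, (if x.1.1 = j ∧ x.1.2 = t k then
        single x.2 (1 : A) * res (E.F x.1.2 : Set G) (single x.2⁻¹ 1 * Z j k) else 0) := by
      rw [← Finset.sum_coe_sort S]
      exact Equiv.sum_comp e (fun x : S => (if x.1.1.1 = j ∧ x.1.1.2 = t k then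
        single x.1.2 (1 : A) * res (E.F x.1.1.2 : Set G) (single x.1.2⁻¹ 1 * Z j k) else 0))
    refine Eq.trans ?_ h4.symm
    rw [Finset.sum_sigma, Finset.sum_product, Finset.sum_eq_single j]
    · rw [Finset.sum_eq_single (t k)]
      · have h5 := congrFun (congrFun (h3 j (t k)) ()) k
        rw [Finset.sum_apply, Finset.sum_apply] at h5
        have h6 : N j (t k) () k = Z j k := if_pos rfl
        rw [h6] at h5
        refine h5.trans (Finset.sum_congr rfl fun g _ => ?_)
        rw [if_pos ⟨rfl, rfl⟩]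
        unfold cL
        rw [h6]
      · intro l _ hl
        refine Finset.sum_eq_zero fun g _ => ?_
        rw [if_neg]
        rintro ⟨_, h⟩
        exact hl h
      · intro h
        exact absurd (Finset.mem_image_of_mem t (Finset.mem_univ k)) h
    · intro j' _ hj'
      refine Finset.sum_eq_zero fun l _ => Finset.sum_eq_zero fun g _ => ?_
      rw [if_neg]
      rintro ⟨h, _⟩
      exact hj' h
    · intro h
      exact absurd (Finset.mem_univ j) h

/-- the content lemma -/
theorem exists_cont {A : Type u} {Λ : Type w} {G : Type v} [CommRing A] [Group G] (E : LSys Λ G)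
    (hG : E.Geo) {J K : Type} [Fintype J] [Fintype K] [DecidableEq K] (r : J → Λ) (t : K → Λ)
    (Z : Matrix J K (MonoidAlgebra A G)) (hZ : OnSL E r t Z) :
    ∃ (c : ℕ) (r' : Fin c → Λ) (Φ : Matrix (Fin c) K (MonoidAlgebra A G))
      (Ξ : Matrix J (Fin c) (MonoidAlgebra A G)), On0 (fSys E.F) r' t Φ ∧ Z = Ξ * Φ ∧
      (∀ M : Matrix K K (MonoidAlgebra A G), OnSL E t t M → ∀ m : ℕ, Z * M ^ m = 0 →
        Φ * M ^ m = 0) ∧
      (∀ (J₂ : Type) [Fintype J₂] (r₂ : J₂ → Λ) (Φ₂ : Matrix J₂ K (MonoidAlgebra A G))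
        (D : Matrix J J₂ (MonoidAlgebra A G)), On0 (fSys E.F) r₂ t Φ₂ → Z = D * Φ₂ →
        ∃ κ : Matrix (Fin c) J₂ (MonoidAlgebra A G), Φ = κ * Φ₂) := by
  classical
  obtain ⟨c, row, lab, τ, h1, h2, h3⟩ := exists_idx E r t Z hZ
  let Φ : Matrix (Fin c) K (MonoidAlgebra A G) := fun a k =>
    if lab a = t k then res (E.F (lab a) : Set G) (single (τ a)⁻¹ 1 * Z (row a) k) else 0
  let Ξ : Matrix J (Fin c) (MonoidAlgebra A G) := fun j a =>
    if row a = j then single (τ a) 1 else 0
  have hΦ : On0 (fSys E.F) lab t Φ := by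
    intro a k g hg
    by_cases h : lab a = t k
    · simp only [Φ, if_pos h] at hg
      exact ⟨(res_supp _ _ _ hg).1, h⟩
    · simp only [Φ, if_neg h] at hg
      exact absurd rfl hg
  have hZΦ : Z = Ξ * Φ := by
    ext1 j k
    rw [Matrix.mul_apply, h3 j k]
    refine Finset.sum_congr rfl fun a _ => ?_
    by_cases ha : row a = j
    · by_cases hl : lab a = t k
      · rw [if_pos (And.intro ha hl)]
        simp only [Ξ, Φ, if_pos ha, if_pos hl]
        rw [ha]
      · simp only [Ξ, Φ, if_neg hl, mul_zero]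
        rw [if_neg]
        exact fun h => hl h.2
    · simp only [Ξ, if_neg ha, zero_mul]
      rw [if_neg]
      exact fun h => ha h.1
  refine ⟨c, lab, Φ, Ξ, hΦ, hZΦ, ?_, ?_⟩
  · intro M hM m h0
    have hsup : ∀ a k g, ((Φ * M ^ m) a k).coeff g ≠ 0 → g ∈ E.W m (lab a) (t k) := by
      intro a k g hg
      rw [Matrix.mul_apply] at hg
      obtain ⟨k', -, hk⟩ := OnAux.supp_sum hg
      obtain ⟨x, y, hx, hy, rfl⟩ := OnAux.supp_mul hk
      obtain ⟨h4, h5⟩ := hΦ a k' x hx
      have h6 := pow_supp E t hM m k' k y hy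
      rw [← h5] at h6
      exact lw_left E h4 h6
    ext1 a k
    ext g
    by_contra hg
    have hg' : ((Φ * M ^ m) a k).coeff g ≠ 0 := hg
    have h4 : (Z * M ^ m) (row a) k = ∑ a', Ξ (row a) a' * (Φ * M ^ m) a' k := by
      rw [hZΦ, Matrix.mul_assoc, Matrix.mul_apply]
    have h5 : ((Z * M ^ m) (row a) k).coeff (τ a * g) = ((Φ * M ^ m) a k).coeff g := by
      rw [h4, coeff_sum, Finsupp.finsetSum_apply, Finset.sum_eq_single a]
      · simp only [Ξ, if_true]
        rw [coeff_single_mul_apply, inv_mul_cancel_left, one_mul]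
      · intro a' _ ha'
        by_cases hr : row a' = row a
        · simp only [Ξ, if_pos hr]
          rw [coeff_single_mul_apply, one_mul]
          by_contra hc
          have w1 := hsup a' k _ hc
          have w2 := hsup a k g hg'
          have s1 := h2 a
          have s2 := h2 a'
          rw [hr] at s2
          have := hG m (r (row a)) (t k) (lab a) (lab a') (τ a) (τ a') g ((τ a')⁻¹ * (τ a * g))
            s1 w2 s2 w1 (by rw [mul_inv_cancel_left])
          exact ha' (h1 a a' hr.symm this.1 this.2).symm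
        · simp only [Ξ, if_neg hr, zero_mul]
          rfl
      · intro h
        exact absurd (Finset.mem_univ a) h
    apply hg'
    rw [← h5, h0]
    rfl
  · intro J₂ _ r₂ Φ₂ D hΦ₂ hD
    refine ⟨fun a j₂ => if r₂ j₂ = lab a then
      res (E.F (lab a) : Set G) (single (τ a)⁻¹ 1 * D (row a) j₂) else 0, ?_⟩
    ext1 a k
    rw [Matrix.mul_apply]
    by_cases hl : lab a = t k
    · simp only [Φ, if_pos hl]
      rw [hD, Matrix.mul_apply, Finset.mul_sum, res_sum]
      refine Finset.sum_congr rfl fun j₂ _ => ?_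
      by_cases hr : r₂ j₂ = lab a
      · rw [if_pos hr, ← mul_assoc]
        refine res_mul_right (F := E.F (lab a)) (U := (E.F (lab a) : Set G))
          (fun f hf g hg => (E.F (lab a)).mul_mem hg hf) (fun g hg => ?_) _
        have := (hΦ₂ j₂ k g hg).1
        rw [hr] at this
        exact this
      · have hz : Φ₂ j₂ k = 0 := by
          ext g
          by_contra hc
          exact hr ((hΦ₂ j₂ k g hc).2.trans hl.symm)
        rw [hz, if_neg hr, mul_zero, mul_zero, res_zero, zero_mul]
    · simp only [Φ, if_neg hl]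
      symm
      refine Finset.sum_eq_zero fun j₂ _ => ?_
      by_cases hr : r₂ j₂ = lab a
      · have hz : Φ₂ j₂ k = 0 := by
          ext g
          by_contra hc
          exact hl (hr.symm.trans (hΦ₂ j₂ k g hc).2)
        rw [hz, mul_zero]
      · rw [if_neg hr, zero_mul]

end

end Pool.Agent.KN
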