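import Mathlib
import Pool.Agent.Lib.KN.Defs

/-! Row R0: the calculus of the predicate `Z`. -/

set_option autoImplicit false

namespace Pool.Agent.KN

universe u

section
variable {R : Type u} [Ring R] {φ : NullFam R} {K L : Type} [Fintype K] [DecidableEq K]
  [Fintype L] [DecidableEq L]

theorem Z_zero : φ.Z (0 : Matrix K K R) := ⟨1, by simp, Subgroup.one_mem _⟩

theorem Z_swap {X : Matrix K L R} {Y : Matrix L K R} (h : φ.Z (X * Y)) : φ.Z (Y * X) := by
  obtain ⟨U, hU, hS⟩ := h
  have h1 : (1 + X * Y) * (↑U⁻¹ : Matrix K K R) = 1 := by rw [← hU, Units.mul_inv]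
  have h2 : (↑U⁻¹ : Matrix K K R) * (1 + X * Y) = 1 := by rw [← hU, Units.inv_mul]
  have e1 : (1 + Y * X) * (1 - Y * (↑U⁻¹ : Matrix K K R) * X) = 1 := by
    have : (1 + Y * X) * (1 - Y * (↑U⁻¹ : Matrix K K R) * X) =
        1 + Y * X - Y * ((1 + X * Y) * (↑U⁻¹ : Matrix K K R)) * X := by
      simp only [Matrix.mul_sub, Matrix.add_mul, Matrix.mul_add, Matrix.one_mul, Matrix.mul_one,
        Matrix.mul_assoc]
    rw [this, h1, Matrix.mul_one]
    abel
  have e2 : (1 - Y * (↑U⁻¹ : Matrix K K R) * X) * (1 + Y * X) = 1 := by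
    have : (1 - Y * (↑U⁻¹ : Matrix K K R) * X) * (1 + Y * X) =
        1 + Y * X - Y * ((↑U⁻¹ : Matrix K K R) * (1 + X * Y)) * X := by
      simp only [Matrix.sub_mul, Matrix.add_mul, Matrix.mul_add, Matrix.one_mul, Matrix.mul_one,
        Matrix.mul_assoc]
      abel
    rw [this, h2, Matrix.mul_one]
    abel
  exact ⟨⟨1 + Y * X, 1 - Y * (↑U⁻¹ : Matrix K K R) * X, e1, e2⟩, rfl,
    φ.swap Y X _ U rfl hU hS⟩

theorem Z_mul {a b c : Matrix K K R} (ha : φ.Z a) (hb : φ.Z b)
    (h : (1 + a) * (1 + b) = 1 + c) : φ.Z c := by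
  obtain ⟨U, hU, hS⟩ := ha
  obtain ⟨V, hV, hS'⟩ := hb
  exact ⟨U * V, by rw [Units.val_mul, hU, hV, h], (φ.S K).mul_mem hS hS'⟩

private theorem Z_null {a : Matrix K K R} {e : Matrix K K R} (h1 : e * a = a)
    (h2 : a * e = 0) : φ.Z a := by
  have h3 : φ.Z (a * e) := by rw [h2]; exact Z_zero
  have h4 := Z_swap h3
  rwa [h1] at h4

theorem Z_tri {T : Matrix K K R} {p : K → ℕ} (h : ∀ a c, T a c ≠ 0 → p a < p c) : φ.Z T := by
  classical
  let D : ℕ → Matrix K K R := fun j => Matrix.diagonal fun a => if j ≤ p a then 1 else 0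
  let E : ℕ → Matrix K K R := fun j => Matrix.diagonal fun a => if p a = j then 1 else 0
  have hD : ∀ j a c, (D j * T) a c = if j ≤ p a then T a c else 0 := by
    intro j a c
    rw [Matrix.diagonal_mul]
    split_ifs <;> simp
  have hE : ∀ j a c, (E j * T) a c = if p a = j then T a c else 0 := by
    intro j a c
    rw [Matrix.diagonal_mul]
    split_ifs <;> simp
  have key : ∀ m j, (∀ a, p a < j + m) → φ.Z (D j * T) := by
    intro m
    induction m with
    | zero =>
      intro j hj
      have : D j * T = 0 := by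
        ext a c
        rw [hD, if_neg (by have := hj a; omega), Matrix.zero_apply]
      rw [this]
      exact Z_zero
    | succ m ih =>
      intro j hj
      have h1 : φ.Z (D (j + 1) * T) := ih (j + 1) fun a => by have := hj a; omega
      have h2 : φ.Z (E j * T) := by
        refine Z_null (e := E j) ?_ ?_
        · ext a c
          rw [Matrix.diagonal_mul, hE]
          split_ifs <;> simp
        · ext a c
          rw [Matrix.mul_diagonal, hE, Matrix.zero_apply]
          split_ifs with h3 h4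
          · by_cases h5 : T a c = 0
            · rw [h5, zero_mul]
            · have := h a c h5
              omega
          · rw [mul_zero]
          · rw [zero_mul]
          · rw [zero_mul]
      refine Z_mul h1 h2 ?_
      have h3 : D (j + 1) * T * (E j * T) = 0 := by
        rw [← Matrix.mul_assoc]
        have : D (j + 1) * T * E j = 0 := by
          ext a c
          rw [Matrix.mul_diagonal, hD, Matrix.zero_apply]
          split_ifs with h3 h4
          · by_cases h5 : T a c = 0
            · rw [h5, zero_mul]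
            · have := h a c h5
              omega
          · rw [mul_zero]
          · rw [zero_mul]
          · rw [zero_mul]
        rw [this, Matrix.zero_mul]
      rw [Matrix.add_mul, Matrix.one_mul, Matrix.mul_add, Matrix.mul_one, h3, add_zero, add_assoc]
      congr 1
      ext a c
      rw [Matrix.add_apply, hD, hD, hE]
      by_cases h4 : p a = j
      · rw [if_pos h4, if_neg (by omega), if_pos (by omega), add_zero]
      · rw [if_neg h4, zero_add]
        by_cases h5 : j + 1 ≤ p a
        · rw [if_pos h5, if_pos (by omega)]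
        · rw [if_neg h5, if_neg (by omega)]
  have h0 := key (Finset.univ.sup p + 1) 0 fun a => by
    have := Finset.le_sup (f := p) (Finset.mem_univ a)
    omega
  have h1 : D 0 * T = T := by
    ext a c
    rw [hD, if_pos (Nat.zero_le _)]
  rwa [h1] at h0

theorem Z_split {f g T : Matrix K K R} (hfg : f + g = 1) (hf : f * f = f) (_hg : g * g = g)
    (_h1 : f * g = 0) (h2 : g * f = 0) (h3 : g * T * f = 0) (hT : φ.Z T)
    (hg' : φ.Z (g * T * g)) : φ.Z (f * T * f) := by
  have h4 : φ.Z (f * T * g) := by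
    refine Z_null (e := f) ?_ ?_
    · rw [← Matrix.mul_assoc, ← Matrix.mul_assoc, hf]
    · rw [Matrix.mul_assoc, h2, Matrix.mul_zero]
  obtain ⟨U, hU, hUS⟩ := hT
  obtain ⟨V, hV, hVS⟩ := hg'
  obtain ⟨W, hW, hWS⟩ := h4
  refine ⟨W⁻¹ * V⁻¹ * U, ?_, (φ.S K).mul_mem ((φ.S K).mul_mem ((φ.S K).inv_mem hWS)
    ((φ.S K).inv_mem hVS)) hUS⟩
  have h5 : T = g * T * g + f * T * g + f * T * f := by
    calc T = (f + g) * T * (f + g) := by rw [hfg, Matrix.one_mul, Matrix.mul_one]
      _ = f * T * f + f * T * g + (g * T * f + g * T * g) := by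
        simp only [Matrix.add_mul, Matrix.mul_add]
        abel
      _ = _ := by rw [h3]; abel
  have e1 : g * T * g * (f * T * g) = 0 := by
    rw [Matrix.mul_assoc (g * T), ← Matrix.mul_assoc g, ← Matrix.mul_assoc g, h2,
      Matrix.zero_mul, Matrix.zero_mul, Matrix.mul_zero]
  have e2 : g * T * g * (f * T * f) = 0 := by
    rw [Matrix.mul_assoc (g * T), ← Matrix.mul_assoc g, ← Matrix.mul_assoc g, h2,
      Matrix.zero_mul, Matrix.zero_mul, Matrix.mul_zero]
  have e3 : f * T * g * (f * T * f) = 0 := by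
    rw [Matrix.mul_assoc (f * T), ← Matrix.mul_assoc g, ← Matrix.mul_assoc g, h2,
      Matrix.zero_mul, Matrix.zero_mul, Matrix.mul_zero]
  have h6 : (V : Matrix K K R) * (W : Matrix K K R) * (1 + f * T * f) = U := by
    rw [hV, hW, hU]
    have : (1 + g * T * g) * (1 + f * T * g) * (1 + f * T * f) =
        1 + (g * T * g + f * T * g + f * T * f) := by
      simp only [Matrix.add_mul, Matrix.mul_add, Matrix.one_mul, Matrix.mul_one, e1, e2, e3,
        Matrix.zero_mul]
      abel
    rw [this, ← h5]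
  rw [Units.val_mul, Units.val_mul, ← h6]
  rw [← Matrix.mul_assoc, ← Matrix.mul_assoc, Matrix.mul_assoc (↑W⁻¹ : Matrix K K R),
    Units.inv_mul, Matrix.mul_one, Units.inv_mul, Matrix.one_mul]

theorem Z_block {X : Matrix K L R} {Y : Matrix L K R}
    (h : φ.Z (Matrix.fromBlocks 0 (-X) Y 0)) : φ.Z (X * Y) := by
  have h1 : φ.Z (Matrix.fromBlocks 0 X 0 0 : Matrix (K ⊕ L) (K ⊕ L) R) := by
    refine Z_tri (p := Sum.elim (fun _ => 0) (fun _ => 1)) ?_
    rintro (a | a) (c | c) h <;> simp_all
  have h2 : φ.Z (Matrix.fromBlocks 0 0 (-Y) 0 : Matrix (K ⊕ L) (K ⊕ L) R) := by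
    refine Z_tri (p := Sum.elim (fun _ => 1) (fun _ => 0)) ?_
    rintro (a | a) (c | c) h <;> simp_all
  have e0 : (1 : Matrix (K ⊕ L) (K ⊕ L) R) = Matrix.fromBlocks 1 0 0 1 :=
    Matrix.fromBlocks_one.symm
  have h3 : φ.Z (Matrix.fromBlocks (X * Y) 0 Y 0) := by
    refine Z_mul h1 h ?_
    rw [e0, Matrix.fromBlocks_add, Matrix.fromBlocks_add, Matrix.fromBlocks_add,
      Matrix.fromBlocks_multiply]
    simp
  have h4 : φ.Z (Matrix.fromBlocks (X * Y) 0 0 0 : Matrix (K ⊕ L) (K ⊕ L) R) := by
    refine Z_mul h3 h2 ?_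
    rw [e0, Matrix.fromBlocks_add, Matrix.fromBlocks_add, Matrix.fromBlocks_add,
      Matrix.fromBlocks_multiply]
    simp
  have h5 : (Matrix.fromBlocks (X * Y) 0 0 0 : Matrix (K ⊕ L) (K ⊕ L) R) =
      Matrix.fromRows (1 : Matrix K K R) (0 : Matrix L K R) *
        Matrix.fromCols (X * Y) (0 : Matrix K L R) := by
    rw [Matrix.fromRows_mul_fromCols]
    simp
  rw [h5] at h4
  have h6 := Z_swap h4
  rw [Matrix.fromCols_mul_fromRows] at h6
  simpa using h6

end

end Pool.Agent.KN
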