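import Mathlib
import Pool.Agent.Lib.KN.Defs
import Pool.Agent.Lib.KN.Null

/-!
# Lemma R: filtered projective modules with finite graded resolutions

All matrices act on ROWS.
-/

set_option autoImplicit false
set_option linter.unusedSectionVars false

open Pool.Agent.UP

namespace Pool.Agent.KN

universe u

variable {R : Type u} [Ring R]

/-- a row of a matrix, as a matrix -/
def rowV {I K : Type} (X : Matrix I K R) (i : I) : Matrix Unit K R := Matrix.of fun _ k => X i k

theorem rowV_mul {I J K : Type} [Fintype J] (X : Matrix I J R) (Y : Matrix J K R) (i : I) :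
    rowV (X * Y) i = rowV X i * Y := by
  ext a k
  simp [rowV, Matrix.mul_apply]

theorem rowV_app {I K : Type} (X : Matrix I K R) (i : I) (a : Unit) (k : K) :
    rowV X i a k = X i k := rfl

theorem ex_of_mul_ne {I J K : Type} [Fintype J] {X : Matrix I J R} {Y : Matrix J K R} {i : I}
    {k : K} (h : (X * Y) i k ≠ 0) : ∃ j, X i j ≠ 0 ∧ Y j k ≠ 0 := by
  rw [Matrix.mul_apply] at h
  obtain ⟨j, -, hj⟩ := Finset.exists_ne_zero_of_sum_ne_zero h
  exact ⟨j, left_ne_zero_of_mul hj, right_ne_zero_of_mul hj⟩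

theorem mul_eq_zero_of_supp {I J K : Type} [Fintype J] {X : Matrix I J R} {Y : Matrix J K R} {i : I}
    {k : K} (h : ∀ j, X i j ≠ 0 → Y j k ≠ 0 → False) : (X * Y) i k = 0 := by
  by_contra h'
  obtain ⟨j, h1, h2⟩ := ex_of_mul_ne h'
  exact h j h1 h2

section
variable {K J I : Type} [Fintype K] [Fintype J] [Fintype I]

/-- rows in the kernel of `Φ` supported in high degrees come from high degrees -/
theorem FilD.Rel.surj [DecidableEq I] {D : FilD R K J} {q : I → ℕ} {ζ B : Matrix I J R}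
    (h : D.Rel q ζ B) (P : Matrix I I R) (hP : ∀ a c, P a c ≠ 0 → q a = q c) (hPζ : P * ζ = ζ) :
    ∀ (d j : ℕ) (v : Matrix Unit J R), (∀ c, D.p c < j + d) → (∀ c, v () c ≠ 0 → j ≤ D.p c) →
      v * D.Φ = 0 →
      ∃ κ : Matrix Unit I R, (∀ c, κ () c ≠ 0 → j ≤ q c) ∧ v = κ * (P * (ζ - B)) := by
  intro d
  induction d with
  | zero =>
    intro j v hp hv _
    refine ⟨0, fun c hc => (hc rfl).elim, ?_⟩
    rw [Matrix.zero_mul]
    ext a c
    by_contra hc
    have := hv c hc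
    have := hp c
    omega
  | succ d ih =>
    intro j v hp hv hΦ
    set x : Matrix Unit J R := Matrix.of fun _ c => if D.p c = j then v () c else 0 with hx
    have hxa : ∀ c, x () c = if D.p c = j then v () c else 0 := fun c => rfl
    have hyd : ∀ c, (x - v) () c ≠ 0 → j < D.p c := by
      intro c hc
      rw [Matrix.sub_apply, hxa] at hc
      by_cases hpc : D.p c = j
      · rw [if_pos hpc, sub_self] at hc
        exact (hc rfl).elim
      · rw [if_neg hpc, zero_sub] at hc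
        have := hv c (by simpa using hc)
        omega
    have hxd : ∀ c, x () c ≠ 0 → D.p c = j := by
      intro c hc
      rw [hxa] at hc
      by_contra hpc
      rw [if_neg hpc] at hc
      exact hc rfl
    have hxy : x * D.Φ = (x - v) * D.Φ := by
      rw [Matrix.sub_mul, hΦ, sub_zero]
    obtain ⟨κ₀, hκ₀⟩ := h.gen j x (x - v) hxd hyd hxy
    set κ₁ : Matrix Unit I R := Matrix.of fun _ i => if q i = j then κ₀ () i else 0 with hκ₁
    have hκa : ∀ i, κ₁ () i = if q i = j then κ₀ () i else 0 := fun i => rfl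
    have hκd : ∀ i, κ₁ () i ≠ 0 → q i = j := by
      intro i hi
      rw [hκa] at hi
      by_contra hq
      rw [if_neg hq] at hi
      exact hi rfl
    have hκx : κ₁ * ζ = x := by
      ext a c
      by_cases hpc : D.p c = j
      · rw [hκ₀, Matrix.mul_apply, Matrix.mul_apply]
        refine Finset.sum_congr rfl fun i _ => ?_
        by_cases hz : ζ i c = 0
        · rw [hz, mul_zero, mul_zero]
        · rw [show κ₁ a i = κ₀ a i from ?_]
          have := h.ζ_deg i c hz
          exact (hκa i).trans (if_pos (this.trans hpc))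
      · have h1 : x a c = 0 := (hxa c).trans (if_neg hpc)
        rw [h1]
        refine mul_eq_zero_of_supp fun i h2 h3 => ?_
        exact hpc ((h.ζ_deg i c h3).symm.trans (hκd i h2))
    have hv' : v - κ₁ * (P * (ζ - B)) = κ₁ * (P * B) - (x - v) := by
      rw [Matrix.mul_sub, hPζ, Matrix.mul_sub, hκx]
      abel
    have hs : ∀ c, (v - κ₁ * (P * (ζ - B))) () c ≠ 0 → j + 1 ≤ D.p c := by
      intro c hc
      rw [hv', Matrix.sub_apply] at hc
      by_cases h0 : (x - v) () c = 0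
      · rw [h0, sub_zero] at hc
        obtain ⟨i, h1, h2⟩ := ex_of_mul_ne hc
        obtain ⟨i', h3, h4⟩ := ex_of_mul_ne h2
        have e1 := hκd i h1
        have e2 := hP i i' h3
        have e3 := h.B_deg i' c h4
        omega
      · exact hyd c h0
    have hζB : (ζ - B) * D.Φ = 0 := by rw [Matrix.sub_mul, h.eq, sub_self]
    have hk : (v - κ₁ * (P * (ζ - B))) * D.Φ = 0 := by
      rw [Matrix.sub_mul, hΦ, Matrix.mul_assoc, Matrix.mul_assoc, hζB, Matrix.mul_zero,
        Matrix.mul_zero, sub_zero]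
    obtain ⟨κ', h1, h2⟩ := ih (j + 1) _ (fun c => by have := hp c; omega) hs hk
    refine ⟨κ₁ + κ', ?_, ?_⟩
    · intro c hc
      by_cases h0 : κ₁ () c = 0
      · rw [Matrix.add_apply, h0, zero_add] at hc
        have := h1 c hc
        omega
      · exact (hκd c h0).ge
    · rw [Matrix.add_mul, ← h2]
      abel

/-- the same for matrices -/
theorem FilD.Rel.surjM [DecidableEq I] {D : FilD R K J} {q : I → ℕ} {ζ B : Matrix I J R}
    (h : D.Rel q ζ B) (P : Matrix I I R) (hP : ∀ a c, P a c ≠ 0 → q a = q c) (hPζ : P * ζ = ζ)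
    {L : Type} (m : L → ℕ) (X : Matrix L J R) (hX : ∀ l c, X l c ≠ 0 → m l ≤ D.p c)
    (hΦ : X * D.Φ = 0) :
    ∃ N : Matrix L I R, (∀ l c, N l c ≠ 0 → m l ≤ q c) ∧ X = N * (P * (ζ - B)) := by
  have key : ∀ l, ∃ κ : Matrix Unit I R, (∀ c, κ () c ≠ 0 → m l ≤ q c) ∧
      rowV X l = κ * (P * (ζ - B)) := by
    intro l
    refine h.surj P hP hPζ (Finset.univ.sup D.p + 1) (m l) (rowV X l) (fun c => ?_) (hX l) ?_
    · have : D.p c ≤ Finset.univ.sup D.p := Finset.le_sup (Finset.mem_univ c)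
      omega
    · rw [← rowV_mul, hΦ]
      rfl
  choose κ h1 h2 using key
  refine ⟨Matrix.of fun l c => κ l () c, fun l c hc => h1 l c hc, ?_⟩
  ext l c
  have := congrFun (congrFun (h2 l) ()) c
  rw [rowV_app] at this
  rw [this, Matrix.mul_apply, Matrix.mul_apply]
  rfl

variable [DecidableEq J]

theorem FilD.eΦ_zero (D : FilD R K J) : (1 - D.Φ * D.s) * D.Φ = 0 := by
  rw [Matrix.sub_mul, Matrix.one_mul, Matrix.mul_assoc, D.sΦ, D.Φe, sub_self]

theorem FilD.ff (D : FilD R K J) : D.Φ * D.s * (D.Φ * D.s) = D.Φ * D.s := by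
  rw [Matrix.mul_assoc, ← Matrix.mul_assoc D.s, D.sΦ, ← Matrix.mul_assoc, D.Φe]

theorem FilD.gbf (D : FilD R K J) : (1 - D.Φ * D.s) * D.b * (D.Φ * D.s) = 0 := by
  rw [Matrix.mul_assoc, ← Matrix.mul_assoc D.b, ← D.Φθ, Matrix.mul_assoc D.Φ, ← Matrix.mul_assoc,
    D.eΦ_zero, Matrix.zero_mul]

theorem FilD.gbg (D : FilD R K J) :
    (1 - D.Φ * D.s) * D.b * (1 - D.Φ * D.s) = (1 - D.Φ * D.s) * D.b := by
  rw [Matrix.mul_sub, D.gbf, Matrix.mul_one, sub_zero]

theorem FilD.gg (D : FilD R K J) :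
    (1 - D.Φ * D.s) * (1 - D.Φ * D.s) = 1 - D.Φ * D.s := by
  rw [Matrix.mul_sub, Matrix.mul_one, ← Matrix.mul_assoc, D.eΦ_zero, Matrix.zero_mul, sub_zero]

/-- the step: the kernel of `Φ` -/
theorem FilD.step [DecidableEq K] (φ : NullFam R) (D : FilD R K J)
    (hZ : φ.Z ((1 - D.Φ * D.s) * D.b)) : φ.Z D.θ := by
  have hb : φ.Z D.b := Z_tri D.hb
  have hfb : φ.Z (D.Φ * D.s * D.b * (D.Φ * D.s)) := by
    refine Z_split (f := D.Φ * D.s) (g := 1 - D.Φ * D.s) (T := D.b) ?_ D.ff D.gg ?_ ?_ D.gbf hb ?_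
    · abel
    · rw [Matrix.mul_sub, Matrix.mul_one, D.ff, sub_self]
    · rw [← Matrix.mul_assoc, D.eΦ_zero, Matrix.zero_mul]
    · rw [D.gbg]
      exact hZ
  have h1 : D.Φ * D.s * D.b * (D.Φ * D.s) = D.Φ * (D.θ * D.s) := by
    calc D.Φ * D.s * D.b * (D.Φ * D.s) = D.Φ * (D.s * (D.b * D.Φ)) * D.s := by
          simp only [Matrix.mul_assoc]
      _ = D.Φ * (D.e * D.θ) * D.s := by rw [← D.Φθ, ← Matrix.mul_assoc D.s, D.sΦ]
      _ = _ := by rw [D.eθ, Matrix.mul_assoc]
  rw [h1] at hfb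
  have h2 := Z_swap hfb
  rwa [Matrix.mul_assoc, D.sΦ, D.θe] at h2

section
variable [DecidableEq I] {D : FilD R K J} {q : I → ℕ} {ζ B : Matrix I J R}

theorem FilD.Rel.φ_zero (h : D.Rel q ζ B) : (ζ - B) * D.Φ = 0 := by
  rw [Matrix.sub_mul, h.eq, sub_self]

theorem FilD.Rel.φe (h : D.Rel q ζ B) : (ζ - B) * (1 - D.Φ * D.s) = ζ - B := by
  rw [Matrix.mul_sub, Matrix.mul_one, ← Matrix.mul_assoc, h.φ_zero, Matrix.zero_mul, sub_zero]

theorem FilD.Rel.φ_deg (h : D.Rel q ζ B) (i : I) (c : J) (hc : (ζ - B) i c ≠ 0) : q i ≤ D.p c := by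
  by_cases h0 : ζ i c = 0
  · rw [Matrix.sub_apply, h0, zero_sub] at hc
    exact (h.B_deg i c (by simpa using hc)).le
  · exact (h.ζ_deg i c h0).le

/-- `φ b` raises the degree strictly -/
theorem FilD.Rel.φb_deg (h : D.Rel q ζ B) (i : I) (c : J) (hc : ((ζ - B) * D.b) i c ≠ 0) :
    q i + 1 ≤ D.p c := by
  obtain ⟨c', h1, h2⟩ := ex_of_mul_ne hc
  have := h.φ_deg i c' h1
  have := D.hb c' c h2
  omega

theorem FilD.Rel.φbΦ (h : D.Rel q ζ B) : (ζ - B) * D.b * D.Φ = 0 := by
  rw [Matrix.mul_assoc, ← D.Φθ, ← Matrix.mul_assoc, h.φ_zero, Matrix.zero_mul]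

/-- the relations of the relations -/
theorem FilD.Rel.next (h : D.Rel q ζ B) {L : Type} [Fintype L] (q' : L → ℕ) (ζ' : Matrix L I R)
    (hζ' : ∀ a i, ζ' a i ≠ 0 → q' a = q i) (hg : GenR ζ' ζ) :
    ∃ (D' : FilD R J I) (B' : Matrix L I R), D'.Rel q' ζ' B' ∧
      D'.θ = (1 - D.Φ * D.s) * D.b := by
  have hP : ∀ a c, (1 : Matrix I I R) a c ≠ 0 → q a = q c := by
    intro a c hac
    by_cases hh : a = c
    · rw [hh]
    · exact (hac (Matrix.one_apply_ne hh)).elim
  obtain ⟨s', -, hs'⟩ := h.surjM 1 hP (Matrix.one_mul _) (fun _ => 0) (1 - D.Φ * D.s)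
    (fun _ _ _ => Nat.zero_le _) D.eΦ_zero
  obtain ⟨b', hb', hb''⟩ := h.surjM 1 hP (Matrix.one_mul _) (fun i => q i + 1) ((ζ - B) * D.b)
    h.φb_deg h.φbΦ
  have hBd : ∀ a c, (-(ζ' * B)) a c ≠ 0 → q' a + 1 ≤ D.p c := by
    intro a c hac
    rw [Matrix.neg_apply] at hac
    obtain ⟨i, h1, h2⟩ := ex_of_mul_ne (by simpa using hac)
    have := hζ' a i h1
    have := h.B_deg i c h2
    omega
  have hBe : -(ζ' * B) = ζ' * (ζ - B) := by
    rw [Matrix.mul_sub, hg.1, zero_sub]
  obtain ⟨B', hB', hB''⟩ := h.surjM 1 hP (Matrix.one_mul _) (fun a => q' a + 1) (-(ζ' * B))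
    hBd (by rw [hBe, Matrix.mul_assoc, h.φ_zero, Matrix.mul_zero])
  rw [Matrix.one_mul] at hs' hb'' hB''
  refine ⟨⟨1 - D.Φ * D.s, (1 - D.Φ * D.s) * D.b, q, ζ - B, s', b', h.φe, hs'.symm, ?_, D.gbg, ?_,
    fun a c hac => hb' a c hac⟩, B', ⟨hζ', fun a c hac => hB' a c hac, ?_, ?_⟩, rfl⟩
  · rw [← Matrix.mul_assoc, D.gg]
  · rw [← Matrix.mul_assoc, h.φe, hb'']
  · show ζ' * (ζ - B) = B' * (ζ - B)
    rw [← hBe, hB'']
  · intro j x y hx hy hxy
    change ∀ c, x () c ≠ 0 → q c = j at hx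
    change ∀ c, y () c ≠ 0 → j < q c at hy
    change x * (ζ - B) = y * (ζ - B) at hxy
    refine hg.2 x ?_
    ext a c
    rw [Matrix.zero_apply]
    by_cases hc : D.p c = j
    · have e1 : (x * ζ) a c = (x * B) a c + (y * (ζ - B)) a c := by
        rw [← hxy, Matrix.mul_sub, Matrix.sub_apply]
        abel
      rw [e1, mul_eq_zero_of_supp (X := x) (Y := B), mul_eq_zero_of_supp (X := y), add_zero]
      · intro i h1 h2
        have := hy i h1
        have := h.φ_deg i c h2
        omega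
      · intro i h1 h2
        have := hx i h1
        have := h.B_deg i c h2
        omega
    · refine mul_eq_zero_of_supp fun i h1 h2 => hc ?_
      rw [← h.ζ_deg i c h2, hx i h1]

/-- the last step: projective graded pieces -/
theorem FilD.Rel.base (φ : NullFam R) (h : D.Rel q ζ B) (P : Matrix I I R)
    (hP : ∀ a c, P a c ≠ 0 → q a = q c) (hPζ : P * ζ = ζ)
    (hk : ∀ κ : Matrix Unit I R, κ * ζ = 0 → κ * P = 0) : φ.Z ((1 - D.Φ * D.s) * D.b) := by
  have hPP : P * P = P := by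
    ext i c
    have h1 : rowV (1 - P) i * P = 0 := by
      refine hk _ ?_
      rw [← rowV_mul, Matrix.sub_mul, Matrix.one_mul, hPζ, sub_self]
      rfl
    have h2 := congrFun (congrFun h1 ()) c
    rw [← rowV_mul, rowV_app, Matrix.sub_mul, Matrix.one_mul, Matrix.sub_apply, Matrix.zero_apply,
      sub_eq_zero] at h2
    exact h2.symm
  -- injectivity
  have hinj : ∀ (L : Type) (X : Matrix L I R), X * P = X → X * (P * (ζ - B)) = 0 → X = 0 := by
    intro L X hX h0
    rw [← Matrix.mul_assoc, hX] at h0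
    by_contra hne
    obtain ⟨l, hl⟩ : ∃ l, ∃ i, X l i ≠ 0 := by
      by_contra hcon
      push Not at hcon
      exact hne (by ext l i; exact hcon l i)
    classical
    -- minimal degree
    have hex : ∃ j, ∃ i, X l i ≠ 0 ∧ q i = j := by
      obtain ⟨i, hi⟩ := hl
      exact ⟨q i, i, hi, rfl⟩
    set j := Nat.find hex with hj
    obtain ⟨i₀, hi₀, hqi₀⟩ := Nat.find_spec hex
    have hmin : ∀ i, X l i ≠ 0 → j ≤ q i := fun i hi => Nat.find_min' hex ⟨i, hi, rfl⟩
    set κ : Matrix Unit I R := Matrix.of fun _ i => if q i = j then X l i else 0 with hκ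
    have hκa : ∀ i, κ () i = if q i = j then X l i else 0 := fun i => rfl
    have hκζ : κ * ζ = 0 := by
      ext a c
      rw [Matrix.zero_apply]
      by_cases hc : D.p c = j
      · have e1 : (κ * ζ) a c = (X * ζ) l c := by
          rw [Matrix.mul_apply, Matrix.mul_apply]
          refine Finset.sum_congr rfl fun i _ => ?_
          by_cases hz : ζ i c = 0
          · rw [hz, mul_zero, mul_zero]
          · rw [show κ a i = X l i from (hκa i).trans (if_pos ((h.ζ_deg i c hz).trans hc))]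
        have e2 : (X * ζ) l c = (X * B) l c := by
          have := congrFun (congrFun h0 l) c
          rw [Matrix.mul_sub, Matrix.sub_apply, Matrix.zero_apply, sub_eq_zero] at this
          exact this
        rw [e1, e2]
        refine mul_eq_zero_of_supp fun i h1 h2 => ?_
        have := hmin i h1
        have := h.B_deg i c h2
        omega
      · refine mul_eq_zero_of_supp fun i h1 h2 => hc ?_
        have h3 : κ () i ≠ 0 := h1
        rw [hκa] at h3
        rw [← h.ζ_deg i c h2]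
        by_contra hq
        rw [if_neg hq] at h3
        exact h3 rfl
    have hκP := hk κ hκζ
    have h3 : X l i₀ = 0 := by
      have e1 : (κ * P) () i₀ = (X * P) l i₀ := by
        rw [Matrix.mul_apply, Matrix.mul_apply]
        refine Finset.sum_congr rfl fun i _ => ?_
        by_cases hz : P i i₀ = 0
        · rw [hz, mul_zero, mul_zero]
        · rw [hκa, if_pos ((hP i i₀ hz).trans hqi₀)]
      rw [← hX, ← e1, hκP, Matrix.zero_apply]
    exact hi₀ h3
  obtain ⟨t₀, -, ht₀⟩ := h.surjM P hP hPζ (fun _ => 0) (1 - D.Φ * D.s)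
    (fun _ _ _ => Nat.zero_le _) D.eΦ_zero
  have hPφ : P * (P * (ζ - B)) = P * (ζ - B) := by rw [← Matrix.mul_assoc, hPP]
  set t := t₀ * P with ht
  have htP : t * P = t := by rw [ht, Matrix.mul_assoc, hPP]
  have htφ : t * (P * (ζ - B)) = 1 - D.Φ * D.s := by rw [ht, Matrix.mul_assoc, hPφ, ← ht₀]
  have hψt : P * (ζ - B) * t = P := by
    have h1 : P * (ζ - B) * t - P = 0 := by
      refine hinj I _ ?_ ?_
      · rw [Matrix.sub_mul, Matrix.mul_assoc _ t P, htP, hPP]
      · rw [Matrix.sub_mul, Matrix.mul_assoc _ t, htφ, hPφ, Matrix.mul_assoc P, h.φe, sub_self]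
    exact sub_eq_zero.1 h1
  -- the endomorphism in the new coordinates
  have hφb : ∀ a c, (P * ((ζ - B) * D.b)) a c ≠ 0 → q a + 1 ≤ D.p c := by
    intro a c hac
    obtain ⟨i, h1, h2⟩ := ex_of_mul_ne hac
    have := hP a i h1
    have := h.φb_deg i c h2
    omega
  obtain ⟨N, hN, hN'⟩ := h.surjM P hP hPζ (fun a => q a + 1) (P * ((ζ - B) * D.b)) hφb
    (by rw [Matrix.mul_assoc, h.φbΦ, Matrix.mul_zero])
  have hT : φ.Z (P * (ζ - B) * ((1 - D.Φ * D.s) * D.b * t)) := by
    have h1 : P * (ζ - B) * ((1 - D.Φ * D.s) * D.b * t) = N * P := by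
      calc P * (ζ - B) * ((1 - D.Φ * D.s) * D.b * t)
          = P * ((ζ - B) * (1 - D.Φ * D.s) * D.b) * t := by simp only [Matrix.mul_assoc]
        _ = P * ((ζ - B) * D.b) * t := by rw [h.φe]
        _ = N * (P * (ζ - B) * t) := by rw [hN']; simp only [Matrix.mul_assoc]
        _ = N * P := by rw [hψt]
    rw [h1]
    refine Z_tri (p := q) fun a c hac => ?_
    obtain ⟨i, h2, h3⟩ := ex_of_mul_ne hac
    have := hN a i h2
    have := hP i c h3
    omega
  have h2 := Z_swap hT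
  rwa [Matrix.mul_assoc, htφ, D.gbg] at h2

end

end

theorem lemR (φ : NullFam R) (n : ℕ) : ∀ {K J I : Type} [Fintype K] [DecidableEq K] [Fintype J]
    [DecidableEq J] [Fintype I] [DecidableEq I] (D : FilD R K J) (q : I → ℕ)
    (ζ B : Matrix I J R), D.Rel q ζ B → LKg n q ζ → φ.Z D.θ := by
  induction n with
  | zero =>
    intro K J I _ _ _ _ _ _ D q ζ B h hL
    obtain ⟨P, h1, h2, h3⟩ := hL
    exact D.step φ (h.base φ P h1 h2 h3)
  | succ n ih =>
    intro K J I _ _ _ _ _ _ D q ζ B h hL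
    obtain ⟨c, q', ζ', h1, h2, h3⟩ := hL
    obtain ⟨D', B', h4, h5⟩ := h.next q' ζ' h1 h2
    have := ih D' q' ζ' B' h4 h3
    rw [h5] at this
    exact D.step φ this

end Pool.Agent.KN
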