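import Mathlib
import Pool.Agent.Lib.KN.Defs
import Pool.Agent.Lib.UP.TrFin

/-!
# Labelled finite resolutions (row R4 of theorem K, helper15)

A matrix with labelled rows, all of whose blocks over the group rings `A[F l]` have finite
resolutions, has a labelled finite resolution.
-/

set_option autoImplicit false

open MonoidAlgebra
open Pool.Agent.Lib.MP_98022b_UN Pool.Agent.Lib.MP_98022b_UM Pool.Agent.Lib.MP_98022b_UP
  Pool.Agent.UP

namespace Pool.Agent.KN

universe u v w

section

variable {A : Type u} {Λ : Type w} {G : Type v} [CommRing A] [Group G]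

/-- a sum over a subtype -/
theorem sum_sub {I M : Type*} [Fintype I] [AddCommMonoid M] (p : I → Prop) [DecidablePred p]
    (f : {i // p i} → M) : ∑ i, (if h : p i then f ⟨i, h⟩ else 0) = ∑ x, f x := by
  classical
  rw [← Fintype.sum_subtype_add_sum_subtype p (fun i => if h : p i then f ⟨i, h⟩ else 0)]
  rw [Finset.sum_eq_zero (s := (Finset.univ : Finset {x // ¬ p x})) (fun x _ => dif_neg x.2),
    add_zero]
  exact Finset.sum_congr rfl fun x _ => dif_pos x.2

theorem pdle_empty (F : Subgroup G) : ∀ (n : ℕ) {J K : Type} [Fintype J] [Fintype K] [IsEmpty J]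
    (D : Matrix J K (MonoidAlgebra A G)), PDle F n D
  | 0, J, K, _, _, _, D => ⟨0, fun i => isEmptyElim i, by ext i; exact isEmptyElim i,
      fun κ _ => by ext u i; exact isEmptyElim i⟩
  | n + 1, J, K, _, _, _, D => ⟨0, 0, fun i => isEmptyElim i, ⟨by ext i; exact isEmptyElim i,
      fun x _ => ⟨0, by ext u i; exact isEmptyElim i⟩⟩, pdle_empty F n _⟩

/-- `PDle` depends only on the relations between the rows -/
theorem pdle_congr (F : Subgroup G) : ∀ (n : ℕ) {J J' K K' : Type} [Fintype J] [Fintype J']
    [Fintype K] [Fintype K'] (e : J' ≃ J) (D : Matrix J K (MonoidAlgebra A G))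
    (D' : Matrix J' K' (MonoidAlgebra A G)),
    (∀ κ : Matrix Unit J (MonoidAlgebra A G), κ * D = 0 ↔ κ.submatrix id e * D' = 0) →
    PDle F n D → PDle F n D'
  | 0, J, J', K, K', _, _, _, _, e, D, D', h, hD => by
    classical
    obtain ⟨P, hP, hPD, hf⟩ := hD
    refine ⟨P.submatrix e e, fun i j g hg => hP _ _ g hg, ?_, fun κ hκ => ?_⟩
    · have h1 : (P - 1) * D = 0 := by rw [Matrix.sub_mul, Matrix.one_mul, hPD, sub_self]
      ext1 a k
      have h2 := (h (Matrix.of fun _ j => (P - 1) (e a) j)).1 (by
        ext1 u k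
        exact congrFun (congrFun h1 (e a)) k)
      have h3 := congrFun (congrFun h2 ()) k
      have h4 : ∑ j, (P - 1) (e a) (e j) * D' j k = 0 := h3
      have h5 : (P.submatrix e e * D') a k - D' a k = 0 := by
        rw [← h4]
        simp only [Matrix.sub_apply, sub_mul, Finset.sum_sub_distrib, Matrix.mul_apply,
          Matrix.submatrix_apply, Matrix.one_apply, EmbeddingLike.apply_eq_iff_eq, ite_mul, one_mul,
          zero_mul, Finset.sum_ite_eq, Finset.mem_univ, if_true]
      exact sub_eq_zero.1 h5
    · have h1 : (κ.submatrix id e.symm) * D = 0 := by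
        rw [h]
        convert hκ using 2
        ext u j
        simp
      have h2 := hf _ h1
      ext1 u j
      have h3 : ∑ i, κ u (e.symm i) * P i (e j) = 0 := congrFun (congrFun h2 u) (e j)
      show ∑ i, κ u i * P (e i) (e j) = 0
      rw [← h3]
      exact Fintype.sum_equiv e _ _ fun i => by rw [e.symm_apply_apply]
  | n + 1, J, J', K, K', _, _, _, _, e, D, D', h, hD => by
    classical
    obtain ⟨c, ζ, hζ, hg, hn⟩ := hD
    refine ⟨c, ζ.submatrix id e, fun i j g hg => hζ _ _ g hg, ⟨?_, fun x hx => ?_⟩,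
      pdle_congr F n (Equiv.refl _) ζ _ ?_ hn⟩
    · ext1 a k
      have h2 := (h (Matrix.of fun _ j => ζ a j)).1 (by
        ext1 u k
        exact congrFun (congrFun hg.1 a) k)
      exact congrFun (congrFun h2 ()) k
    · obtain ⟨κ, hκ⟩ := hg.2 (x.submatrix id e.symm) (by
        rw [h]
        convert hx using 2
        ext u j
        simp)
      refine ⟨κ, ?_⟩
      ext1 u j
      have h3 := congrFun (congrFun hκ u) (e j)
      rw [Matrix.submatrix_apply, e.symm_apply_apply] at h3
      exact h3
    · intro κ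
      constructor
      · intro h0
        ext1 u j
        exact congrFun (congrFun h0 u) (e j)
      · intro h0
        ext1 u j
        have h3 := congrFun (congrFun h0 u) (e.symm j)
        have h4 : (κ * ζ) u (e (e.symm j)) = 0 := h3
        rw [e.apply_symm_apply] at h4
        exact h4

/-- longer resolutions -/
theorem pdle_succ (F : Subgroup G) : ∀ (n : ℕ) {J K : Type} [Fintype J] [Fintype K]
    (D : Matrix J K (MonoidAlgebra A G)), PDle F n D → PDle F (n + 1) D
  | 0, J, K, _, _, D, hD => by
    classical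
    obtain ⟨P, hP, hPD, hf⟩ := hD
    -- the rows of `1 - P` generate the relations
    have hon : OnF F (1 - P) := by
      intro i j g hg
      rw [Matrix.sub_apply] at hg
      rcases OnAux.supp_sub hg with h | h
      · by_cases hij : i = j
        · subst hij
          rw [Matrix.one_apply_eq] at h
          rw [OnAux.supp_one h]
          exact F.one_mem
        · rw [Matrix.one_apply_ne hij] at h
          exact absurd rfl h
      · exact hP i j g h
    have hPD0 : (1 - P) * D = 0 := by rw [Matrix.sub_mul, Matrix.one_mul, hPD, sub_self]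
    have hPP : (1 - P) * P = 0 := by
      ext1 a k
      have h1 : (Matrix.of fun (_ : Unit) j => (1 - P) a j) * D = 0 := by
        ext1 u k
        exact congrFun (congrFun hPD0 a) k
      exact congrFun (congrFun (hf _ h1) ()) k
    let eq : J ≃ Fin (Fintype.card J) := Fintype.equivFin J
    refine ⟨Fintype.card J, (1 - P).submatrix eq.symm id, fun i j g hg => hon _ _ g hg,
      ⟨?_, fun x hx => ⟨x.submatrix id eq.symm, ?_⟩⟩, (1 - P).submatrix eq.symm eq.symm,
      fun i j g hg => hon _ _ g hg, ?_, fun κ hκ => ?_⟩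
    · ext1 a k
      exact congrFun (congrFun hPD0 (eq.symm a)) k
    · have h1 := hf x hx
      have h2 : x = x * (1 - P) := by rw [Matrix.mul_sub, Matrix.mul_one, h1, sub_zero]
      ext1 u j
      rw [Matrix.mul_apply]
      have h3 := congrFun (congrFun h2 u) j
      rw [Matrix.mul_apply] at h3
      rw [h3]
      exact (Equiv.sum_comp eq.symm (fun i => x u i * (1 - P) i j)).symm
    · ext1 a k
      rw [Matrix.mul_apply]
      have h3 : ((1 - P) * (1 - P)) (eq.symm a) k = (1 - P) (eq.symm a) k := by
        rw [Matrix.mul_sub, Matrix.mul_one, hPP, sub_zero]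
      rw [Matrix.mul_apply] at h3
      rw [Matrix.submatrix_apply, id_eq, ← h3]
      exact Equiv.sum_comp eq.symm (fun i => (1 - P) (eq.symm a) i * (1 - P) i k)
    · ext1 u j
      exact congrFun (congrFun hκ u) (eq.symm j)
  | n + 1, J, K, _, _, D, hD => by
    obtain ⟨c, ζ, hζ, hg, hn⟩ := hD
    exact ⟨c, ζ, hζ, hg, pdle_succ F n ζ hn⟩

theorem pdle_mono (F : Subgroup G) {n m : ℕ} (h : n ≤ m) {J K : Type} [Fintype J] [Fintype K]
    (D : Matrix J K (MonoidAlgebra A G)) (hD : PDle F n D) : PDle F m D := by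
  induction m, h using Nat.le_induction with
  | base => exact hD
  | succ m _ ih => exact pdle_succ F m D ih

/-- the rows with label `l` -/
abbrev blk {I J : Type} (r : I → Λ) (ζ : Matrix I J (MonoidAlgebra A G)) (l : Λ) :
    Matrix {i // r i = l} J (MonoidAlgebra A G) := ζ.submatrix Subtype.val id

theorem on0_ne {E : BSys Λ G} {I J : Type} {r : I → Λ} {s : J → Λ}
    {ζ : Matrix I J (MonoidAlgebra A G)} (hζ : On0 E r s ζ) {i : I} {k : J} (h : r i ≠ s k) :
    ζ i k = 0 := by
  by_contra hne
  apply hne
  apply MonoidAlgebra.coeff_injective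
  ext g
  by_contra hg
  exact h (hζ i k g hg).2

open Classical in
/-- a relation restricted to one label is a relation -/
theorem rel_blk {E : BSys Λ G} {I J : Type} [Fintype I] [Fintype J] {r : I → Λ} {s : J → Λ}
    {ζ : Matrix I J (MonoidAlgebra A G)} (hζ : On0 E r s ζ)
    {κ : Matrix Unit I (MonoidAlgebra A G)} (h : κ * ζ = 0) (l : Λ) :
    κ.submatrix id (Subtype.val : {i // r i = l} → I) * blk r ζ l = 0 := by
  ext1 u k
  show ∑ i : {i // r i = l}, κ u i.1 * ζ i.1 k = 0
  have h0 : ∑ i, κ u i * ζ i k = 0 := congrFun (congrFun h u) k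
  rw [← sum_sub (fun i => r i = l) (fun i => κ u i.1 * ζ i.1 k)]
  by_cases hk : s k = l
  · refine (Finset.sum_congr rfl fun i _ => ?_).trans h0
    split_ifs with hi
    · rfl
    · rw [on0_ne hζ (fun h => hi (h.trans hk)), mul_zero]
  · refine Finset.sum_eq_zero fun i _ => ?_
    split_ifs with hi
    · rw [on0_ne hζ (fun h => hk (h.symm.trans hi)), mul_zero]
    · rfl

/-- the label of a class of rows -/
def lab {I : Type} (r : I → Λ) : Quotient (Setoid.ker r) → Λ := Quotient.lift r fun _ _ h => h

theorem lab_inj {I : Type} {r : I → Λ} {x y : Quotient (Setoid.ker r)} (h : lab r x = lab r y) :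
    x = y := by
  induction x using Quotient.inductionOn with
  | h i =>
    induction y using Quotient.inductionOn with
    | h j => exact Quotient.sound h

open Classical in
theorem lko_of : ∀ (n : ℕ) (E : BSys Λ G) {I J : Type} [Fintype I] [Fintype J] (r : I → Λ)
    (s : J → Λ) (ζ : Matrix I J (MonoidAlgebra A G)), On0 E r s ζ →
    (∀ l, PDle (E.F l) n (blk r ζ l)) → LKo E n r ζ
  | 0, E, I, J, _, _, r, s, ζ, hζ, h => by
    classical
    choose P hP hPζ hf using h
    refine ⟨fun i j => if h : r j = r i then P (r i) ⟨i, rfl⟩ ⟨j, h⟩ else 0, ?_, ?_, ?_⟩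
    · intro i j g hg
      dsimp only at hg
      split_ifs at hg with h0
      · exact ⟨hP _ _ _ g hg, h0.symm⟩
      · exact absurd rfl hg
    · ext1 i k
      have h1 : ∑ j : {j // r j = r i}, P (r i) ⟨i, rfl⟩ j * ζ j.1 k = ζ i k :=
        congrFun (congrFun (hPζ (r i)) ⟨i, rfl⟩) k
      show ∑ j, (if h : r j = r i then P (r i) ⟨i, rfl⟩ ⟨j, h⟩ else 0) * ζ j k = ζ i k
      rw [← h1, ← sum_sub (fun j => r j = r i)
        (fun j => P (r i) ⟨i, rfl⟩ j * ζ j.1 k)]
      refine Finset.sum_congr rfl fun j _ => ?_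
      split_ifs <;> simp
    · intro κ hκ
      ext1 u j
      have h1 := hf (r j) _ (rel_blk hζ hκ (r j))
      have h2 : ∑ i : {i // r i = r j}, κ u i.1 * P (r j) i ⟨j, rfl⟩ = 0 :=
        congrFun (congrFun h1 u) ⟨j, rfl⟩
      show ∑ i, κ u i * (if h : r j = r i then P (r i) ⟨i, rfl⟩ ⟨j, h⟩ else 0) = 0
      rw [← sum_sub (fun i => r i = r j) (fun i => κ u i.1 * P (r j) i ⟨j, rfl⟩)] at h2
      refine (Finset.sum_congr rfl fun i _ => ?_).trans h2
      by_cases hi : r i = r j
      · rw [dif_pos hi, dif_pos hi.symm]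
        congr 1
        have aux : ∀ (l m : Λ) (hl : r i = l) (hm : r i = m) (hl' : r j = l) (hm' : r j = m),
            P l ⟨i, hl⟩ ⟨j, hl'⟩ = P m ⟨i, hm⟩ ⟨j, hm'⟩ := by
          intro l m hl hm hl' hm'
          subst hl
          subst hm
          rfl
        exact aux _ _ _ _ _ _
      · rw [dif_neg hi, dif_neg (fun h => hi h.symm), mul_zero]
  | n + 1, E, I, J, _, _, r, s, ζ, hζ, h => by
    classical
    choose c z hz hg hn using h
    let T := Σ x : Quotient (Setoid.ker r), Fin (c (lab r x))
    let eq : T ≃ Fin (Fintype.card T) := Fintype.equivFin T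
    let Z : Matrix T I (MonoidAlgebra A G) := fun a i =>
      if h : r i = lab r a.1 then z (lab r a.1) a.2 ⟨i, h⟩ else 0
    have hZon : On0 E (fun a : T => lab r a.1) r Z := by
      intro a i g hg'
      dsimp only [Z] at hg'
      split_ifs at hg' with h0
      · exact ⟨hz _ _ _ g hg', h0.symm⟩
      · exact absurd rfl hg'
    have hZ0 : Z * ζ = 0 := by
      ext1 a k
      have h1 : ∑ i : {i // r i = lab r a.1}, z (lab r a.1) a.2 i * ζ i.1 k = 0 :=
        congrFun (congrFun (hg (lab r a.1)).1 a.2) k
      show ∑ i, (if h : r i = lab r a.1 then z (lab r a.1) a.2 ⟨i, h⟩ else 0) * ζ i k = 0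
      rw [← sum_sub (fun i => r i = lab r a.1) (fun i => z (lab r a.1) a.2 i * ζ i.1 k)] at h1
      refine (Finset.sum_congr rfl fun j _ => ?_).trans h1
      split_ifs <;> simp
    have hZgen : ∀ x : Matrix Unit I (MonoidAlgebra A G), x * ζ = 0 →
        ∃ κ : Matrix Unit T (MonoidAlgebra A G), x = κ * Z := by
      intro x hx
      choose κ hκ using fun l => (hg l).2 _ (rel_blk hζ hx l)
      refine ⟨fun u a => κ (lab r a.1) u a.2, ?_⟩
      ext1 u i
      show x u i = ∑ a : T, κ (lab r a.1) u a.2 *
        (if h : r i = lab r a.1 then z (lab r a.1) a.2 ⟨i, h⟩ else 0)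
      rw [Fintype.sum_sigma, Finset.sum_eq_single (Quotient.mk (Setoid.ker r) i)]
      · have h1 : x u i = ∑ t, κ (r i) u t * z (r i) t ⟨i, rfl⟩ :=
          congrFun (congrFun (hκ (r i)) u) ⟨i, rfl⟩
        rw [h1]
        refine Finset.sum_congr rfl fun t _ => ?_
        have h2 : r i = lab r (Quotient.mk (Setoid.ker r) i) := rfl
        rw [dif_pos h2]
        rfl
      · intro y _ hy
        refine Finset.sum_eq_zero fun t _ => ?_
        rw [dif_neg (fun h0 => hy (lab_inj (r := r) (h0.symm.trans rfl))), mul_zero]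
      · intro h0
        exact absurd (Finset.mem_univ _) h0
    refine ⟨Fintype.card T, fun a => lab r (eq.symm a).1, Z.submatrix eq.symm id,
      fun a i g hg' => hZon (eq.symm a) i g hg', ⟨?_, fun x hx => ?_⟩, ?_⟩
    · ext1 a k
      exact congrFun (congrFun hZ0 (eq.symm a)) k
    · obtain ⟨κ, hκ⟩ := hZgen x hx
      refine ⟨κ.submatrix id eq.symm, ?_⟩
      rw [hκ]
      ext1 u j
      rw [Matrix.mul_apply, Matrix.mul_apply]
      exact (Equiv.sum_comp eq.symm (fun i => κ u i * Z i j)).symm
    · refine lko_of n E (fun a => lab r (eq.symm a).1) r _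
        (fun a i g hg' => hZon (eq.symm a) i g hg') fun l => ?_
      by_cases hl : ∃ x, lab r x = l
      · obtain ⟨x, rfl⟩ := hl
        -- the rows with this label
        have hc : ∀ (b : T) (h : lab r b.1 = lab r x),
            (⟨x, Fin.cast (congrArg c h) b.2⟩ : T) = b := by
          rintro ⟨y, t⟩ h
          obtain rfl := lab_inj (r := r) h
          rfl
        have hk : ∀ (b : T) (h : lab r b.1 = lab r x) (i : I) (hi : r i = lab r x),
            Z b i = z (lab r x) (Fin.cast (congrArg c h) b.2) ⟨i, hi⟩ := by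
          rintro ⟨y, t⟩ h i hi
          obtain rfl := lab_inj (r := r) h
          exact dif_pos hi
        let e : {a // lab r (eq.symm a).1 = lab r x} ≃ Fin (c (lab r x)) :=
          { toFun := fun a => Fin.cast (congrArg c a.2) (eq.symm a.1).2
            invFun := fun t => ⟨eq ⟨x, t⟩, by rw [eq.symm_apply_apply]⟩
            left_inv := fun a => Subtype.ext (by
              show eq ⟨x, Fin.cast (congrArg c a.2) (eq.symm a.1).2⟩ = a.1
              rw [hc (eq.symm a.1) a.2, eq.apply_symm_apply])
            right_inv := fun t => Fin.ext (by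
              show ((eq.symm (eq ⟨x, t⟩)).2 : ℕ) = t
              rw [eq.symm_apply_apply]) }
        refine pdle_congr _ n e (z (lab r x)) _ (fun κ => ?_) (hn (lab r x))
        have key : ∀ (u : Unit) (i : I) (hi : r i = lab r x),
            ∑ a : {a // lab r (eq.symm a).1 = lab r x}, κ u (e a) * Z (eq.symm a.1) i =
            ∑ t, κ u t * z (lab r x) t ⟨i, hi⟩ := fun u i hi =>
          Fintype.sum_equiv e _ _ fun a => by rw [hk (eq.symm a.1) a.2 i hi]; rfl
        constructor
        · intro h0
          ext1 u i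
          show ∑ a : {a // lab r (eq.symm a).1 = lab r x}, κ u (e a) * Z (eq.symm a.1) i = 0
          by_cases hi : r i = lab r x
          · rw [key u i hi]
            exact congrFun (congrFun h0 u) ⟨i, hi⟩
          · refine Finset.sum_eq_zero fun a _ => ?_
            have h1 : Z (eq.symm a.1) i = 0 := dif_neg fun h => hi (h.trans a.2)
            rw [h1, mul_zero]
        · intro h0
          ext1 u i
          show ∑ t, κ u t * z (lab r x) t i = 0
          have h1 : ∑ a : {a // lab r (eq.symm a).1 = lab r x},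
            κ u (e a) * Z (eq.symm a.1) i.1 = 0 := congrFun (congrFun h0 u) i.1
          rw [key u i.1 i.2] at h1
          exact h1
      · have : IsEmpty {a // lab r (eq.symm a).1 = l} := ⟨fun a => hl ⟨_, a.2⟩⟩
        exact pdle_empty _ n _

/-- **Row R4.** -/
theorem exists_lko (E : BSys Λ G) (hF : ∀ l, RC A (E.F l)) {I J : Type} [Fintype I] [Fintype J]
    (r : I → Λ) (s : J → Λ) (ζ : Matrix I J (MonoidAlgebra A G)) (hζ : On0 E r s ζ) :
    ∃ n, LKo E n r ζ := by
  classical
  have h1 : ∀ l, ∃ n, PDle (E.F l) n (blk r ζ l) := fun l =>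
    pd_up (fun H h1 h2 => (hF l H h1 h2).2) (fun i j g hg => by
      have := (hζ i.1 j g hg).1
      rw [i.2] at this
      exact this)
  choose n hn using h1
  refine ⟨∑ i, n (r i), lko_of _ E r s ζ hζ fun l => ?_⟩
  by_cases hl : ∃ i, r i = l
  · obtain ⟨i, rfl⟩ := hl
    exact pdle_mono _ (Finset.single_le_sum (f := fun i => n (r i)) (fun _ _ => Nat.zero_le _)
      (Finset.mem_univ i)) _ (hn (r i))
  · have : IsEmpty {i // r i = l} := ⟨fun a => hl ⟨_, a.2⟩⟩
    exact pdle_empty _ _ _

end

end Pool.Agent.KN
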