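import Mathlib
import Pool.Agent.Lib.KN.LemR
import Pool.Agent.Lib.KN.Cont
import Pool.Agent.Lib.KN.PDo
import Pool.Agent.Lib.UP.TrL

/-! Row R5: nilpotent matrices over a geodesic system with regular coherent object groups. -/

set_option autoImplicit false

open MonoidAlgebra
open Pool.Agent.Lib.MP_98022b_UN Pool.Agent.Lib.MP_98022b_UM Pool.Agent.UP

namespace Pool.Agent.KN

universe u v w

section place

variable {R : Type u} [Ring R] {n : ℕ} {J : Fin n → Type} [∀ i, Fintype (J i)] {L K : Type}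

/-- the matrix `x` placed in the block `i` -/
def pl (i : Fin n) (x : Matrix L (J i) R) : Matrix L (Σ i, J i) R :=
  fun l a => if h : a.1 = i then x l (h ▸ a.2) else 0

/-- the rows of all matrices `Φ i` -/
def stk (Φ : ∀ i, Matrix (J i) K R) : Matrix (Σ i, J i) K R := fun a k => Φ a.1 a.2 k

theorem pl_mul_stk (i : Fin n) (x : Matrix L (J i) R) (Φ : ∀ i, Matrix (J i) K R) :
    pl i x * stk Φ = x * Φ i := by
  ext l k
  rw [Matrix.mul_apply, Fintype.sum_sigma, Finset.sum_eq_single i]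
  · rw [Matrix.mul_apply]
    refine Finset.sum_congr rfl fun b _ => ?_
    simp [pl, stk]
  · intro i' _ hi'
    refine Finset.sum_eq_zero fun b _ => ?_
    simp [pl, hi']
  · intro h
    exact absurd (Finset.mem_univ _) h

omit [∀ i, Fintype (J i)] in
theorem pl_ne {i : Fin n} {x : Matrix L (J i) R} {l : L} {a : Σ i, J i} (h : pl i x l a ≠ 0) :
    a.1 = i := by
  by_contra h'
  exact h (dif_neg h')

omit [∀ i, Fintype (J i)] in
theorem pl_self {i : Fin n} {x : Matrix L (J i) R} {l : L} {b : J i} :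
    pl i x l ⟨i, b⟩ = x l b := by
  simp [pl]

omit [∀ i, Fintype (J i)] in
/-- a matrix with columns in the block `i` -/
theorem eq_pl {i : Fin n} {x : Matrix L (Σ i, J i) R} (h : ∀ l a, x l a ≠ 0 → a.1 = i) :
    x = pl i (fun l b => x l ⟨i, b⟩) := by
  ext l ⟨i', b⟩
  by_cases h1 : i' = i
  · subst h1
    exact (pl_self (x := fun l b => x l ⟨i', b⟩)).symm
  · rw [pl, dif_neg h1]
    by_contra h2
    exact h1 (h l ⟨i', b⟩ h2)

end place

section

variable {A : Type u} {Λ : Type w} {G : Type v} [CommRing A] [Group G] {E : LSys Λ G}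

theorem On0_mulSL {I J K : Type} [Fintype J] {r : I → Λ} {s : J → Λ} {t : K → Λ}
    {P : Matrix I J (MonoidAlgebra A G)} {M : Matrix J K (MonoidAlgebra A G)}
    (hP : On0 (fSys E.F) r s P) (hM : OnSL E s t M) : OnSL E r t (P * M) := by
  intro i k g h
  rw [Matrix.mul_apply] at h
  obtain ⟨j, -, hj⟩ := OnAux.supp_sum h
  obtain ⟨a, b, ha, hb, rfl⟩ := OnAux.supp_mul hj
  obtain ⟨h1, h2⟩ := hP i j a ha
  have h3 := hM j k b hb
  rw [← h2] at h3
  exact E.left' h1 h3

theorem exists_coeff_ne {x : MonoidAlgebra A G} (h : x ≠ 0) : ∃ g, x.coeff g ≠ 0 := by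
  by_contra h'
  push Not at h'
  exact h (MonoidAlgebra.coeff_injective (Finsupp.ext h'))

/-- a level of the filtration -/
structure Cn (E : LSys Λ G) {K : Type} [Fintype K] (t : K → Λ)
    (M : Matrix K K (MonoidAlgebra A G)) where
  J : Type
  [fin : Fintype J]
  [dec : DecidableEq J]
  r : J → Λ
  Φ : Matrix J K (MonoidAlgebra A G)
  on : On0 (fSys E.F) r t Φ
  D : Matrix J J (MonoidAlgebra A G)
  hD : Φ * M = D * Φ

attribute [instance] Cn.fin Cn.dec

/-- the next level of the filtration -/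
structure Nx {K : Type} [Fintype K] [DecidableEq K] {t : K → Λ}
    {M : Matrix K K (MonoidAlgebra A G)} (c : Cn E t M) where
  c' : Cn E t M
  Ξ : Matrix c.J c'.J (MonoidAlgebra A G)
  κ : Matrix c'.J c.J (MonoidAlgebra A G)
  h1 : c.Φ * M = Ξ * c'.Φ
  h2 : c'.Φ = κ * c.Φ
  h3 : ∀ m : ℕ, c.Φ * M * M ^ m = 0 → c'.Φ * M ^ m = 0

theorem exists_nx (hG : E.Geo) {K : Type} [Fintype K] [DecidableEq K] {t : K → Λ}
    {M : Matrix K K (MonoidAlgebra A G)} (hM : OnSL E t t M) (c : Cn E t M) : Nonempty (Nx c) := by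
  obtain ⟨n, r', Φ', Ξ, h1, h2, h3, h4⟩ := exists_cont E hG c.r t (c.Φ * M) (On0_mulSL c.on hM)
  obtain ⟨κ, hκ⟩ := h4 c.J c.r c.Φ c.D c.on c.hD
  refine ⟨⟨⟨Fin n, r', Φ', h1, κ * Ξ, ?_⟩, Ξ, κ, h2, hκ, fun m hm => h3 M hM m hm⟩⟩
  rw [hκ, Matrix.mul_assoc, h2, ← Matrix.mul_assoc, hκ]

theorem lkg_of_lko {Λ : Type w} {E : BSys Λ G} {q : Λ → ℕ} : ∀ (n : ℕ) {I J : Type} [Fintype I]
    [Fintype J] {r : I → Λ} {ζ : Matrix I J (MonoidAlgebra A G)}, LKo E n r ζ →
    LKg n (fun i => q (r i)) ζ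
  | 0, I, J, _, _, r, ζ, h => by
    obtain ⟨P, h1, h2, h3⟩ := h
    refine ⟨P, fun a c hac => ?_, h2, h3⟩
    obtain ⟨g, hg⟩ := exists_coeff_ne hac
    exact congrArg q (h1 a c g hg).2
  | n + 1, I, J, _, _, r, ζ, h => by
    obtain ⟨c, r', ζ', h1, h2, h3⟩ := h
    refine ⟨c, fun i => q (r' i), ζ', fun a i hai => ?_, h2, lkg_of_lko n h3⟩
    obtain ⟨g, hg⟩ := exists_coeff_ne hai
    exact congrArg q (h1 a i g hg).2

theorem main_seq (φ : NullFam (MonoidAlgebra A G)) (F : Λ → Subgroup G) (hF : ∀ l, RC A (F l))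
    {K : Type} [Fintype K] [DecidableEq K] (t : K → Λ) (M : Matrix K K (MonoidAlgebra A G))
    {J : ℕ → Type} [∀ i, Fintype (J i)] [∀ i, DecidableEq (J i)] (r : ∀ i, J i → Λ)
    (Φ : ∀ i, Matrix (J i) K (MonoidAlgebra A G)) (on : ∀ i, On0 (fSys F) (r i) t (Φ i))
    (Ξ : ∀ i, Matrix (J i) (J (i + 1)) (MonoidAlgebra A G)) (hΞ : ∀ i, Φ i * M = Ξ i * Φ (i + 1))
    (κ : ∀ i, Matrix (J (i + 1)) (J i) (MonoidAlgebra A G)) (hκ : ∀ i, Φ (i + 1) = κ i * Φ i)
    (s : Matrix K (J 0) (MonoidAlgebra A G)) (hs : s * Φ 0 = 1) {N : ℕ} (hN : Φ N = 0) :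
    φ.Z M := by
  classical
  rcases Nat.eq_zero_or_pos N with rfl | hNpos
  · have h1 : (1 : Matrix K K (MonoidAlgebra A G)) = 0 := by rw [← hs, hN, Matrix.mul_zero]
    have : M = 0 := by rw [← Matrix.mul_one M, h1, Matrix.mul_zero]
    rw [this]
    exact Z_zero
  have hN' : ∀ i, i = N → Φ i = 0 := by
    rintro i rfl
    exact hN
  -- inclusions
  have hincl : ∀ d i, ∃ z : Matrix (J (i + d)) (J i) (MonoidAlgebra A G), Φ (i + d) = z * Φ i := by
    intro d
    induction d with
    | zero => exact fun i => ⟨1, by rw [Matrix.one_mul]; rfl⟩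
    | succ d ih =>
      intro i
      obtain ⟨z, hz⟩ := ih i
      exact ⟨κ (i + d) * z, by rw [Matrix.mul_assoc, ← hz]; exact hκ (i + d)⟩
  have hrow : ∀ (j i : ℕ) (b : J i), j ≤ i → ∃ z : J j → MonoidAlgebra A G,
      ∀ k, Φ i b k = ∑ b', z b' * Φ j b' k := by
    intro j i b hij
    obtain ⟨d, rfl⟩ := Nat.exists_eq_add_of_le hij
    obtain ⟨z, hz⟩ := hincl d j
    exact ⟨z b, fun k => by rw [hz, Matrix.mul_apply]⟩
  let S : Matrix (Σ i : Fin N, J i) K (MonoidAlgebra A G) := stk (fun i : Fin N => Φ i)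
  have hlow : ∀ (j : ℕ) (y : Matrix Unit (Σ i : Fin N, J i) (MonoidAlgebra A G)),
      (∀ c, y () c ≠ 0 → j < c.1.1) → ∃ y' : Matrix Unit (J (j + 1)) (MonoidAlgebra A G),
        y * S = y' * Φ (j + 1) := by
    intro j y hy
    have h1 : ∀ c : (Σ i : Fin N, J i), ∃ z : J (j + 1) → MonoidAlgebra A G,
        y () c ≠ 0 → ∀ k, S c k = ∑ b', z b' * Φ (j + 1) b' k := by
      intro c
      by_cases hc : y () c = 0
      · exact ⟨0, fun h => absurd hc h⟩
      · obtain ⟨z, hz⟩ := hrow (j + 1) c.1.1 c.2 (hy c hc)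
        exact ⟨z, fun _ => hz⟩
    choose z hz using h1
    refine ⟨fun _ b => ∑ c, y () c * z c b, Matrix.ext fun u k => ?_⟩
    rw [Matrix.mul_apply, Matrix.mul_apply]
    simp only [Finset.sum_mul]
    rw [Finset.sum_comm]
    refine Finset.sum_congr rfl fun c _ => ?_
    by_cases hc : y () c = 0
    · rw [show y u c = 0 from hc, zero_mul]
      have h2 : ∀ b ∈ (Finset.univ : Finset (J (j + 1))), 0 * z c b * Φ (j + 1) b k = 0 := by
        intro b _
        rw [zero_mul, zero_mul]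
      exact (Finset.sum_eq_zero h2).symm
    · rw [hz c hc k, Finset.mul_sum]
      exact Finset.sum_congr rfl fun b _ => (mul_assoc _ _ _).symm
  -- the filtered module
  let b : Matrix (Σ i : Fin N, J i) (Σ i : Fin N, J i) (MonoidAlgebra A G) := fun a c =>
    if h : a.1.1 + 1 < N then
      pl (J := fun i : Fin N => J i) ⟨a.1.1 + 1, h⟩ (Ξ a.1.1) a.2 c else 0
  have hb : S * M = b * S := by
    refine Matrix.ext fun a k => ?_
    have h1 : (S * M) a k = (Ξ a.1.1 * Φ (a.1.1 + 1)) a.2 k := by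
      rw [← hΞ]
      rfl
    rw [h1]
    by_cases h : a.1.1 + 1 < N
    · have h2 : (b * S) a k = (pl (J := fun i : Fin N => J i) ⟨a.1.1 + 1, h⟩ (Ξ a.1.1) * S) a.2 k := by
        rw [Matrix.mul_apply, Matrix.mul_apply]
        refine Finset.sum_congr rfl fun c _ => ?_
        rw [show b a c = _ from dif_pos h]
      rw [h2, pl_mul_stk]
    · have h2 : (b * S) a k = 0 := by
        rw [Matrix.mul_apply]
        refine Finset.sum_eq_zero fun c _ => ?_
        rw [show b a c = _ from dif_neg h, zero_mul]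
      have h3 : a.1.1 + 1 = N := by have := a.1.2; omega
      rw [h2, hN' _ h3, Matrix.mul_zero, Matrix.zero_apply]
  let D : FilD (MonoidAlgebra A G) K (Σ i : Fin N, J i) :=
    { e := 1
      θ := M
      p := fun a => a.1.1
      Φ := S
      s := pl (J := fun i : Fin N => J i) ⟨0, hNpos⟩ s
      b := b
      Φe := Matrix.mul_one _
      sΦ := by rw [pl_mul_stk, hs]
      eθ := Matrix.one_mul _
      θe := Matrix.mul_one _
      Φθ := hb
      hb := by
        intro a c hac
        by_cases h : a.1.1 + 1 < N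
        · rw [show b a c = _ from dif_pos h] at hac
          have := pl_ne hac
          rw [this]
          exact Nat.lt_succ_self _
        · exact absurd (dif_neg h) hac }
  -- the relations
  have hcoh : Coh A (fSys F) := coh_of_cohT fun ω H h1 h2 => (hF ω H h1 h2).1
  have hker : ∀ i : ℕ, ∃ (n : ℕ) (ρ : Fin n → Λ)
      (ξ : Matrix (Fin n) (J i ⊕ J (i + 1)) (MonoidAlgebra A G)),
      On0 (fSys F) ρ (Sum.elim (r i) (r (i + 1))) ξ ∧
        GenL ξ (Matrix.fromRows (Φ i) (Φ (i + 1))) := fun i =>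
    hcoh _ _ _ _ _ (On0.fromRows (on i) (on (i + 1)))
  choose n ρ ξ hξ hgen using hker
  let I := Σ i : Fin N, Fin (n i)
  let ζ : Matrix I (Σ i : Fin N, J i) (MonoidAlgebra A G) := fun a c =>
    pl (J := fun i : Fin N => J i) a.1 (ξ a.1).toCols₁ a.2 c
  let B : Matrix I (Σ i : Fin N, J i) (MonoidAlgebra A G) := fun a c =>
    if h : a.1.1 + 1 < N then
      pl (J := fun i : Fin N => J i) ⟨a.1.1 + 1, h⟩ (-(ξ a.1).toCols₂) a.2 c else 0
  have hξ0 : ∀ i, (ξ i).toCols₁ * Φ i + (ξ i).toCols₂ * Φ (i + 1) = 0 := by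
    intro i
    have h1 := (hgen i).1
    rw [← Matrix.fromCols_toCols (ξ i), Matrix.fromCols_mul_fromRows] at h1
    exact h1
  have hrel : D.Rel (fun a : I => a.1.1) ζ B := by
    refine ⟨?_, ?_, ?_, ?_⟩
    · intro a c hac
      have : c.1 = a.1 := pl_ne hac
      show a.1.1 = c.1.1
      rw [this]
    · intro a c hac
      by_cases h : a.1.1 + 1 < N
      · rw [show B a c = _ from dif_pos h] at hac
        have := pl_ne hac
        show a.1.1 < c.1.1
        rw [this]
        exact Nat.lt_succ_self _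
      · exact absurd (dif_neg h) hac
    · refine Matrix.ext fun a k => ?_
      have h1 : (ζ * S) a k = ((ξ a.1).toCols₁ * Φ a.1) a.2 k := by
        have : (ζ * S) a k = (pl (J := fun i : Fin N => J i) a.1 (ξ a.1).toCols₁ * S) a.2 k := rfl
        rw [this, pl_mul_stk]
      have h2 : (B * S) a k = -(((ξ a.1).toCols₂ * Φ (a.1.1 + 1)) a.2 k) := by
        by_cases h : a.1.1 + 1 < N
        · have : (B * S) a k = (pl (J := fun i : Fin N => J i) ⟨a.1.1 + 1, h⟩
              (-(ξ a.1).toCols₂) * S) a.2 k := by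
            rw [Matrix.mul_apply, Matrix.mul_apply]
            refine Finset.sum_congr rfl fun c _ => ?_
            rw [show B a c = _ from dif_pos h]
          rw [this, pl_mul_stk, Matrix.neg_mul, Matrix.neg_apply]
        · have h2 : (B * S) a k = 0 := by
            rw [Matrix.mul_apply]
            refine Finset.sum_eq_zero fun c _ => ?_
            rw [show B a c = _ from dif_neg h, zero_mul]
          have h3 : a.1.1 + 1 = N := by have := a.1.2; omega
          rw [h2, hN' _ h3, Matrix.mul_zero, Matrix.zero_apply, neg_zero]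
      show (ζ * S) a k = (B * S) a k
      rw [h1, h2, eq_neg_iff_add_eq_zero, ← Matrix.add_apply, hξ0, Matrix.zero_apply]
    · intro j x y hx hy hxy
      by_cases hj : j < N
      · obtain ⟨y', hy'⟩ := hlow j y hy
        have hx1 : x = pl (J := fun i : Fin N => J i) ⟨j, hj⟩ (fun l b => x l ⟨⟨j, hj⟩, b⟩) :=
          eq_pl fun l a hla => Fin.ext (hx a hla)
        set x' : Matrix Unit (J j) (MonoidAlgebra A G) := fun l b => x l ⟨⟨j, hj⟩, b⟩ with hx'
        have h1 : x' * Φ j = y' * Φ (j + 1) := by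
          rw [← hy', ← show x * S = y * S from hxy, hx1]
          exact (pl_mul_stk (J := fun i : Fin N => J i) ⟨j, hj⟩ x' (fun i : Fin N => Φ i)).symm
        obtain ⟨z, hz⟩ := (hgen j).2 (Matrix.fromCols x' (-y')) (by
          rw [Matrix.fromCols_mul_fromRows, h1, Matrix.neg_mul, add_neg_cancel])
        refine ⟨pl (J := fun i : Fin N => Fin (n i)) ⟨j, hj⟩ z, ?_⟩
        have h2 : x' = z * (ξ j).toCols₁ := by
          have := congrArg Matrix.toCols₁ hz
          rw [Matrix.toCols₁_fromCols] at this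
          rw [this]
          rfl
        have h3 : ζ = stk (fun i : Fin N => pl (J := fun i : Fin N => J i) i (ξ i).toCols₁) := rfl
        rw [h3, pl_mul_stk, hx1, h2]
        refine Matrix.ext fun l a => ?_
        rw [Matrix.mul_apply]
        by_cases ha : a.1 = ⟨j, hj⟩
        · obtain ⟨i, a⟩ := a
          subst ha
          rw [pl_self, Matrix.mul_apply]
          exact Finset.sum_congr rfl fun b _ => by rw [pl_self]
        · rw [pl, dif_neg ha]
          refine (Finset.sum_eq_zero fun b _ => ?_).symm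
          rw [pl, dif_neg ha, mul_zero]
      · refine ⟨0, ?_⟩
        rw [Matrix.zero_mul]
        refine Matrix.ext fun u c => ?_
        by_contra h
        have := hx c h
        have h2 := c.1.2
        exact hj (this ▸ h2)
  -- the resolution
  have hon : On0 (fSys (fun l : Λ × ℕ => F l.1)) (fun a : I => (ρ a.1.1 a.2, a.1.1))
      (fun c : (Σ i : Fin N, J i) => (r c.1.1 c.2, c.1.1)) ζ := by
    intro a c g hg
    have h1 : ζ a c ≠ 0 := by
      intro h
      rw [h] at hg
      exact hg rfl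
    have h2 : c.1 = a.1 := pl_ne h1
    obtain ⟨i, c⟩ := c
    obtain ⟨i', a⟩ := a
    dsimp only at h2
    subst h2
    rw [show ζ ⟨i, a⟩ ⟨i, c⟩ = (ξ i).toCols₁ a c from pl_self] at hg
    obtain ⟨h3, h4⟩ := hξ i.1 a (Sum.inl c) g hg
    exact ⟨h3, Prod.ext h4 rfl⟩
  obtain ⟨d, hd⟩ := exists_lko (fSys (fun l : Λ × ℕ => F l.1)) (fun l => hF l.1) _ _ ζ hon
  exact lemR φ d D (fun a : I => a.1.1) ζ B hrel (lkg_of_lko (q := fun l : Λ × ℕ => l.2) d hd)

theorem main_L (φ : NullFam (MonoidAlgebra A G)) (E : LSys Λ G) (hG : E.Geo)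
    (hF : ∀ l, RC A (E.F l)) {K : Type} [Fintype K] [DecidableEq K] (t : K → Λ)
    (M : Matrix K K (MonoidAlgebra A G)) (hM : OnSL E t t M) {N : ℕ} (hN : M ^ N = 0) :
    φ.Z M := by
  classical
  let nx : ∀ c : Cn E t M, Nx c := fun c => Classical.choice (exists_nx hG hM c)
  let c0 : Cn E t M := ⟨K, t, 1, On0.one, M, by rw [Matrix.one_mul, Matrix.mul_one]⟩
  let c : ℕ → Cn E t M := fun n => Nat.rec c0 (fun _ c => (nx c).c') n
  have h0 : ∀ m, m ≤ N → (c m).Φ * M ^ (N - m) = 0 := by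
    intro m
    induction m with
    | zero =>
      intro _
      rw [Nat.sub_zero, hN, Matrix.mul_zero]
    | succ m ih =>
      intro hm
      have h1 := ih (by omega)
      refine (nx (c m)).h3 _ ?_
      rw [Matrix.mul_assoc, ← pow_succ', show N - (m + 1) + 1 = N - m by omega]
      exact h1
  have h1 : (c N).Φ = 0 := by
    have := h0 N le_rfl
    rwa [Nat.sub_self, pow_zero, Matrix.mul_one] at this
  exact @main_seq A Λ G _ _ φ E.F hF K _ _ t M (fun i => (c i).J) (fun i => (c i).fin)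
    (fun i => (c i).dec) (fun i => (c i).r) (fun i => (c i).Φ)
    (fun i => (c i).on) (fun i => (nx (c i)).Ξ) (fun i => (nx (c i)).h1) (fun i => (nx (c i)).κ)
    (fun i => (nx (c i)).h2) 1 (Matrix.one_mul _) N h1

end

end Pool.Agent.KN
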