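import Mathlib
import Pool.Agent.Lib.KN.Defs
import Pool.Agent.Lib.KN.Null
import Pool.Agent.Lib.MP_98022b_UM.TreeSeg
import Pool.Agent.Lib.MP_98022b_UM.LDR

/-!
# Waldhausen's nil classes: the iterated reduction and the line

A pair of matrices with nilpotent product which is not in the family is reduced again and again;
König's lemma gives a line all of whose segments have stabilisers which do not satisfy `P`.
-/

set_option autoImplicit false
set_option linter.unusedSectionVars false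

open MonoidAlgebra CategoryTheory
open Pool.Agent.Lib.MP_98022b_UN Pool.Agent.Lib.MP_98022b_UM Pool.Agent.UP

namespace Pool.Agent.KN

universe u v w w'

/-- König's lemma for sequences of maps of nonempty finite sets -/
theorem konig_maps {U : ℕ → Type v} [∀ n, Finite (U n)] [∀ n, Nonempty (U n)]
    (f : ∀ n, U (n + 1) → U n) : ∃ x : ∀ n, U n, ∀ n, f n (x (n + 1)) = x n := by
  let F : ℕᵒᵖ ⥤ Type v := Functor.ofOpSequence (X := U) (fun n => TypeCat.ofHom (f n))
  have : ∀ j : ℕᵒᵖ, Finite (F.obj j) := fun j => inferInstanceAs (Finite (U j.unop))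
  have : ∀ j : ℕᵒᵖ, Nonempty (F.obj j) := fun j => inferInstanceAs (Nonempty (U j.unop))
  obtain ⟨s, hs⟩ := nonempty_sections_of_finite_inverse_system F
  refine ⟨fun n => s (Opposite.op n), fun n => ?_⟩
  have h1 := hs (homOfLE (Nat.le_add_right n 1)).op
  have h2 : F.map (homOfLE (Nat.le_add_right n 1)).op = TypeCat.ofHom (f n) :=
    Functor.ofOpSequence_map_homOfLE_succ _ n
  rw [h2] at h1
  exact h1

section
variable {Ω : Type w} {G : Type v} [Group G]

/-- the full subsystem of the objects in `S` -/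
def subS (E : BSys Ω G) (S : Set Ω) : BSys {ω // ω ∈ S} G where
  F := fun ω => E.F ω.1
  S := fun b ω ω' => E.S b ω.1 ω'.1
  left' := E.left'
  inv' := E.inv'

variable {E : BSys Ω G} {S : Set Ω}

theorem subS_hom : (subS E S).Hom E Subtype.val := ⟨fun h => h, fun h => h⟩

theorem subS_geo (hE : E.Geo) : (subS E S).Geo := by
  intro m b ω ω' ρ ρ' s s' t t' hs ht hs' ht' e
  obtain ⟨h1, h2⟩ := hE m b ω.1 ω'.1 ρ.1 ρ'.1 s s' t t' hs (subS_hom.W ht) hs' (subS_hom.W ht') e
  exact ⟨Subtype.ext h1, h2⟩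

theorem subS_seg {E₀ : EdgeSys G} {L a b : ℕ} {l r : Ω → G} {σ τ : Ω → Bool}
    (h : Seg E₀ E L a b l r σ τ) :
    Seg E₀ (subS E S) L a b (fun ω => l ω.1) (fun ω => r ω.1) (fun ω => σ ω.1)
      (fun ω => τ ω.1) :=
  ⟨fun h' => h.Fl h', fun h' => h.Fr h', fun ω => h.path ω.1, fun h' => h.tr h',
    fun h' => h.fa h'⟩

/-- the one-sided system of a two-sided system: objects with the side of the next letter -/
def sideSys (E : BSys Ω G) : LSys (Ω × Bool) G where
  F := fun x => E.F x.1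
  S := fun x y => {g | y.2 = !x.2 ∧ g ∈ E.S x.2 x.1 y.1}
  left' := fun hf hg => ⟨hg.1, E.left' hf hg.2⟩
  right' := fun hg hf => ⟨hg.1, E.right' hg.2 hf⟩

theorem sideSys_W (E : BSys Ω G) (n : ℕ) : ∀ {x y : Ω × Bool} {g : G},
    g ∈ (sideSys E).W n x y → g ∈ E.W n x.2 x.1 y.1 := by
  induction n with
  | zero =>
    rintro x y g ⟨h1, h2⟩
    exact ⟨h1, by rw [h2]⟩
  | succ n ih =>
    rintro x y g ⟨z, s, ⟨hs1, hs2⟩, t, ht, rfl⟩
    have h1 := ih ht
    rw [hs1] at h1
    exact ⟨z.1, s, hs2, t, h1, rfl⟩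

theorem sideSys_geo (hE : E.Geo) : (sideSys E).Geo := by
  rintro n x y z z' s s' t t' ⟨hs1, hs2⟩ ht ⟨hs1', hs2'⟩ ht' e
  have h1 := sideSys_W E n ht
  have h2 := sideSys_W E n ht'
  rw [hs1] at h1
  rw [hs1'] at h2
  obtain ⟨h3, h4⟩ := hE n x.2 x.1 y.1 z.1 z'.1 s s' t t' hs2 h1 hs2' h2 e
  exact ⟨Prod.ext h3 (hs1.trans hs1'.symm), h4⟩

end

section
variable {A : Type u} {G : Type v} [CommRing A] [Group G]

theorem single_supp {g h : G} {c : A} (hc : (single g c : MonoidAlgebra A G).coeff h ≠ 0) :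
    g = h := by
  classical
  rw [MonoidAlgebra.coeff_single, Finsupp.single_apply] at hc
  by_contra h2
  rw [if_neg h2] at hc
  exact hc rfl

/-- a pair of matrices whose product is nilpotent but not in the family, over a system of segments
with finitely many objects -/
structure KStage (E₀ : EdgeSys G) (φ : NullFam (MonoidAlgebra A G)) where
  Ω : Type v
  fin : Finite Ω
  E : BSys Ω G
  L : ℕ
  l : Ω → G
  r : Ω → G
  σ : Ω → Bool
  τ : Ω → Bool
  geo : E.Geo
  seg : Seg E₀ E L 1 0 l r σ τ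
  I : Type
  J : Type
  [fI : Fintype I]
  [dI : DecidableEq I]
  [fJ : Fintype J]
  [dJ : DecidableEq J]
  s : I → Ω
  t : J → Ω
  X : Matrix I J (MonoidAlgebra A G)
  Y : Matrix J I (MonoidAlgebra A G)
  hX : OnS E true s t X
  hY : OnS E false t s Y
  nil : ∃ N : ℕ, (X * Y) ^ N = 0
  not : ¬ φ.Z (X * Y)

attribute [instance] KStage.fI KStage.dI KStage.fJ KStage.dJ

variable {E₀ : EdgeSys G} {φ : NullFam (MonoidAlgebra A G)}

/-- one reduction -/
structure KStep (S : KStage E₀ φ) where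
  Δ : Type v
  R : Reps S.E Δ
  m : ℕ
  δ : Fin m → Δ
  Y : Matrix (Fin m) (Fin m) (MonoidAlgebra A G)
  hY : OnS (redSys R) false (fun i => R.inv (δ i)) δ Y
  nil : ∃ N : ℕ, (Matrix.diagonal (fun i => single (R.d (δ i)) (1 : A)) * Y) ^ N = 0
  not : ¬ φ.Z (Matrix.diagonal (fun i => single (R.d (δ i)) (1 : A)) * Y)

/-- the powers of a product in the other order -/
theorem pow_swap {R : Type u} [Ring R] {I J : Type} [Fintype I] [DecidableEq I] [Fintype J]
    [DecidableEq J] (X : Matrix I J R) (Y : Matrix J I R) (N : ℕ) :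
    (Y * X) ^ (N + 1) = Y * (X * Y) ^ N * X := by
  induction N with
  | zero => rw [pow_one, pow_zero, Matrix.mul_one]
  | succ N ih =>
    rw [pow_succ, ih, pow_succ]
    simp only [Matrix.mul_assoc]

theorem nil_swap {R : Type u} [Ring R] {I J : Type} [Fintype I] [DecidableEq I] [Fintype J]
    [DecidableEq J] {X : Matrix I J R} {Y : Matrix J I R} (h : ∃ N : ℕ, (X * Y) ^ N = 0) :
    ∃ N : ℕ, (Y * X) ^ N = 0 := by
  obtain ⟨N, hN⟩ := h
  exact ⟨N + 1, by rw [pow_swap, hN, Matrix.mul_zero, Matrix.zero_mul]⟩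

theorem exists_kstep (S : KStage E₀ φ) : Nonempty (KStep S) := by
  obtain ⟨Δ, ⟨R⟩⟩ := exists_reps S.E
  obtain ⟨m, δ, L, L', hL, hL', hX⟩ := exists_ldr R S.hX
  have e1 : S.X * S.Y = L * (Matrix.diagonal (fun i => single (R.d (δ i)) (1 : A)) * L' * S.Y) := by
    rw [hX]
    simp only [Matrix.mul_assoc]
  have e2 : Matrix.diagonal (fun i => single (R.d (δ i)) (1 : A)) * L' * S.Y * L =
      Matrix.diagonal (fun i => single (R.d (δ i)) (1 : A)) * (L' * S.Y * L) := by
    simp only [Matrix.mul_assoc]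
  refine ⟨⟨Δ, R, m, δ, L' * S.Y * L, ?_, ?_, ?_⟩⟩
  · have h1 : OnS S.E false (fun i => R.src (R.inv (δ i))) (fun i => R.src (δ i)) (L' * S.Y * L) :=
      (On0.mulS hL' S.hY).mul0 hL
    exact h1
  · rw [← e2]
    refine nil_swap ?_
    rw [← e1]
    exact S.nil
  · intro h
    rw [← e2] at h
    have h1 := Z_swap h
    rw [← e1] at h1
    exact S.not h1

/-- the labels used after a reduction -/
def KStep.used {S : KStage E₀ φ} (st : KStep S) : Set st.Δ :=
  Set.range st.δ ∪ Set.range (fun i => st.R.inv (st.δ i))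

/-- the next stage: the sides are exchanged -/
noncomputable def KStep.next {S : KStage E₀ φ} (st : KStep S) : KStage E₀ φ where
  Ω := {δ // δ ∈ st.used}
  fin := ((Set.finite_range st.δ).union (Set.finite_range _)).to_subtype
  E := (subS (redSys st.R) st.used).flip
  L := S.L + 1
  l := fun ω => st.R.d ω.1 * S.l (st.R.src (st.R.inv ω.1))
  r := fun ω => S.l (st.R.src ω.1)
  σ := fun ω => !(!(S.σ (st.R.src (st.R.inv ω.1))))
  τ := fun ω => !(S.σ (st.R.src ω.1))
  geo := (subS_geo (red_geo st.R S.geo)).flip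
  seg := (subS_seg (S.seg.red st.R)).flip
  I := Fin st.m
  J := Fin st.m
  s := fun i => ⟨st.R.inv (st.δ i), Or.inr ⟨i, rfl⟩⟩
  t := fun i => ⟨st.δ i, Or.inl ⟨i, rfl⟩⟩
  X := st.Y
  Y := Matrix.diagonal (fun i => single (st.R.d (st.δ i)) (1 : A))
  hX := fun i j g hg => st.hY i j g hg
  hY := by
    intro i j g hg
    by_cases h : i = j
    · subst h
      rw [Matrix.diagonal_apply_eq] at hg
      have h1 : st.R.d (st.δ i) = g := single_supp hg
      exact ⟨rfl, 1, (redF st.R _).one_mem, by rw [one_mul, h1]⟩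
    · rw [Matrix.diagonal_apply_ne _ h] at hg
      exact absurd rfl hg
  nil := nil_swap st.nil
  not := fun h => st.not (Z_swap h)

/-- the label below -/
def KStep.down {S : KStage E₀ φ} (st : KStep S) (ω : st.next.Ω) : S.Ω := st.R.src ω.1

theorem KStep.down_F {S : KStage E₀ φ} (st : KStep S) (ω : st.next.Ω) :
    st.next.E.F ω ≤ S.E.F (st.down ω) := fun g hg => ((mem_redF st.R ω.1 g).1 hg).1

/-- some label has a group which does not satisfy `P` -/
theorem KStage.bad (S : KStage E₀ φ) (P : Subgroup G → Prop)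
    (hm : ∀ (Λ : Type v) (E : LSys Λ G), E.Geo → (∀ l, P (E.F l)) → ∀ {K : Type} [Fintype K]
      [DecidableEq K] (t : K → Λ) (M : Matrix K K (MonoidAlgebra A G)), OnSL E t t M →
      ∀ {N : ℕ}, M ^ N = 0 → φ.Z M) : ∃ ω, ¬ P (S.E.F ω) := by
  by_contra hcon
  push Not at hcon
  have hM : OnSL (sideSys S.E) (Sum.elim (fun i => (S.s i, true)) (fun j => (S.t j, false)))
      (Sum.elim (fun i => (S.s i, true)) (fun j => (S.t j, false)))
      (Matrix.fromBlocks 0 (-S.X) S.Y 0) := by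
    rintro (i | i) (j | j) g hg
    · exact absurd rfl hg
    · exact ⟨rfl, S.hX.neg i j g hg⟩
    · exact ⟨rfl, S.hY i j g hg⟩
    · exact absurd rfl hg
  obtain ⟨N, hN⟩ := S.nil
  obtain ⟨N', hN'⟩ := nil_swap S.nil
  have hsq : Matrix.fromBlocks 0 (-S.X) S.Y 0 * Matrix.fromBlocks 0 (-S.X) S.Y 0 =
      Matrix.fromBlocks (-(S.X * S.Y)) 0 0 (-(S.Y * S.X)) := by
    rw [Matrix.fromBlocks_multiply]
    simp
  have hpow : ∀ n : ℕ, (Matrix.fromBlocks (-(S.X * S.Y)) 0 0 (-(S.Y * S.X))) ^ n =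
      Matrix.fromBlocks ((-(S.X * S.Y)) ^ n) 0 0 ((-(S.Y * S.X)) ^ n) := by
    intro n
    induction n with
    | zero => rw [pow_zero, pow_zero, pow_zero, Matrix.fromBlocks_one]
    | succ n ih =>
      rw [pow_succ, ih, Matrix.fromBlocks_multiply, pow_succ, pow_succ]
      simp
  have h0 : (Matrix.fromBlocks 0 (-S.X) S.Y 0) ^ (2 * (N + N')) = 0 := by
    rw [pow_mul, pow_two, hsq, hpow, pow_add (-(S.X * S.Y)), pow_add (-(S.Y * S.X)),
      neg_pow (S.X * S.Y) N, hN, neg_pow (S.Y * S.X) N', hN', mul_zero, zero_mul, mul_zero,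
      mul_zero, Matrix.fromBlocks_zero]
  exact S.not (Z_block (hm _ (sideSys S.E) (sideSys_geo S.geo) (fun l => hcon l.1) _ _ hM h0))

/-- the stages -/
noncomputable def kstg (ch : ∀ S : KStage E₀ φ, KStep S) (S : KStage E₀ φ) (n : ℕ) :
    KStage E₀ φ :=
  Nat.rec S (fun _ S' => (ch S').next) n

theorem kstg_L (ch : ∀ S : KStage E₀ φ, KStep S) (S : KStage E₀ φ) (n : ℕ) :
    (kstg ch S n).L = S.L + n := by
  induction n with
  | zero => rfl
  | succ n ih =>
    show (kstg ch S n).L + 1 = S.L + (n + 1)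
    rw [ih]
    ring

/-- a compatible sequence of labels whose groups do not satisfy `P` -/
theorem exists_bad (ch : ∀ S : KStage E₀ φ, KStep S) (S : KStage E₀ φ) (P : Subgroup G → Prop)
    (hP : ∀ H K, H ≤ K → P K → P H)
    (hm : ∀ (Λ : Type v) (E : LSys Λ G), E.Geo → (∀ l, P (E.F l)) → ∀ {K : Type} [Fintype K]
      [DecidableEq K] (t : K → Λ) (M : Matrix K K (MonoidAlgebra A G)), OnSL E t t M →
      ∀ {N : ℕ}, M ^ N = 0 → φ.Z M) :
    ∃ x : ∀ n, (kstg ch S n).Ω, (∀ n, ¬ P ((kstg ch S n).E.F (x n))) ∧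
      ∀ n, (ch (kstg ch S n)).down (x (n + 1)) = x n := by
  have : ∀ n, Finite {ω : (kstg ch S n).Ω // ¬ P ((kstg ch S n).E.F ω)} := by
    intro n
    have := (kstg ch S n).fin
    infer_instance
  have : ∀ n, Nonempty {ω : (kstg ch S n).Ω // ¬ P ((kstg ch S n).E.F ω)} := by
    intro n
    obtain ⟨ω, hω⟩ := (kstg ch S n).bad P hm
    exact ⟨⟨ω, hω⟩⟩
  obtain ⟨x, hx⟩ := konig_maps (U := fun n => {ω : (kstg ch S n).Ω // ¬ P ((kstg ch S n).E.F ω)})
    (fun n ω => ⟨(ch (kstg ch S n)).down ω.1,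
      fun h => ω.2 (hP _ _ ((ch (kstg ch S n)).down_F ω.1) h)⟩)
  exact ⟨fun n => (x n).1, fun n => (x n).2, fun n => congrArg Subtype.val (hx n)⟩

end

section
variable {A : Type u} {G : Type v} [CommRing A] [Group G] {V : Type w} [MulAction G V]
  {p q : V} {φ : NullFam (MonoidAlgebra A G)}

theorem tree_a_not (p q : V) (b : Bool) : Tree_a p q (!b) = Tree_b p q b := by cases b <;> rfl

theorem tree_b_not (p q : V) (b : Bool) : Tree_b p q (!b) = Tree_a p q b := by cases b <;> rfl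

theorem tree_edge (g : G) (p q : V) (b : Bool) :
    s(g • Tree_b p q b, g • Tree_a p q b) = s(g • p, g • q) := by
  cases b
  · exact Sym2.eq_swap
  · rfl

theorem tree_adj {Γ : SimpleGraph V} {p q : V} (hpq : Γ.Adj p q) (b : Bool) :
    Γ.Adj (Tree_b p q b) (Tree_a p q b) := by
  cases b
  · exact hpq.symm
  · exact hpq

/-- the left end of the segment of a label -/
def KStage.ptA (S : KStage (treeSys p q : EdgeSys G) φ) (ω : S.Ω) : V := S.l ω • Tree_a p q (S.σ ω)

/-- the right end of the segment of a label -/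
def KStage.ptB (S : KStage (treeSys p q : EdgeSys G) φ) (ω : S.Ω) : V := S.r ω • Tree_b p q (S.τ ω)

theorem KStage.pt_dist {Γ : SimpleGraph V} (hΓ : Γ.IsTree)
    (hadj : ∀ (g : G) (x y : V), Γ.Adj x y → Γ.Adj (g • x) (g • y))
    (hpq : Γ.Adj p q) (hinv : ∀ g : G, ¬ (g • p = q ∧ g • q = p))
    (S : KStage (treeSys p q : EdgeSys G) φ) (ω : S.Ω) : Γ.dist (S.ptA ω) (S.ptB ω) = S.L + 1 := by
  have h1 := (Tree_dist hΓ hadj hpq hinv _ _ _ _ (S.seg.path ω)).1
  rw [← Tree_dist_smul hΓ hadj (S.l ω), smul_smul, mul_inv_cancel_left] at h1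
  exact h1

theorem KStage.pt_F (S : KStage (treeSys p q : EdgeSys G) φ) (ω : S.Ω) :
    S.E.F ω ≤ MulAction.stabilizer G (S.ptA ω) ⊓ MulAction.stabilizer G (S.ptB ω) := by
  intro g hg
  have hl : (S.l ω)⁻¹ * g * S.l ω ∈ MulAction.stabilizer G p ⊓ MulAction.stabilizer G q :=
    S.seg.Fl hg
  have hr : (S.r ω)⁻¹ * g * S.r ω ∈ MulAction.stabilizer G p ⊓ MulAction.stabilizer G q :=
    S.seg.Fr hg
  rw [Subgroup.mem_inf, MulAction.mem_stabilizer_iff, MulAction.mem_stabilizer_iff] at hl hr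
  have ha : ∀ s : Bool, ((S.l ω)⁻¹ * g * S.l ω) • Tree_a p q s = Tree_a p q s := by
    intro s
    cases s
    · exact hl.1
    · exact hl.2
  have hb : ∀ s : Bool, ((S.r ω)⁻¹ * g * S.r ω) • Tree_b p q s = Tree_b p q s := by
    intro s
    cases s
    · exact hr.2
    · exact hr.1
  rw [Subgroup.mem_inf, MulAction.mem_stabilizer_iff, MulAction.mem_stabilizer_iff]
  constructor
  · have h1 := congrArg (fun z => S.l ω • z) (ha (S.σ ω))
    simp only [smul_smul] at h1
    rw [show S.l ω * ((S.l ω)⁻¹ * g * S.l ω) = g * S.l ω by group] at h1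
    show g • (S.l ω • Tree_a p q (S.σ ω)) = _
    rw [smul_smul]
    exact h1
  · have h1 := congrArg (fun z => S.r ω • z) (hb (S.τ ω))
    simp only [smul_smul] at h1
    rw [show S.r ω * ((S.r ω)⁻¹ * g * S.r ω) = g * S.r ω by group] at h1
    show g • (S.r ω • Tree_b p q (S.τ ω)) = _
    rw [smul_smul]
    exact h1

/-- the right end of the next segment is the left end of the segment -/
theorem KStep.ptB_next {S : KStage (treeSys p q : EdgeSys G) φ} (st : KStep S) (ω : st.next.Ω) :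
    st.next.ptB ω = S.ptA (st.down ω) := by
  show S.l (st.R.src ω.1) • Tree_b p q (!(S.σ (st.R.src ω.1))) = _
  rw [tree_b_not]
  rfl

/-- the left end of the next segment is adjacent to the right end of the segment -/
theorem KStep.ptA_next (hinv : ∀ g : G, ¬ (g • p = q ∧ g • q = p))
    {S : KStage (treeSys p q : EdgeSys G) φ} (st : KStep S) (ω : st.next.Ω) :
    ∃ (g : G) (b : Bool), S.ptB (st.down ω) = g • Tree_b p q b ∧
      st.next.ptA ω = g • Tree_a p q b := by
  have h1 := S.seg.tr (st.R.d_mem ω.1)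
  obtain ⟨h2, -⟩ := Tree_mem_S hinv ((P_one _).1 h1)
  refine ⟨st.R.d ω.1 * S.l (st.R.src (st.R.inv ω.1)), S.σ (st.R.src (st.R.inv ω.1)), ?_, ?_⟩
  · rw [tree_a_not] at h2
    have h3 := congrArg (fun z => S.r (st.R.src ω.1) • z) h2
    simp only [smul_smul] at h3
    have e : S.r (st.R.src ω.1) * ((S.r (st.R.src ω.1))⁻¹ * st.R.d ω.1 *
        S.l (st.R.src (st.R.inv ω.1))) = st.R.d ω.1 * S.l (st.R.src (st.R.inv ω.1)) := by group
    rw [e] at h3
    rw [h3]
    rfl
  · show (st.R.d ω.1 * S.l (st.R.src (st.R.inv ω.1))) •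
      Tree_a p q (!(!(S.σ (st.R.src (st.R.inv ω.1))))) = _
    rw [Bool.not_not]

/-- the first stage -/
noncomputable def kstage0 {Γ : SimpleGraph V} (hΓ : Γ.IsTree)
    (hadj : ∀ (g : G) (x y : V), Γ.Adj x y → Γ.Adj (g • x) (g • y))
    (hpq : Γ.Adj p q) (hinv : ∀ g : G, ¬ (g • p = q ∧ g • q = p))
    {K : Type} [Fintype K] [DecidableEq K] (M : Matrix K K (MonoidAlgebra A G)) (σ : K → Bool)
    (hM : ∀ i j g, (M i j).coeff g ≠ 0 → g ∈ (treeS p q (σ i) (σ j) : Set G)) {N : ℕ}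
    (hN : M ^ N = 0) (hZ : ¬ φ.Z M) : KStage (treeSys p q : EdgeSys G) φ where
  Ω := ULift.{v} Bool
  fin := inferInstance
  E := biSys (treeSys p q)
  L := 0
  l := fun _ => 1
  r := fun _ => 1
  σ := fun ω => ω.down
  τ := fun ω => ω.down
  geo := biSys_geo (treeSys_geo hΓ hadj hpq hinv)
  seg := seg_bi _
  I := K
  J := K
  s := fun i => ⟨σ i⟩
  t := fun i => ⟨!(σ i)⟩
  X := M
  Y := 1
  hX := by
    intro i j g hg
    show g ∈ treeS p q (σ i) (!(!(σ j)))
    rw [Bool.not_not]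
    exact hM i j g hg
  hY := by
    intro i j g hg
    by_cases h : i = j
    · subst h
      rw [Matrix.one_apply_eq, MonoidAlgebra.one_def] at hg
      have h1 : (1 : G) = g := single_supp hg
      subst h1
      exact ⟨Subgroup.one_mem _, (Bool.not_not _).symm⟩
    · rw [Matrix.one_apply_ne h] at hg
      exact absurd rfl hg
  nil := ⟨N, by rw [Matrix.mul_one, hN]⟩
  not := by rwa [Matrix.mul_one]

/-- a nilpotent matrix supported in the letters of the edge which is not in the family yields a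
line of translates of the edge all of whose central segments have stabilisers which do not
satisfy `P` -/
theorem line_of_not {Γ : SimpleGraph V} (hΓ : Γ.IsTree)
    (hadj : ∀ (g : G) (x y : V), Γ.Adj x y → Γ.Adj (g • x) (g • y))
    (hpq : Γ.Adj p q) (hinv : ∀ g : G, ¬ (g • p = q ∧ g • q = p))
    (P : Subgroup G → Prop) (hP : ∀ H K, H ≤ K → P K → P H)
    (hm : ∀ (Λ : Type v) (E : LSys Λ G), E.Geo → (∀ l, P (E.F l)) → ∀ {K : Type} [Fintype K]
      [DecidableEq K] (t : K → Λ) (M : Matrix K K (MonoidAlgebra A G)), OnSL E t t M →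
      ∀ {N : ℕ}, M ^ N = 0 → φ.Z M)
    {K : Type} [Fintype K] [DecidableEq K] (M : Matrix K K (MonoidAlgebra A G)) (σ : K → Bool)
    (hM : ∀ i j g, (M i j).coeff g ≠ 0 → g ∈ (treeS p q (σ i) (σ j) : Set G)) {N : ℕ}
    (hN : M ^ N = 0) (hZ : ¬ φ.Z M) :
    ∃ u v : ℕ → V, (∀ k, ∃ g : G, s(u k, u (k + 1)) = s(g • p, g • q)) ∧
      (∀ k, ∃ g : G, s(v k, v (k + 1)) = s(g • p, g • q)) ∧
      (∃ g : G, s(u 0, v 0) = s(g • p, g • q)) ∧
      (∀ k, Γ.Adj (u k) (u (k + 1))) ∧ (∀ k, Γ.Adj (v k) (v (k + 1))) ∧ Γ.Adj (u 0) (v 0) ∧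
      (∀ k, Γ.dist (u k) (v k) = 2 * k + 1) ∧
      ∀ k, ¬ P (MulAction.stabilizer G (u k) ⊓ MulAction.stabilizer G (v k)) := by
  let ch : ∀ S : KStage (treeSys p q : EdgeSys G) φ, KStep S :=
    fun S => Classical.choice (exists_kstep S)
  let S0 : KStage (treeSys p q : EdgeSys G) φ := kstage0 hΓ hadj hpq hinv M σ hM hN hZ
  obtain ⟨x, hx1, hx2⟩ := exists_bad ch S0 P hP hm
  -- the sequence of the ends
  let a : ℕ → V := fun n => (kstg ch S0 n).ptB (x n)
  have ha1 : ∀ n, a (n + 1) = (kstg ch S0 n).ptA (x n) := by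
    intro n
    show (ch (kstg ch S0 n)).next.ptB (x (n + 1)) = _
    rw [KStep.ptB_next, hx2]
  have hedge : ∀ n, ∃ (g : G) (b : Bool), a n = g • Tree_b p q b ∧ a (n + 2) = g • Tree_a p q b := by
    intro n
    obtain ⟨g, b, h1, h2⟩ := (ch (kstg ch S0 n)).ptA_next hinv (x (n + 1))
    refine ⟨g, b, ?_, ?_⟩
    · rw [← h1, hx2]
    · rw [← h2]
      exact ha1 (n + 1)
  have h01 : ∃ b : Bool, a 0 = Tree_b p q b ∧ a 1 = Tree_a p q b := by
    refine ⟨(x 0).down, ?_, ?_⟩
    · show (1 : G) • Tree_b p q (x 0).down = _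
      rw [one_smul]
    · rw [ha1 0]
      show (1 : G) • Tree_a p q (x 0).down = _
      rw [one_smul]
  have hdist : ∀ n, Γ.dist (a n) (a (n + 1)) = n + 1 := by
    intro n
    rw [ha1 n, SimpleGraph.dist_comm, KStage.pt_dist hΓ hadj hpq hinv, kstg_L]
    show 0 + n + 1 = n + 1
    omega
  have hstab : ∀ n, ¬ P (MulAction.stabilizer G (a n) ⊓ MulAction.stabilizer G (a (n + 1))) := by
    intro n h
    refine hx1 n (hP _ _ ?_ h)
    rw [ha1 n, inf_comm]
    exact (kstg ch S0 n).pt_F (x n)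
  have hadj' : ∀ (g : G) (c : Bool), Γ.Adj (g • Tree_b p q c) (g • Tree_a p q c) :=
    fun g c => hadj g _ _ (tree_adj hpq c)
  have e2 : ∀ k : ℕ, 2 * (k + 1) = 2 * k + 2 := fun k => by ring
  have e3 : ∀ k : ℕ, 2 * (k + 1) + 1 = 2 * k + 1 + 2 := fun k => by ring
  refine ⟨fun k => a (2 * k), fun k => a (2 * k + 1), ?_, ?_, ?_, ?_, ?_, ?_, ?_, ?_⟩
  · intro k
    obtain ⟨g, c, h1, h2⟩ := hedge (2 * k)
    refine ⟨g, ?_⟩
    show s(a (2 * k), a (2 * (k + 1))) = _
    rw [e2, h1, h2, tree_edge]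
  · intro k
    obtain ⟨g, c, h1, h2⟩ := hedge (2 * k + 1)
    refine ⟨g, ?_⟩
    show s(a (2 * k + 1), a (2 * (k + 1) + 1)) = _
    rw [e3, h1, h2, tree_edge]
  · obtain ⟨b, h1, h2⟩ := h01
    refine ⟨1, ?_⟩
    show s(a 0, a 1) = _
    rw [h1, h2, ← tree_edge 1 p q b, one_smul, one_smul]
  · intro k
    obtain ⟨g, c, h1, h2⟩ := hedge (2 * k)
    show Γ.Adj (a (2 * k)) (a (2 * (k + 1)))
    rw [e2, h1, h2]
    exact hadj' g c
  · intro k
    obtain ⟨g, c, h1, h2⟩ := hedge (2 * k + 1)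
    show Γ.Adj (a (2 * k + 1)) (a (2 * (k + 1) + 1))
    rw [e3, h1, h2]
    exact hadj' g c
  · obtain ⟨b, h1, h2⟩ := h01
    show Γ.Adj (a 0) (a 1)
    rw [h1, h2]
    exact tree_adj hpq b
  · intro k
    exact hdist (2 * k)
  · intro k
    exact hstab (2 * k)

end

end Pool.Agent.KN
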