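import Mathlib
import Pool.Agent.Lib.KN.Main
import Pool.Agent.Lib.KN.Stage
import Pool.Agent.Lib.KN.Elem
import Pool.Agent.Lib.KN.Line

/-! Row R7: nilpotent matrices of an edge of a tree. -/

set_option autoImplicit false

open MonoidAlgebra
open Pool.Agent.Lib.MP_98022b_UN Pool.Agent.Lib.MP_98022b_UM Pool.Agent.UP

namespace Pool.Agent.KN

universe u v w

/-- `l` is a geodesic line which consists of translates of the edge `{p, q}` -/
structure EdgeLine (G : Type v) [Group G] {V : Type w} [MulAction G V] (Γ : SimpleGraph V)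
    (p q : V) (l : ℤ → V) : Prop where
  dist : ∀ i j : ℤ, Γ.dist (l i) (l j) = (i - j).natAbs
  edge : ∀ i : ℤ, ∃ g : G, s(l i, l (i + 1)) = s(g • p, g • q)

theorem RC.mono {A : Type u} [CommRing A] {G : Type v} [Group G] {H K : Subgroup G} (h : H ≤ K)
    (hK : RC A K) : RC A H := fun L h1 h2 => hK L h1 (h2.trans h)

/-- **nilpotent matrices of an edge are stably elementary if every line has a segment whose
stabiliser has a locally regular coherent group ring** -/
theorem nil_stel {A : Type u} [CommRing A] {G : Type v} [Group G] {V : Type w} [MulAction G V]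
    {Γ : SimpleGraph V} (hΓ : Γ.IsTree)
    (hadj : ∀ (g : G) (x y : V), Γ.Adj x y → Γ.Adj (g • x) (g • y)) {p q : V}
    (hpq : Γ.Adj p q) (hinv : ∀ g : G, ¬ (g • p = q ∧ g • q = p))
    (hl : ∀ l : ℤ → V, EdgeLine G Γ p q l → ∃ i j : ℤ,
      RC A (MulAction.stabilizer G (l i) ⊓ MulAction.stabilizer G (l j)))
    {K : Type} [Fintype K] [DecidableEq K] (M : Matrix K K (MonoidAlgebra A G)) (σ : K → Bool)
    (hM : ∀ i j g, (M i j).coeff g ≠ 0 → g ∈ treeS p q (σ i) (σ j)) {N : ℕ} (hN : M ^ N = 0) :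
    StEl (1 + M) := by
  obtain ⟨φ, hφ⟩ := exists_el (MonoidAlgebra A G)
  refine hφ M ?_
  by_contra hZ
  obtain ⟨u, v, eu, ev, e0, hu, hv, h0, hd, hn⟩ := line_of_not hΓ hadj hpq hinv (RC A)
    (fun H K h hK => RC.mono h hK)
    (fun Λ E hG hF K _ _ t M hM N hN => main_L φ E hG hF t M hM hN) M σ hM hN hZ
  obtain ⟨l, h1, h2, h3⟩ := exists_line hΓ hadj hu hv h0 eu ev e0 hd (RC A)
    (fun H K h hK => RC.mono h hK) hn
  obtain ⟨i, j, h4⟩ := hl l ⟨h1, h2⟩
  exact h3 i j h4

end Pool.Agent.KN
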