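import Mathlib
import Pool.Agent.Lib.MP_98022b_UN.Defs

/-!
# Separation of the letters

For a subgroup `N` of `G` the letters of an edge system with group `N` are separated by a new
element `x` which commutes with `N`: the system over the amalgam of `G` and `N × ℤ` is geodesic.
-/

set_option autoImplicit false

open Pool.Agent.Lib.MP_98022b_UN Monoid Monoid.PushoutI Monoid.CoprodI

namespace Pool.Agent.KN

universe v

section
variable {G : Type v} [Group G] (N : Subgroup G)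

/-- the factors -/
def Fac : Bool → Type v
  | false => G
  | true => N × Multiplicative ℤ

instance : ∀ i, Group (Fac N i)
  | false => inferInstanceAs (Group G)
  | true => inferInstanceAs (Group (N × Multiplicative ℤ))

/-- the inclusions of `N` -/
def facHom : ∀ i, N →* Fac N i
  | false => N.subtype
  | true => MonoidHom.inl N (Multiplicative ℤ)

theorem facHom_inj : ∀ i, Function.Injective (facHom N i)
  | false => Subtype.val_injective
  | true => fun _ _ h => congrArg Prod.fst h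

/-- the amalgam of `G` and `N × ℤ` along `N` -/
abbrev Sep : Type v := PushoutI (facHom N)

/-- the inclusion of `G` -/
def emb : G →* Sep N := PushoutI.of (φ := facHom N) false

/-- the powers of the separating element -/
def sx (k : ℤ) : Sep N := PushoutI.of (φ := facHom N) true ((1, Multiplicative.ofAdd k) : N × Multiplicative ℤ)

/-- the retraction -/
def proj : Sep N →* G := PushoutI.lift (fun i => match i with
    | false => MonoidHom.id G
    | true => N.subtype.comp (MonoidHom.fst N (Multiplicative ℤ))) N.subtype (by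
  rintro (_ | _)
  · rfl
  · rfl)

theorem proj_emb (g : G) : proj N (emb N g) = g :=
  PushoutI.lift_of (φ := facHom N) (i := false) _ _ _ g

theorem proj_sx (k : ℤ) : proj N (sx N k) = 1 :=
  PushoutI.lift_of (φ := facHom N) (i := true) _ _ _
    ((1, Multiplicative.ofAdd k) : N × Multiplicative ℤ)

theorem emb_inj : Function.Injective (emb N) := fun a b h => by
  rw [← proj_emb N a, h, proj_emb]

theorem sx_zero : sx N 0 = 1 := map_one _

theorem sx_mul (k l : ℤ) : sx N k * sx N l = sx N (k + l) := by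
  unfold sx
  rw [← map_mul]
  congr 1
  exact Prod.ext (one_mul _) rfl

theorem sx_inv (k : ℤ) : (sx N k)⁻¹ = sx N (-k) := by
  rw [inv_eq_iff_mul_eq_one, sx_mul, add_neg_cancel, sx_zero]

theorem emb_base (n : N) : emb N n.1 = base (facHom N) n := of_apply_eq_base (facHom N) false n

theorem emb_of (n : N) (k : ℤ) : emb N n.1 * sx N k =
    PushoutI.of (φ := facHom N) true ((n, Multiplicative.ofAdd k) : N × Multiplicative ℤ) := by
  rw [emb_base, ← of_apply_eq_base (facHom N) true n, sx, ← map_mul]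
  congr 1
  exact Prod.ext (mul_one n) (one_mul _)

theorem sx_emb (n : N) (k : ℤ) : sx N k * emb N n.1 = emb N n.1 * sx N k := by
  rw [emb_of, emb_base, ← of_apply_eq_base (facHom N) true n, sx, ← map_mul]
  congr 1
  exact Prod.ext (one_mul n) (mul_one _)

/-- products of reduced words -/
def Rd (i j : Bool) : Set (Sep N) :=
  {u | ∃ w : NeWord (Fac N) i j, (∀ g ∈ w.toList, g.2 ∉ (facHom N g.1).range) ∧
    ofCoprodI (φ := facHom N) w.prod = u}

variable {N}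

theorem Rd_mul {i j k l : Bool} (hjk : j ≠ k) {u v : Sep N} (hu : u ∈ Rd N i j)
    (hv : v ∈ Rd N k l) : u * v ∈ Rd N i l := by
  obtain ⟨w, hw, rfl⟩ := hu
  obtain ⟨w', hw', rfl⟩ := hv
  refine ⟨NeWord.append w hjk w', ?_, ?_⟩
  · intro g hg
    rcases List.mem_append.1 (show g ∈ w.toList ++ w'.toList from hg) with h | h
    · exact hw g h
    · exact hw' g h
  · rw [NeWord.append_prod, map_mul]

theorem Rd_single {i : Bool} {g : Fac N i} (hg : g ∉ (facHom N i).range) :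
    PushoutI.of (φ := facHom N) i g ∈ Rd N i i := by
  refine ⟨NeWord.singleton g ?_, ?_, ?_⟩
  · rintro rfl
    exact hg (one_mem _)
  · intro g' hg'
    rw [List.mem_singleton.1 (show g' ∈ [(⟨i, g⟩ : Σ i, Fac N i)] from hg')]
    exact hg
  · rw [NeWord.prod_singleton, ofCoprodI_of]

theorem Rd_inv {i j : Bool} {u : Sep N} (hu : u ∈ Rd N i j) : u⁻¹ ∈ Rd N j i := by
  obtain ⟨w, hw, rfl⟩ := hu
  induction w with
  | singleton x hx =>
    rw [NeWord.prod_singleton, ofCoprodI_of, ← map_inv]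
    refine Rd_single fun h => ?_
    refine hw ⟨_, x⟩ (List.mem_singleton.2 rfl) ?_
    rw [← inv_inv x]
    exact inv_mem h
  | append w₁ hne w₂ ih₁ ih₂ =>
    rw [NeWord.append_prod, map_mul, mul_inv_rev]
    exact Rd_mul hne.symm (ih₂ fun g hg => hw g (List.mem_append.2 (Or.inr hg)))
      (ih₁ fun g hg => hw g (List.mem_append.2 (Or.inl hg)))

theorem Rd_ne_one {i j : Bool} {u : Sep N} (hu : u ∈ Rd N i j) : u ≠ 1 := by
  obtain ⟨w, hw, rfl⟩ := hu
  intro h
  have h1 : Reduced (facHom N) w.toWord := hw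
  have h2 := h1.eq_empty_of_mem_range (facHom_inj N) (by
    rw [show ofCoprodI (φ := facHom N) w.toWord.prod = 1 from h]
    exact one_mem _)
  have h3 := congrArg Word.toList h2
  exact w.toList_ne_nil h3

theorem Rd_emb {g : G} (hg : g ∉ N) : emb N g ∈ Rd N false false :=
  Rd_single (i := false) (g := g) fun ⟨n, hn⟩ => hg (by
    have : n.1 = g := hn
    rw [← this]
    exact n.2)

theorem Rd_sx (n : N) {k : ℤ} (hk : k ≠ 0) : emb N n.1 * sx N k ∈ Rd N true true := by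
  rw [emb_of]
  refine Rd_single (i := true) fun ⟨m, hm⟩ => hk ?_
  have : Multiplicative.ofAdd (0 : ℤ) = Multiplicative.ofAdd k := congrArg Prod.snd hm
  exact (Multiplicative.ofAdd.injective this).symm

theorem Rd_sx' {k : ℤ} (hk : k ≠ 0) : sx N k ∈ Rd N true true := by
  have h := Rd_sx (N := N) 1 hk
  rwa [show ((1 : N) : G) = 1 from rfl, map_one, one_mul] at h

variable (N)

/-- `1` for `false` and `x` for `true` -/
def sa : Bool → Sep N
  | false => 1
  | true => sx N 1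

/-- the exponent between two letters -/
def se : Bool → ℤ
  | false => 1
  | true => -1

theorem se_ne (b : Bool) : se b ≠ 0 := by cases b <;> decide

theorem sa_sep (b : Bool) : sa N (!b) * (sa N b)⁻¹ = sx N (se b) := by
  cases b
  · show sx N 1 * 1⁻¹ = sx N 1
    rw [inv_one, mul_one]
  · show 1 * (sx N 1)⁻¹ = sx N (-1)
    rw [one_mul, sx_inv]

theorem sa_sep' (b : Bool) : sa N b * (sa N (!b))⁻¹ = sx N (-se b) := by
  rw [← sx_inv, ← sa_sep, mul_inv_rev, inv_inv]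

theorem sa_comm (b : Bool) (n : N) : sa N b * emb N n.1 = emb N n.1 * sa N b := by
  cases b
  · show 1 * _ = _ * 1
    rw [one_mul, mul_one]
  · exact sx_emb N n 1

theorem sa_comm' (b : Bool) (n : N) : (sa N b)⁻¹ * emb N n.1 = emb N n.1 * (sa N b)⁻¹ := by
  rw [inv_mul_eq_iff_eq_mul, ← mul_assoc, sa_comm, mul_assoc, mul_inv_cancel, mul_one]

theorem proj_sa (b : Bool) : proj N (sa N b) = 1 := by
  cases b
  · exact map_one _
  · exact proj_sx N 1

end

section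
variable {G : Type v} [Group G]

/-- the edge system with separated letters -/
def sepSys (E : EdgeSys G) : EdgeSys (Sep E.F) where
  F := E.F.map (emb E.F)
  S := fun σ τ => {g | ∃ s ∈ E.S σ τ, g = (sa E.F σ)⁻¹ * emb E.F s * sa E.F (!τ)}
  left' := by
    rintro σ ρ f g ⟨n, hn, rfl⟩ ⟨s, hs, rfl⟩
    refine ⟨n * s, E.left' hn hs, ?_⟩
    have h := sa_comm' E.F σ ⟨n, hn⟩
    rw [← mul_assoc, ← mul_assoc, ← show (sa E.F σ)⁻¹ * emb E.F n = emb E.F n * (sa E.F σ)⁻¹ from h,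
      map_mul, mul_assoc (sa E.F σ)⁻¹]
  right' := by
    rintro σ ρ f g ⟨s, hs, rfl⟩ ⟨n, hn, rfl⟩
    refine ⟨s * n, E.right' hs hn, ?_⟩
    have h := sa_comm E.F (!ρ) ⟨n, hn⟩
    rw [mul_assoc, show sa E.F (!ρ) * emb E.F n = emb E.F n * sa E.F (!ρ) from h,
      map_mul, ← mul_assoc, ← mul_assoc]
  inv' := by
    rintro σ ρ g ⟨s, hs, rfl⟩
    refine ⟨s⁻¹, E.inv' hs, ?_⟩
    rw [Bool.not_not, mul_inv_rev, mul_inv_rev, inv_inv, map_inv, mul_assoc]

variable {E : EdgeSys G}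

theorem sep_P (hE : ∀ σ τ s, s ∈ E.S σ τ → s ∉ E.F) : ∀ (m : ℕ) (ρ τ : Bool) (t : Sep E.F),
    t ∈ (sepSys E).P (m + 1) ρ τ → ∃ j, sa E.F ρ * t ∈ Rd E.F false j := by
  intro m
  induction m with
  | zero =>
    rintro ρ τ t ⟨ρ1, s, ⟨s₁, hs₁, rfl⟩, t', ⟨⟨n, hn, rfl⟩, rfl⟩, rfl⟩
    have h1 : sa E.F ρ * ((sa E.F ρ)⁻¹ * emb E.F s₁ * sa E.F (!ρ1) * emb E.F n) =
        emb E.F (s₁ * n) * sa E.F (!ρ1) := by
      have h := sa_comm E.F (!ρ1) ⟨n, hn⟩
      rw [mul_assoc _ (sa E.F (!ρ1)), show sa E.F (!ρ1) * emb E.F n = emb E.F n * sa E.F (!ρ1)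
        from h, map_mul]
      group
    have h2 : emb E.F (s₁ * n) ∈ Rd E.F false false :=
      Rd_emb (hE ρ ρ1 _ (E.right' hs₁ hn))
    rw [h1]
    cases ρ1
    · exact ⟨true, Rd_mul (by decide) h2 (Rd_sx' one_ne_zero)⟩
    · refine ⟨false, ?_⟩
      rw [show sa E.F (!true) = 1 from rfl, mul_one]
      exact h2
  | succ m ih =>
    rintro ρ τ t ⟨ρ1, s, ⟨s₁, hs₁, rfl⟩, t', ht', rfl⟩
    obtain ⟨j, hj⟩ := ih ρ1 τ t' ht'
    refine ⟨j, ?_⟩
    have h1 : sa E.F ρ * ((sa E.F ρ)⁻¹ * emb E.F s₁ * sa E.F (!ρ1) * t') =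
        emb E.F s₁ * (sa E.F (!ρ1) * (sa E.F ρ1)⁻¹) * (sa E.F ρ1 * t') := by group
    rw [h1, sa_sep]
    exact Rd_mul (by decide) (Rd_mul (by decide) (Rd_emb (hE ρ ρ1 _ hs₁))
      (Rd_sx' (se_ne ρ1))) hj

theorem sep_geo (hE : ∀ σ τ s, s ∈ E.S σ τ → s ∉ E.F) : (sepSys E).Geo := by
  rintro m σ τ ρ ρ' s s' t t' ⟨s₁, hs₁, rfl⟩ ht ⟨s₁', hs₁', rfl⟩ ht' e
  rcases m with _ | m
  · obtain ⟨⟨n, hn, rfl⟩, rfl⟩ := ht
    obtain ⟨⟨n', hn', rfl⟩, h⟩ := ht'
    refine ⟨h.symm, n * n'⁻¹, E.F.mul_mem hn (E.F.inv_mem hn'), ?_⟩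
    rw [map_mul, map_inv, eq_comm, inv_mul_eq_iff_eq_mul, ← mul_assoc, e, mul_assoc _ (emb E.F n'),
      mul_inv_cancel, mul_one]
  · obtain ⟨j, hj⟩ := sep_P hE m ρ τ t ht
    obtain ⟨j', hj'⟩ := sep_P hE m ρ' τ t' ht'
    have h1 : (sa E.F ρ * t)⁻¹ * (sa E.F ρ * (sa E.F (!ρ))⁻¹) * emb E.F (s₁⁻¹ * s₁') *
        (sa E.F (!ρ') * (sa E.F ρ')⁻¹) * (sa E.F ρ' * t') = 1 := by
      have : (sa E.F ρ * t)⁻¹ * (sa E.F ρ * (sa E.F (!ρ))⁻¹) * emb E.F (s₁⁻¹ * s₁') *
          (sa E.F (!ρ') * (sa E.F ρ')⁻¹) * (sa E.F ρ' * t') =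
          ((sa E.F σ)⁻¹ * emb E.F s₁ * sa E.F (!ρ) * t)⁻¹ *
            ((sa E.F σ)⁻¹ * emb E.F s₁' * sa E.F (!ρ') * t') := by
        rw [map_mul, map_inv]
        group
      rw [this, e, inv_mul_cancel]
    rw [sa_sep, sa_sep'] at h1
    by_cases h2 : s₁⁻¹ * s₁' ∈ E.F
    · have h3 : ρ = ρ' := by
        by_contra h3
        have h4 : ρ' = !ρ := by cases ρ <;> cases ρ' <;> simp_all
        subst h4
        have h5 : sx E.F (-se ρ) * emb E.F (s₁⁻¹ * s₁') * sx E.F (se (!ρ)) =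
            emb E.F (s₁⁻¹ * s₁') * sx E.F (-se ρ + se (!ρ)) := by
          rw [show sx E.F (-se ρ) * emb E.F (s₁⁻¹ * s₁') = emb E.F (s₁⁻¹ * s₁') * sx E.F (-se ρ)
            from sx_emb E.F ⟨_, h2⟩ _, mul_assoc, sx_mul]
        have h6 : -se ρ + se (!ρ) ≠ 0 := by cases ρ <;> decide
        have h7 := Rd_mul (by decide) (Rd_mul (by decide) (Rd_inv hj) (Rd_sx (N := E.F)
          ⟨_, h2⟩ h6)) hj'
        refine Rd_ne_one h7 ?_
        rw [← h1]
        show _ = (sa E.F ρ * t)⁻¹ * sx E.F (-se ρ) * emb E.F (s₁⁻¹ * s₁') * sx E.F (se (!ρ)) * _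
        rw [mul_assoc _ (sx E.F (-se ρ)), mul_assoc _ (sx E.F (-se ρ) * emb E.F (s₁⁻¹ * s₁')), h5]
      subst h3
      refine ⟨rfl, s₁⁻¹ * s₁', h2, ?_⟩
      have h4 := sa_comm' E.F (!ρ) ⟨_, h2⟩
      have h5 : ((sa E.F σ)⁻¹ * emb E.F s₁ * sa E.F (!ρ))⁻¹ *
          ((sa E.F σ)⁻¹ * emb E.F s₁' * sa E.F (!ρ)) =
          (sa E.F (!ρ))⁻¹ * emb E.F (s₁⁻¹ * s₁') * sa E.F (!ρ) := by
        rw [map_mul, map_inv]
        group
      rw [h5, show (sa E.F (!ρ))⁻¹ * emb E.F (s₁⁻¹ * s₁') = emb E.F (s₁⁻¹ * s₁') *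
        (sa E.F (!ρ))⁻¹ from h4, mul_assoc, inv_mul_cancel, mul_one]
    · exfalso
      refine Rd_ne_one (Rd_mul (by decide) (Rd_mul (by decide) (Rd_mul (by decide)
        (Rd_mul (by decide) (Rd_inv hj) (Rd_sx' ?_)) (Rd_emb h2)) (Rd_sx' (se_ne ρ'))) hj') h1
      exact neg_ne_zero.2 (se_ne ρ)

end

end Pool.Agent.KN
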