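import Mathlib
import Pool.Agent.Lib.KN.Stage
import Pool.Agent.Lib.KN.Amal

/-!
# The line of a nilpotent matrix with separated letters

Row J3: the iterated reduction for the system of separated letters over `Sep N`; the images of the
ends of the segments under the retraction form a line in the tree, and the groups are contained in
the intersections of the conjugates of `N`.
-/

set_option autoImplicit false
set_option linter.unusedSectionVars false

open MonoidAlgebra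
open Pool.Agent.Lib.MP_98022b_UN Pool.Agent.Lib.MP_98022b_UM Pool.Agent.UP

namespace Pool.Agent.KN

universe u v w

section
variable {G : Type v} [Group G]

/-- the intersection of the first conjugates of a subgroup -/
def cint (N : Subgroup G) (g : ℕ → G) (k : ℕ) : Subgroup G :=
  ⨅ j : Fin (k + 1), N.map (MulAut.conj (g j)).toMonoidHom

theorem mem_cint {N : Subgroup G} {g : ℕ → G} {k : ℕ} {x : G} :
    x ∈ cint N g k ↔ ∀ j ≤ k, (g j)⁻¹ * x * g j ∈ N := by
  unfold cint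
  rw [Subgroup.mem_iInf]
  constructor
  · intro h j hj
    obtain ⟨y, hy, rfl⟩ := h ⟨j, by omega⟩
    have e : (g j)⁻¹ * ((MulAut.conj (g j)).toMonoidHom y) * g j = y := by
      show (g j)⁻¹ * (g j * y * (g j)⁻¹) * g j = y
      group
    rw [e]
    exact hy
  · rintro h ⟨j, hj⟩
    refine ⟨_, h j (by omega), ?_⟩
    show g j * ((g j)⁻¹ * x * g j) * (g j)⁻¹ = x
    group

/-- paths of a smaller system -/
theorem P_mono {E E' : EdgeSys G} (hF : E.F ≤ E'.F) (hS : ∀ σ τ, E.S σ τ ⊆ E'.S σ τ) (m : ℕ) :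
    ∀ {σ τ : Bool} {g : G}, g ∈ E.P m σ τ → g ∈ E'.P m σ τ := by
  induction m with
  | zero =>
    rintro σ τ g ⟨h1, h2⟩
    exact ⟨hF h1, h2⟩
  | succ m ih =>
    rintro σ τ g ⟨ρ, s, hs, t, ht, rfl⟩
    exact ⟨ρ, s, hS σ ρ hs, t, ih ht, rfl⟩

variable {E : EdgeSys G}

/-- the retraction of a path -/
theorem P_proj (m : ℕ) : ∀ {σ τ : Bool} {t : Sep E.F}, t ∈ (sepSys E).P m σ τ →
    proj E.F t ∈ E.P m σ τ := by
  induction m with
  | zero =>
    rintro σ τ t ⟨⟨n, hn, rfl⟩, h⟩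
    rw [proj_emb]
    exact ⟨hn, h⟩
  | succ m ih =>
    rintro σ τ g ⟨ρ, s, ⟨s₁, hs₁, rfl⟩, t, ht, rfl⟩
    refine ⟨ρ, s₁, hs₁, proj E.F t, ih ht, ?_⟩
    rw [map_mul, map_mul, map_mul, map_inv, proj_sa, proj_sa, proj_emb, inv_one, one_mul, mul_one]

end

section
variable {A : Type u} {G : Type v} [CommRing A] [Group G] {V : Type w} [MulAction G V]
  {p q : V} {E : EdgeSys G} {φ : NullFam (MonoidAlgebra A (Sep E.F))}

/-- the letters of the edge of a tree are not in the group of the edge -/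
theorem tree_not_F {Γ : SimpleGraph V} (hpq : Γ.Adj p q)
    (hinv : ∀ g : G, ¬ (g • p = q ∧ g • q = p)) {σ τ : Bool} {s : G}
    (hs : s ∈ (treeSys p q : EdgeSys G).S σ τ) : s ∉ (treeSys p q : EdgeSys G).F := by
  intro h
  obtain ⟨h1, h2⟩ : s • p = p ∧ s • q = q := Subgroup.mem_inf.1 h
  obtain ⟨h3, h4⟩ := Tree_mem_S hinv hs
  have hne : p ≠ q := hpq.ne
  cases σ <;> cases τ
  · exact hne (h1.symm.trans h3)
  · exact h4 h1
  · exact h4 h2
  · exact hne (h3.symm.trans h2)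

/-- the image of the left end of the segment of a label -/
def KStage.pA (p q : V) (S : KStage (sepSys E) φ) (ω : S.Ω) : V :=
  proj E.F (S.l ω) • Tree_a p q (S.σ ω)

/-- the image of the right end of the segment of a label -/
def KStage.pB (p q : V) (S : KStage (sepSys E) φ) (ω : S.Ω) : V :=
  proj E.F (S.r ω) • Tree_b p q (S.τ ω)

theorem KStage.p_dist {Γ : SimpleGraph V} (hΓ : Γ.IsTree)
    (hadj : ∀ (g : G) (x y : V), Γ.Adj x y → Γ.Adj (g • x) (g • y))
    (hpq : Γ.Adj p q) (hinv : ∀ g : G, ¬ (g • p = q ∧ g • q = p))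
    (hF : E.F ≤ (treeSys p q : EdgeSys G).F)
    (hS : ∀ σ τ, E.S σ τ ⊆ (treeSys p q : EdgeSys G).S σ τ)
    (S : KStage (sepSys E) φ) (ω : S.Ω) : Γ.dist (S.pA p q ω) (S.pB p q ω) = S.L + 1 := by
  have h0 := P_mono hF hS _ (P_proj _ (S.seg.path ω))
  have h1 := (Tree_dist hΓ hadj hpq hinv _ _ _ _ h0).1
  rw [← Tree_dist_smul hΓ hadj (proj E.F (S.l ω)), smul_smul, map_mul, map_inv,
    mul_inv_cancel_left] at h1
  exact h1

/-- the right end of the next segment is the left end of the segment -/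
theorem KStep.pB_next {S : KStage (sepSys E) φ} (st : KStep S) (ω : st.next.Ω) :
    st.next.pB p q ω = S.pA p q (st.down ω) := by
  show proj E.F (S.l (st.R.src ω.1)) • Tree_b p q (!(S.σ (st.R.src ω.1))) = _
  rw [tree_b_not]
  rfl

/-- the left end of the next segment is adjacent to the right end of the segment -/
theorem KStep.pA_next (hinv : ∀ g : G, ¬ (g • p = q ∧ g • q = p))
    (hF : E.F ≤ (treeSys p q : EdgeSys G).F)
    (hS : ∀ σ τ, E.S σ τ ⊆ (treeSys p q : EdgeSys G).S σ τ)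
    {S : KStage (sepSys E) φ} (st : KStep S) (ω : st.next.Ω) :
    ∃ b : Bool, S.pB p q (st.down ω) = proj E.F (st.next.l ω) • Tree_b p q b ∧
      st.next.pA p q ω = proj E.F (st.next.l ω) • Tree_a p q b := by
  have h0 := P_mono hF hS _ (P_proj _ (S.seg.tr (st.R.d_mem ω.1)))
  obtain ⟨h2, -⟩ := Tree_mem_S hinv ((P_one _).1 h0)
  refine ⟨S.σ (st.R.src (st.R.inv ω.1)), ?_, ?_⟩
  · rw [tree_a_not] at h2
    have h3 := congrArg (fun z => proj E.F (S.r (st.R.src ω.1)) • z) h2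
    simp only [smul_smul, ← map_mul] at h3
    have e : S.r (st.R.src ω.1) * ((S.r (st.R.src ω.1))⁻¹ * st.R.d ω.1 *
        S.l (st.R.src (st.R.inv ω.1))) = st.R.d ω.1 * S.l (st.R.src (st.R.inv ω.1)) := by group
    rw [e] at h3
    exact h3.symm
  · show proj E.F (st.R.d ω.1 * S.l (st.R.src (st.R.inv ω.1))) •
      Tree_a p q (!(!(S.σ (st.R.src (st.R.inv ω.1))))) = _
    rw [Bool.not_not]
    rfl

/-- the first stage -/
noncomputable def kstageN (hE : ∀ σ τ s, s ∈ E.S σ τ → s ∉ E.F)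
    {K : Type} [Fintype K] [DecidableEq K] (M : Matrix K K (MonoidAlgebra A (Sep E.F)))
    (σ : K → Bool)
    (hM : ∀ i j g, (M i j).coeff g ≠ 0 → g ∈ (sepSys E).S (σ i) (σ j)) {N : ℕ}
    (hN : M ^ N = 0) (hZ : ¬ φ.Z M) : KStage (sepSys E) φ where
  Ω := ULift.{v} Bool
  fin := inferInstance
  E := biSys (sepSys E)
  L := 0
  l := fun _ => 1
  r := fun _ => 1
  σ := fun ω => ω.down
  τ := fun ω => ω.down
  geo := biSys_geo (sep_geo hE)
  seg := seg_bi _
  I := K
  J := K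
  s := fun i => ⟨σ i⟩
  t := fun i => ⟨!(σ i)⟩
  X := M
  Y := 1
  hX := by
    intro i j g hg
    show g ∈ (sepSys E).S (σ i) (!(!(σ j)))
    rw [Bool.not_not]
    exact hM i j g hg
  hY := by
    intro i j g hg
    by_cases h : i = j
    · subst h
      rw [Matrix.one_apply_eq, MonoidAlgebra.one_def] at hg
      have h1 : (1 : Sep E.F) = g := single_supp hg
      subst h1
      exact ⟨Subgroup.one_mem _, (Bool.not_not _).symm⟩
    · rw [Matrix.one_apply_ne h] at hg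
      exact absurd rfl hg
  nil := ⟨N, by rw [Matrix.mul_one, hN]⟩
  not := by rwa [Matrix.mul_one]

/-- **the line of a nilpotent matrix with separated letters** -/
theorem line_sep {Γ : SimpleGraph V} (hΓ : Γ.IsTree)
    (hadj : ∀ (g : G) (x y : V), Γ.Adj x y → Γ.Adj (g • x) (g • y))
    (hpq : Γ.Adj p q) (hinv : ∀ g : G, ¬ (g • p = q ∧ g • q = p))
    (hF : E.F ≤ (treeSys p q : EdgeSys G).F)
    (hS : ∀ σ τ, E.S σ τ ⊆ (treeSys p q : EdgeSys G).S σ τ)
    (P : Subgroup (Sep E.F) → Prop) (Q : Subgroup G → Prop)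
    (hP : ∀ H K, H ≤ K → P K → P H) (hQ : ∀ H K, H ≤ K → Q K → Q H)
    (hPQ : ∀ H : Subgroup (Sep E.F), Set.InjOn (proj E.F) H → Q (H.map (proj E.F)) → P H)
    (hm : ∀ (Λ : Type v) (E' : LSys Λ (Sep E.F)), E'.Geo → (∀ l, P (E'.F l)) →
      ∀ {K : Type} [Fintype K] [DecidableEq K] (t : K → Λ)
      (M : Matrix K K (MonoidAlgebra A (Sep E.F))), OnSL E' t t M →
      ∀ {N : ℕ}, M ^ N = 0 → φ.Z M)
    {K : Type} [Fintype K] [DecidableEq K] (M : Matrix K K (MonoidAlgebra A (Sep E.F)))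
    (σ : K → Bool)
    (hM : ∀ i j g, (M i j).coeff g ≠ 0 → g ∈ (sepSys E).S (σ i) (σ j)) {N : ℕ}
    (hN : M ^ N = 0) (hZ : ¬ φ.Z M) :
    ∃ (u v : ℕ → V) (g : ℕ → G),
      (∀ k, s(u k, u (k + 1)) = s(g (2 * k + 2) • p, g (2 * k + 2) • q)) ∧
      (∀ k, s(v k, v (k + 1)) = s(g (2 * k + 3) • p, g (2 * k + 3) • q)) ∧
      s(u 0, v 0) = s(g 0 • p, g 0 • q) ∧ g 1 = g 0 ∧
      (∀ k, Γ.Adj (u k) (u (k + 1))) ∧ (∀ k, Γ.Adj (v k) (v (k + 1))) ∧ Γ.Adj (u 0) (v 0) ∧
      (∀ k, Γ.dist (u k) (v k) = 2 * k + 1) ∧ ∀ k, ¬ Q (cint E.F g k) := by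
  let ch : ∀ S : KStage (sepSys E) φ, KStep S :=
    fun S => Classical.choice (exists_kstep S)
  let S0 : KStage (sepSys E) φ :=
    kstageN (fun σ τ s hs h => tree_not_F hpq hinv (hS σ τ hs) (hF h)) M σ hM hN hZ
  obtain ⟨x, hx1, hx2⟩ := exists_bad ch S0 P hP hm
  -- the group elements
  let h : ℕ → Sep E.F := fun n => (kstg ch S0 n).r (x n)
  have hh : ∀ n, h (n + 1) = (kstg ch S0 n).l (x n) := by
    intro n
    show (kstg ch S0 n).l ((ch (kstg ch S0 n)).down (x (n + 1))) = _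
    rw [hx2]
  have h0 : h 0 = 1 := rfl
  have h1' : h 1 = 1 := by
    rw [hh]
    rfl
  -- the sequence of the ends
  let a : ℕ → V := fun n => (kstg ch S0 n).pB p q (x n)
  have ha1 : ∀ n, a (n + 1) = (kstg ch S0 n).pA p q (x n) := by
    intro n
    show (ch (kstg ch S0 n)).next.pB p q (x (n + 1)) = _
    rw [KStep.pB_next, hx2]
  have hedge : ∀ n, ∃ b : Bool, a n = proj E.F (h (n + 2)) • Tree_b p q b ∧
      a (n + 2) = proj E.F (h (n + 2)) • Tree_a p q b := by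
    intro n
    obtain ⟨b, h1, h2⟩ := (ch (kstg ch S0 n)).pA_next hinv hF hS (x (n + 1))
    have e : h (n + 2) = (ch (kstg ch S0 n)).next.l (x (n + 1)) := hh (n + 1)
    refine ⟨b, ?_, ?_⟩
    · rw [e, ← h1, hx2]
    · rw [e, ← h2]
      exact ha1 (n + 1)
  have h01 : ∃ b : Bool, a 0 = Tree_b p q b ∧ a 1 = Tree_a p q b := by
    refine ⟨(x 0).down, ?_, ?_⟩
    · show proj E.F (1 : Sep E.F) • Tree_b p q (x 0).down = _
      rw [map_one, one_smul]
    · rw [ha1 0]
      show proj E.F (1 : Sep E.F) • Tree_a p q (x 0).down = _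
      rw [map_one, one_smul]
  have hdist : ∀ n, Γ.dist (a n) (a (n + 1)) = n + 1 := by
    intro n
    rw [ha1 n, SimpleGraph.dist_comm, KStage.p_dist hΓ hadj hpq hinv hF hS, kstg_L]
    show 0 + n + 1 = n + 1
    omega
  -- the groups
  have hdown : ∀ n, (kstg ch S0 (n + 1)).E.F (x (n + 1)) ≤ (kstg ch S0 n).E.F (x n) := by
    intro n
    have := (ch (kstg ch S0 n)).down_F (x (n + 1))
    rwa [hx2] at this
  have hsub : ∀ n j, j ≤ n → ∀ y ∈ (kstg ch S0 n).E.F (x n),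
      (h j)⁻¹ * y * h j ∈ E.F.map (emb E.F) := by
    intro n
    induction n with
    | zero =>
      intro j hj y hy
      obtain rfl : j = 0 := by omega
      exact (kstg ch S0 0).seg.Fr hy
    | succ n ih =>
      intro j hj y hy
      rcases Nat.lt_or_ge j (n + 1) with hlt | hge
      · exact ih j (by omega) y (hdown n hy)
      · obtain rfl : j = n + 1 := by omega
        exact (kstg ch S0 (n + 1)).seg.Fr hy
  have hgrp : ∀ k, ¬ Q (cint E.F (fun n => proj E.F (h n)) k) := by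
    intro k hk
    refine hx1 k (hPQ _ ?_ (hQ _ _ ?_ hk))
    · intro y hy z hz hyz
      have hy' := hsub k 0 (Nat.zero_le _) y hy
      have hz' := hsub k 0 (Nat.zero_le _) z hz
      rw [h0, inv_one, one_mul, mul_one] at hy' hz'
      obtain ⟨n, hn, rfl⟩ := hy'
      obtain ⟨m, hm', rfl⟩ := hz'
      rw [proj_emb, proj_emb] at hyz
      rw [hyz]
    · rintro _ ⟨y, hy, rfl⟩
      rw [mem_cint]
      intro j hj
      obtain ⟨n, hn, e⟩ := hsub k j hj y hy
      have e2 := congrArg (proj E.F) e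
      rw [proj_emb, map_mul, map_mul, map_inv] at e2
      rw [← e2]
      exact hn
  have hadj' : ∀ (g : G) (c : Bool), Γ.Adj (g • Tree_b p q c) (g • Tree_a p q c) :=
    fun g c => hadj g _ _ (tree_adj hpq c)
  have e2 : ∀ k : ℕ, 2 * (k + 1) = 2 * k + 2 := fun k => by ring
  have e3 : ∀ k : ℕ, 2 * (k + 1) + 1 = 2 * k + 1 + 2 := fun k => by ring
  have e4 : ∀ k : ℕ, 2 * k + 3 = 2 * k + 1 + 2 := fun k => by ring
  refine ⟨fun k => a (2 * k), fun k => a (2 * k + 1), fun n => proj E.F (h n),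
    ?_, ?_, ?_, ?_, ?_, ?_, ?_, ?_, hgrp⟩
  · intro k
    obtain ⟨c, h1, h2⟩ := hedge (2 * k)
    show s(a (2 * k), a (2 * (k + 1))) = _
    rw [e2, h1, h2, tree_edge]
  · intro k
    obtain ⟨c, h1, h2⟩ := hedge (2 * k + 1)
    show s(a (2 * k + 1), a (2 * (k + 1) + 1)) = s(proj E.F (h (2 * k + 3)) • p, _)
    rw [e3, h1, h2, tree_edge, e4]
  · obtain ⟨b, h1, h2⟩ := h01
    show s(a 0, a 1) = s(proj E.F (h 0) • p, proj E.F (h 0) • q)
    rw [h1, h2, h0, map_one, ← tree_edge 1 p q b, one_smul, one_smul]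
  · show proj E.F (h 1) = proj E.F (h 0)
    rw [h1', h0]
  · intro k
    obtain ⟨c, h1, h2⟩ := hedge (2 * k)
    show Γ.Adj (a (2 * k)) (a (2 * (k + 1)))
    rw [e2, h1, h2]
    exact hadj' _ c
  · intro k
    obtain ⟨c, h1, h2⟩ := hedge (2 * k + 1)
    show Γ.Adj (a (2 * k + 1)) (a (2 * (k + 1) + 1))
    rw [e3, h1, h2]
    exact hadj' _ c
  · obtain ⟨b, h1, h2⟩ := h01
    show Γ.Adj (a 0) (a 1)
    rw [h1, h2]
    exact tree_adj hpq b
  · intro k
    exact hdist (2 * k)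

end

end Pool.Agent.KN
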