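import Mathlib
import Pool.Agent.Lib.KN.Main
import Pool.Agent.Lib.KN.Amal

/-!
# Separation of the letters: the choice of a finitely generated group and the nilpotent lift
-/

set_option autoImplicit false

open MonoidAlgebra
open Pool.Agent.Lib.MP_98022b_UN Pool.Agent.Lib.MP_98022b_UM Pool.Agent.UP

namespace Pool.Agent.KN

universe u v w

section

variable {A : Type u} {G : Type v} [CommRing A] [Group G]

/-- the edge system with a smaller group -/
@[reducible]
def subE (E : EdgeSys G) (N : Subgroup G) (hN : N ≤ E.F) : EdgeSys G where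
  F := N
  S := E.S
  left' := fun h h' => E.left' (hN h) h'
  right' := fun h h' => E.right' h (hN h')
  inv' := fun h => E.inv' h

/-- the inclusion of the group rings -/
noncomputable abbrev embR (A : Type u) [CommRing A] (N : Subgroup G) :
    MonoidAlgebra A G →+* MonoidAlgebra A (Sep N) :=
  MonoidAlgebra.mapDomainRingHom A (emb N)

/-- the lift of a typed matrix to the separated system -/
noncomputable def liftM (N : Subgroup G) {K : Type} (σ : K → Bool)
    (M : Matrix K K (MonoidAlgebra A G)) : Matrix K K (MonoidAlgebra A (Sep N)) := fun i j =>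
  MonoidAlgebra.single ((sa N (σ i))⁻¹) 1 * MonoidAlgebra.mapDomainRingHom A (emb N) (M i j) *
    MonoidAlgebra.single (sa N (!(σ j))) 1

omit [Group G] in
theorem supp_single {g h : G} {a : A}
    (H : (MonoidAlgebra.single g a : MonoidAlgebra A G).coeff h ≠ 0) : g = h := by
  classical
  by_contra hc
  apply H
  rw [coeff_single, Finsupp.single_apply, if_neg hc]

theorem supp_map {H : Type w} [Group H] (f : G →* H) {x : MonoidAlgebra A G} {h : H}
    (hx : (MonoidAlgebra.mapDomainRingHom A f x).coeff h ≠ 0) :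
    ∃ g, x.coeff g ≠ 0 ∧ f g = h := by
  classical
  rw [← x.sum_coeff_single, Finsupp.sum, map_sum] at hx
  obtain ⟨g, hg, h1⟩ := OnAux.supp_sum hx
  rw [mapDomainRingHom_apply, mapDomain_single] at h1
  exact ⟨g, Finsupp.mem_support_iff.1 hg, supp_single h1⟩

theorem liftM_on {E : EdgeSys G} {N : Subgroup G} (hN : N ≤ E.F) {K : Type} {σ : K → Bool}
    {M : Matrix K K (MonoidAlgebra A G)}
    (hM : ∀ i j g, (M i j).coeff g ≠ 0 → g ∈ E.S (σ i) (σ j)) :
    ∀ i j g, (liftM N σ M i j).coeff g ≠ 0 → g ∈ (sepSys (subE E N hN)).S (σ i) (σ j) := by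
  intro i j g hg
  obtain ⟨a, b, ha, hb, rfl⟩ := OnAux.supp_mul hg
  obtain ⟨c, d, hc, hd, rfl⟩ := OnAux.supp_mul ha
  obtain ⟨s, hs, rfl⟩ := supp_map _ hd
  refine ⟨s, hM i j s hs, ?_⟩
  rw [← supp_single hc, ← supp_single hb]

theorem proj_liftM (N : Subgroup G) {K : Type} (σ : K → Bool)
    (M : Matrix K K (MonoidAlgebra A G)) :
    (liftM N σ M).map (MonoidAlgebra.mapDomainRingHom A (proj N)) = M := by
  ext1 i j
  have h1 : ∀ x : Sep N, proj N x = 1 → MonoidAlgebra.mapDomainRingHom A (proj N)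
      (MonoidAlgebra.single x 1) = 1 := by
    intro x hx
    rw [mapDomainRingHom_apply, mapDomain_single, hx, ← one_def]
  rw [Matrix.map_apply, liftM, map_mul, map_mul, h1 _ (by rw [map_inv, proj_sa, inv_one]),
    h1 _ (proj_sa N _), one_mul, mul_one]
  rw [← RingHom.comp_apply, ← mapDomainRingHom_comp]
  rw [show (proj N).comp (emb N) = MonoidHom.id G from MonoidHom.ext (proj_emb N),
    mapDomainRingHom_id, RingHom.id_apply]

/-- the powers of `x` commute with the elements over `N` -/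
theorem sx_comm (N : Subgroup G) (k : ℤ) {y : MonoidAlgebra A G}
    (hy : ∀ g, y.coeff g ≠ 0 → g ∈ N) :
    MonoidAlgebra.single (sx N k) 1 * embR A N y = embR A N y * MonoidAlgebra.single (sx N k) 1 := by
  classical
  rw [← y.sum_coeff_single, Finsupp.sum, map_sum, Finset.mul_sum, Finset.sum_mul]
  refine Finset.sum_congr rfl fun g hg => ?_
  rw [mapDomainRingHom_apply, mapDomain_single, single_mul_single, single_mul_single, one_mul,
    mul_one]
  have h := sx_emb N ⟨g, hy g (Finsupp.mem_support_iff.1 hg)⟩ k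
  rw [show sx N k * emb N g = emb N g * sx N k from h]

/-- an edge system as a one-sided system -/
def edgeL (E : EdgeSys G) : LSys Bool G where
  F := fun _ => E.F
  S := E.S
  left' := E.left'
  right' := E.right'

theorem edgeL_W (E : EdgeSys G) : ∀ (n : ℕ) (l m : Bool), (edgeL E).W n l m = E.P n l m
  | 0, _, _ => rfl
  | n + 1, l, m => by
    ext g
    constructor
    · rintro ⟨r, s, hs, t, ht, rfl⟩
      exact ⟨r, s, hs, t, (edgeL_W E n r m) ▸ ht, rfl⟩
    · rintro ⟨r, s, hs, t, ht, rfl⟩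
      exact ⟨r, s, hs, t, (edgeL_W E n r m).symm ▸ ht, rfl⟩

theorem edgeL_geo {E : EdgeSys G} (hE : E.Geo) : (edgeL E).Geo := by
  intro n l m r r' s s' t t' hs ht hs' ht' e
  rw [edgeL_W] at ht ht'
  exact hE n l m r r' s s' t t' hs ht hs' ht' e

/-- the diagonal matrix of the separating elements -/
noncomputable def dX (A : Type u) [CommRing A] (N : Subgroup G) {J : Type} [DecidableEq J]
    (r : J → Bool) : Matrix J J (MonoidAlgebra A (Sep N)) :=
  Matrix.diagonal fun j => MonoidAlgebra.single (sx N (se (r j))) 1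

theorem dX_comm (N : Subgroup G) {J K : Type} [Fintype J] [DecidableEq J] [Fintype K]
    [DecidableEq K] {r : J → Bool} {σ : K → Bool} {Φ : Matrix J K (MonoidAlgebra A G)}
    (h1 : ∀ a k g, (Φ a k).coeff g ≠ 0 → g ∈ N) (h2 : ∀ a k g, (Φ a k).coeff g ≠ 0 → r a = σ k) :
    Φ.map (embR A N) * dX A N σ = dX A N r * Φ.map (embR A N) := by
  ext1 a k
  rw [dX, dX, Matrix.mul_diagonal, Matrix.diagonal_mul, Matrix.map_apply]
  by_cases h : Φ a k = 0
  · rw [h, map_zero, zero_mul, mul_zero]
  · obtain ⟨g, hg⟩ := exists_coeff_ne h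
    rw [h2 a k g hg, sx_comm N _ (h1 a k)]

/-- the lift is nilpotent as soon as `N` contains the supports of the filtration -/
theorem sepN_seq (N : Subgroup G) {K : Type} [Fintype K] [DecidableEq K] (σ : K → Bool)
    (M : Matrix K K (MonoidAlgebra A G)) (J : ℕ → Type) [∀ i, Fintype (J i)]
    [∀ i, DecidableEq (J i)] (r : ∀ i, J i → Bool)
    (Φ : ∀ i, Matrix (J i) K (MonoidAlgebra A G))
    (Ξ : ∀ i, Matrix (J i) (J (i + 1)) (MonoidAlgebra A G))
    (hΞ : ∀ i, Φ i * M = Ξ i * Φ (i + 1)) (n : ℕ)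
    (hN : ∀ i, i ≤ n → ∀ a k g, (Φ i a k).coeff g ≠ 0 → g ∈ N ∧ r i a = σ k)
    (B : Matrix K (J 0) (MonoidAlgebra A G)) (hB : B * Φ 0 = 1) (hn : Φ n = 0) :
    ∃ m, (liftM N σ M) ^ m = 0 := by
  classical
  refine ⟨n + 1, ?_⟩
  have hc : ∀ i, i ≤ n → (Φ i).map (embR A N) * dX A N σ =
      dX A N (r i) * (Φ i).map (embR A N) := fun i hi =>
    dX_comm N (fun a k g hg => (hN i hi a k g hg).1) (fun a k g hg => (hN i hi a k g hg).2)
  set Y : Matrix K K (MonoidAlgebra A (Sep N)) := M.map (embR A N) * dX A N σ with hY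
  have hpow : ∀ i, i ≤ n → ∃ Z : Matrix K (J i) (MonoidAlgebra A (Sep N)),
      Y ^ i = Z * (Φ i).map (embR A N) := by
    intro i
    induction i with
    | zero =>
      intro _
      refine ⟨B.map (embR A N), ?_⟩
      rw [pow_zero, ← Matrix.map_mul, hB]
      exact (Matrix.map_one _ (map_zero _) (map_one _)).symm
    | succ i ih =>
      intro hi
      obtain ⟨Z, hZ⟩ := ih (by omega)
      refine ⟨Z * (Ξ i).map (embR A N) * dX A N (r (i + 1)), ?_⟩
      have h2 : (Φ i).map (embR A N) * M.map (embR A N) =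
          (Ξ i).map (embR A N) * (Φ (i + 1)).map (embR A N) := by
        rw [← Matrix.map_mul, hΞ, Matrix.map_mul]
      rw [pow_succ, hZ, hY]
      calc Z * (Φ i).map (embR A N) * (M.map (embR A N) * dX A N σ)
          = Z * ((Φ i).map (embR A N) * M.map (embR A N) * dX A N σ) := by
            simp only [Matrix.mul_assoc]
        _ = Z * ((Ξ i).map (embR A N) * ((Φ (i + 1)).map (embR A N) * dX A N σ)) := by
            rw [h2, Matrix.mul_assoc]
        _ = _ := by
            rw [hc (i + 1) hi]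
            simp only [Matrix.mul_assoc]
  obtain ⟨Z, hZ⟩ := hpow n le_rfl
  have hYn : Y ^ n = 0 := by
    rw [hZ, hn, Matrix.map_zero _ (map_zero _), Matrix.mul_zero]
  let D : Matrix K K (MonoidAlgebra A (Sep N)) :=
    Matrix.diagonal fun i => MonoidAlgebra.single ((sa N (σ i))⁻¹) 1
  let D' : Matrix K K (MonoidAlgebra A (Sep N)) :=
    Matrix.diagonal fun i => MonoidAlgebra.single (sa N (!(σ i))) 1
  have hL : liftM N σ M = D * M.map (embR A N) * D' := by
    ext1 i j
    rw [Matrix.mul_diagonal, Matrix.diagonal_mul, Matrix.map_apply]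
    rfl
  have hD : D' * D = dX A N σ := by
    rw [Matrix.diagonal_mul_diagonal, dX]
    congr 1
    ext1 i
    rw [single_mul_single, one_mul, sa_sep]
  have hpow2 : ∀ m, (liftM N σ M) ^ (m + 1) = D * Y ^ m * M.map (embR A N) * D' := by
    intro m
    induction m with
    | zero => rw [zero_add, pow_one, pow_zero, Matrix.mul_one, hL]
    | succ m ih =>
      rw [pow_succ, ih, hL, pow_succ]
      calc D * Y ^ m * M.map (embR A N) * D' * (D * M.map (embR A N) * D')
          = D * Y ^ m * M.map (embR A N) * (D' * D) * M.map (embR A N) * D' := by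
            simp only [Matrix.mul_assoc]
        _ = _ := by
            rw [hD, hY]
            simp only [Matrix.mul_assoc]
  rw [hpow2 n, hYn]
  simp only [Matrix.mul_zero, Matrix.zero_mul]

/-- **the choice of `N`**: the lift of a nilpotent typed matrix is nilpotent over a suitable
finitely generated subgroup `N` of the edge group, which may be taken to contain a given one -/
theorem exists_sepN' (E : EdgeSys G) (hG : E.Geo) {K : Type} [Fintype K] [DecidableEq K]
    (σ : K → Bool) (M : Matrix K K (MonoidAlgebra A G))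
    (hM : ∀ i j g, (M i j).coeff g ≠ 0 → g ∈ E.S (σ i) (σ j)) {n : ℕ} (hn : M ^ n = 0)
    (N₀ : Subgroup G) (h₀ : N₀.FG) (hN₀ : N₀ ≤ E.F) :
    ∃ N : Subgroup G, N₀ ≤ N ∧ N.FG ∧ N ≤ E.F ∧ ∃ m, (liftM N σ M) ^ m = 0 := by
  classical
  have hM' : OnSL (edgeL E) σ σ M := hM
  let nx : ∀ c : Cn (edgeL E) σ M, Nx c := fun c =>
    Classical.choice (exists_nx (edgeL_geo hG) hM' c)
  let c0 : Cn (edgeL E) σ M := ⟨K, σ, 1, On0.one, M, by rw [Matrix.one_mul, Matrix.mul_one]⟩
  let c : ℕ → Cn (edgeL E) σ M := fun n => Nat.rec c0 (fun _ c => (nx c).c') n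
  have h0 : ∀ m, m ≤ n → (c m).Φ * M ^ (n - m) = 0 := by
    intro m
    induction m with
    | zero =>
      intro _
      rw [Nat.sub_zero, hn, Matrix.mul_zero]
    | succ m ih =>
      intro hm
      have h1 := ih (by omega)
      refine (nx (c m)).h3 _ ?_
      rw [Matrix.mul_assoc, ← pow_succ', show n - (m + 1) + 1 = n - m by omega]
      exact h1
  have h1 : (c n).Φ = 0 := by
    have := h0 n le_rfl
    rwa [Nat.sub_self, pow_zero, Matrix.mul_one] at this
  -- the group
  let T : Set G := ⋃ i ∈ Finset.range (n + 1), ⋃ a : (c i).J, ⋃ k : K,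
    (((c i).Φ a k).coeff.support : Set G)
  have hT : T.Finite := by
    refine Set.Finite.biUnion (Finset.finite_toSet _) fun i _ => ?_
    have : Finite (c i).J := @Finite.of_fintype _ (c i).fin
    exact Set.finite_iUnion fun a : (c i).J => Set.finite_iUnion fun k : K =>
      Finset.finite_toSet _
  have hTm : ∀ i : ℕ, i ≤ n → ∀ a k g, ((c i).Φ a k).coeff g ≠ 0 → g ∈ T := by
    intro i hi a k g hg
    refine Set.mem_biUnion (Finset.mem_coe.2 (Finset.mem_range.2 (Nat.lt_succ_of_le hi))) ?_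
    exact Set.mem_iUnion.2 ⟨a, Set.mem_iUnion.2 ⟨k, Finset.mem_coe.2
      (Finsupp.mem_support_iff.2 hg)⟩⟩
  have hTF : Subgroup.closure T ≤ E.F := by
    rw [Subgroup.closure_le]
    intro g hg
    obtain ⟨i, -, hi⟩ := Set.mem_iUnion₂.1 hg
    obtain ⟨a, ha⟩ := Set.mem_iUnion.1 hi
    obtain ⟨k, hk⟩ := Set.mem_iUnion.1 ha
    exact ((c i).on a k g (Finsupp.mem_support_iff.1 (Finset.mem_coe.1 hk))).1
  refine ⟨N₀ ⊔ Subgroup.closure T, le_sup_left,
    Subgroup.FG.sup h₀ ((Subgroup.fg_iff _).2 ⟨T, rfl, hT⟩), sup_le hN₀ hTF, ?_⟩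
  have hTN : T ⊆ (N₀ ⊔ Subgroup.closure T : Subgroup G) := fun g hg =>
    (le_sup_right : Subgroup.closure T ≤ N₀ ⊔ Subgroup.closure T) (Subgroup.subset_closure hg)
  exact @sepN_seq A G _ _ (N₀ ⊔ Subgroup.closure T) K _ _ σ M (fun i => (c i).J)
    (fun i => (c i).fin) (fun i => (c i).dec) (fun i => (c i).r) (fun i => (c i).Φ)
    (fun i => (nx (c i)).Ξ) (fun i => (nx (c i)).h1) n
    (fun i hi a k g hg => ⟨hTN (hTm i hi a k g hg), ((c i).on a k g hg).2⟩)
    1 (Matrix.one_mul _) h1

theorem exists_sepN (E : EdgeSys G) (hG : E.Geo) {K : Type} [Fintype K] [DecidableEq K]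
    (σ : K → Bool) (M : Matrix K K (MonoidAlgebra A G))
    (hM : ∀ i j g, (M i j).coeff g ≠ 0 → g ∈ E.S (σ i) (σ j)) {n : ℕ} (hn : M ^ n = 0) :
    ∃ N : Subgroup G, N.FG ∧ N ≤ E.F ∧ ∃ m, (liftM N σ M) ^ m = 0 := by
  obtain ⟨N, -, h⟩ := exists_sepN' E hG σ M hM hn ⊥
    (Group.fg_iff_subgroup_fg _ |>.1 inferInstance) bot_le
  exact ⟨N, h⟩

end

end Pool.Agent.KN
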