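import Mathlib
import Pool.Agent.Lib.KN.SepN
import Pool.Agent.Lib.KN.LineSep

/-! Row J3: the line of a nilpotent matrix at the level of a subgroup of the edge group. -/

set_option autoImplicit false

open MonoidAlgebra
open Pool.Agent.Lib.MP_98022b_UN Pool.Agent.Lib.MP_98022b_UM Pool.Agent.UP

namespace Pool.Agent.KN

universe u v w

theorem line_of_notN {A : Type u} [CommRing A] {G : Type v} [Group G] {V : Type w} [MulAction G V]
    {Γ : SimpleGraph V} (hΓ : Γ.IsTree)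
    (hadj : ∀ (g : G) (x y : V), Γ.Adj x y → Γ.Adj (g • x) (g • y)) {p q : V}
    (hpq : Γ.Adj p q) (hinv : ∀ g : G, ¬ (g • p = q ∧ g • q = p)) (N : Subgroup G)
    (hN : N ≤ (treeSys p q : EdgeSys G).F) (φ : NullFam (MonoidAlgebra A (Sep N)))
    (P : Subgroup (Sep N) → Prop) (Q : Subgroup G → Prop) (hP : ∀ H K, H ≤ K → P K → P H)
    (hQ : ∀ H K, H ≤ K → Q K → Q H)
    (hPQ : ∀ H : Subgroup (Sep N), Set.InjOn (proj N) H → Q (H.map (proj N)) → P H)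
    (hm : ∀ (Λ : Type v) (E : LSys Λ (Sep N)), E.Geo → (∀ l, P (E.F l)) → ∀ {K : Type} [Fintype K]
      [DecidableEq K] (t : K → Λ) (M : Matrix K K (MonoidAlgebra A (Sep N))), OnSL E t t M →
      ∀ {n : ℕ}, M ^ n = 0 → φ.Z M)
    {K : Type} [Fintype K] [DecidableEq K] (M : Matrix K K (MonoidAlgebra A (Sep N))) (σ : K → Bool)
    (hM : ∀ i j g, (M i j).coeff g ≠ 0 → g ∈ (sepSys (subE (treeSys p q) N hN)).S (σ i) (σ j))
    {n : ℕ} (hn : M ^ n = 0) (hZ : ¬ φ.Z M) :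
    ∃ (u v : ℕ → V) (g : ℕ → G), (∀ k, s(u k, u (k + 1)) = s(g (2 * k + 2) • p, g (2 * k + 2) • q)) ∧
      (∀ k, s(v k, v (k + 1)) = s(g (2 * k + 3) • p, g (2 * k + 3) • q)) ∧
      s(u 0, v 0) = s(g 0 • p, g 0 • q) ∧ g 1 = g 0 ∧
      (∀ k, Γ.Adj (u k) (u (k + 1))) ∧ (∀ k, Γ.Adj (v k) (v (k + 1))) ∧ Γ.Adj (u 0) (v 0) ∧
      (∀ k, Γ.dist (u k) (v k) = 2 * k + 1) ∧ ∀ k, ¬ Q (cint N g k) :=
  line_sep (E := subE (treeSys p q) N hN) (φ := φ) hΓ hadj hpq hinv hN (fun _ _ => subset_rfl)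
    P Q hP hQ hPQ hm M σ hM hn hZ

end Pool.Agent.KN
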