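import Mathlib
import Pool.Agent.Lib.KN.Defs

/-! Row J4: regular coherence along homomorphisms that are injective on a subgroup. -/

set_option autoImplicit false
open MonoidAlgebra
open Pool.Agent.Lib.MP_98022b_UN Pool.Agent.Lib.MP_98022b_UM Pool.Agent.UP
namespace Pool.Agent.KN
universe u v w

section
variable {R S : Type*} [Ring R] [Ring S]

theorem mul_map' (e : R ≃+* S) {I J K : Type} [Fintype J] (X : Matrix I J R) (Y : Matrix J K R) :
    (X * Y).map e = X.map e * Y.map e := by
  ext i k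
  simp [Matrix.mul_apply]

theorem map_inj' (e : R ≃+* S) {I J : Type} {X Y : Matrix I J R} (h : X.map e = Y.map e) :
    X = Y := by
  ext i j
  have := congrFun (congrFun h i) j
  simpa using this

theorem map_symm' (e : R ≃+* S) {I J : Type} (X : Matrix I J S) : (X.map e.symm).map e = X := by
  ext i j
  simp

theorem map_zero' (e : R ≃+* S) {I J : Type} : (0 : Matrix I J R).map e = 0 := by
  ext i j
  simp

theorem GenR.map (e : R ≃+* S) {n J K : Type} [Fintype n] [Fintype J] {ζ : Matrix n J R}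
    {D : Matrix J K R} (h : GenR ζ D) : GenR (ζ.map e) (D.map e) := by
  refine ⟨by rw [← mul_map', h.1, map_zero'], fun x hx => ?_⟩
  obtain ⟨κ, hκ⟩ := h.2 (x.map e.symm) (map_inj' e (by
    rw [mul_map', map_symm', hx, map_zero']))
  exact ⟨κ.map e, by rw [← mul_map', ← hκ, map_symm']⟩

theorem PDR.map (e : R ≃+* S) : ∀ (n : ℕ) {J K : Type} [Fintype J] [Fintype K]
    {D : Matrix J K R}, PDR n D → PDR n (D.map e)
  | 0, J, K, _, _, D, h => by
    obtain ⟨P, h1, h2⟩ := h
    refine ⟨P.map e, by rw [← mul_map', h1], fun κ hκ => ?_⟩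
    have h3 := h2 (κ.map e.symm) (map_inj' e (by rw [mul_map', map_symm', hκ, map_zero']))
    rw [← map_symm' e κ, ← mul_map', h3, map_zero']
  | n + 1, J, K, _, _, D, h => by
    obtain ⟨c, ζ, h1, h2⟩ := h
    exact ⟨c, ζ.map e, GenR.map e h1, PDR.map e n h2⟩

theorem CohT.equiv (e : R ≃+* S) (h : CohT R) : CohT S := by
  intro J K _ _ D
  obtain ⟨c, ζ, h1⟩ := h J K (D.map e.symm)
  exact ⟨c, ζ.map e, by simpa only [map_symm'] using GenR.map e h1⟩

theorem PDT.equiv (e : R ≃+* S) (h : PDT R) : PDT S := by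
  intro J K _ _ D
  obtain ⟨n, h1⟩ := h J K (D.map e.symm)
  exact ⟨n, by simpa only [map_symm'] using PDR.map e n h1⟩

end

theorem RC.of_map {A : Type u} [CommRing A] {G G' : Type v} [Group G] [Group G'] (f : G' →* G)
    (H : Subgroup G') (hinj : Set.InjOn f H) (h : RC A (H.map f)) : RC A H := by
  intro L hL hLH
  have h1 : (L.map f).FG := by
    obtain ⟨T, hT⟩ := hL
    classical
    exact ⟨T.image f, by rw [Finset.coe_image, ← MonoidHom.map_closure, hT]⟩
  obtain ⟨h2, h3⟩ := h (L.map f) h1 (Subgroup.map_mono hLH)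
  have h4 : Function.Bijective (f.subgroupMap L) := by
    refine ⟨fun x y hxy => ?_, f.subgroupMap_surjective L⟩
    have := congrArg Subtype.val hxy
    exact Subtype.ext (hinj (hLH x.2) (hLH y.2) this)
  let e : MonoidAlgebra A L ≃+* MonoidAlgebra A (L.map f) :=
    mapDomainRingEquiv A (MulEquiv.ofBijective _ h4)
  exact ⟨CohT.equiv e.symm h2, PDT.equiv e.symm h3⟩

end Pool.Agent.KN
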