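import Mathlib
import Pool.Agent.Lib.KN.FinalK
import Pool.Agent.Lib.KN.LineN
import Pool.Agent.Lib.KN.RCmap

/-! Row J5: nilpotent matrices of an edge, finitely generated subgroups of the edge group. -/

set_option autoImplicit false

open MonoidAlgebra
open Pool.Agent.Lib.MP_98022b_UN Pool.Agent.Lib.MP_98022b_UM Pool.Agent.UP

namespace Pool.Agent.KN

universe u v w

section
variable {R R' : Type u} [Ring R] [Ring R']

/-- the preimages under a ring homomorphism -/
def NullFam.comap (f : R' →+* R) (φ : NullFam R) : NullFam R' where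
  S K _ _ := (φ.S K).comap (Units.map ((f.mapMatrix : Matrix K K R' →+* Matrix K K R) :
    Matrix K K R' →* Matrix K K R))
  swap := by
    intro K L _ _ _ _ X Y U V hU hV h
    refine φ.swap (X.map f) (Y.map f) _ _ ?_ ?_ h
    · show (U : Matrix K K R').map f = _
      rw [hU]
      ext i j
      simp only [Matrix.map_apply, Matrix.add_apply, map_add, ← Matrix.map_mul, Matrix.one_apply,
        apply_ite f, map_one, map_zero]
    · show (V : Matrix L L R').map f = _
      rw [hV]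
      ext i j
      simp only [Matrix.map_apply, Matrix.add_apply, map_add, ← Matrix.map_mul, Matrix.one_apply,
        apply_ite f, map_one, map_zero]

theorem NullFam.comap_Z {f : R' →+* R} {φ : NullFam R} {K : Type} [Fintype K] [DecidableEq K]
    {T : Matrix K K R'} (h : (φ.comap f).Z T) : φ.Z (T.map f) := by
  obtain ⟨U, hU, hS⟩ := h
  refine ⟨_, ?_, hS⟩
  show (U : Matrix K K R').map f = _
  rw [hU]
  ext i j
  simp [Matrix.one_apply, apply_ite f]

end

/-- the group elements of the edges of the line -/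
def gLine {G : Type v} (g : ℕ → G) : ℤ → G
  | Int.ofNat k => g (2 * k + 2)
  | Int.negSucc 0 => g 0
  | Int.negSucc (k + 1) => g (2 * k + 3)

theorem gLine_le {G : Type v} (g : ℕ → G) (k : ℕ) (i : ℤ) (h1 : -(k : ℤ) ≤ i) (h2 : i ≤ k) :
    ∃ j : Fin (2 * k + 3 + 1), gLine g i = g j := by
  rcases i with m | m
  · exact ⟨⟨2 * m + 2, by rw [Int.ofNat_eq_natCast] at h2; omega⟩, rfl⟩
  · rcases m with _ | m
    · exact ⟨⟨0, by omega⟩, rfl⟩
    · exact ⟨⟨2 * m + 3, by omega⟩, rfl⟩

/-- **nilpotent matrices of an edge are stably elementary if for every finitely generated subgroup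
`N` of the edge group and every line of edges `g_i e` some intersection of the conjugates
`g_i N g_i⁻¹`, `|i| ≤ k`, has a locally regular coherent group ring** -/
theorem nil_stelN {A : Type u} [CommRing A] {G : Type v} [Group G] {V : Type w} [MulAction G V]
    {Γ : SimpleGraph V} (hΓ : Γ.IsTree)
    (hadj : ∀ (g : G) (x y : V), Γ.Adj x y → Γ.Adj (g • x) (g • y)) {p q : V}
    (hpq : Γ.Adj p q) (hinv : ∀ g : G, ¬ (g • p = q ∧ g • q = p))
    (hl : ∀ N : Subgroup G, N.FG → N ≤ MulAction.stabilizer G p ⊓ MulAction.stabilizer G q →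
      ∀ (l : ℤ → V) (g : ℤ → G), EdgeLine G Γ p q l →
      (∀ i, s(l i, l (i + 1)) = s(g i • p, g i • q)) → ∃ k : ℕ, ∀ H : Subgroup G, H.FG →
        (∀ i : ℤ, -(k : ℤ) ≤ i → i ≤ k → ∀ h ∈ H, (g i)⁻¹ * h * g i ∈ N) →
        CohT (MonoidAlgebra A H) ∧ PDT (MonoidAlgebra A H))
    {K : Type} [Fintype K] [DecidableEq K] (M : Matrix K K (MonoidAlgebra A G)) (σ : K → Bool)
    (hM : ∀ i j g, (M i j).coeff g ≠ 0 → g ∈ treeS p q (σ i) (σ j)) {n : ℕ} (hn : M ^ n = 0) :
    StEl (1 + M) := by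
  obtain ⟨φ, hφ⟩ := exists_el (MonoidAlgebra A G)
  refine hφ M ?_
  by_contra hZ
  obtain ⟨N, hfg, hN, m, hm⟩ := exists_sepN (treeSys p q) (treeSys_geo hΓ hadj hpq hinv) σ M hM hn
  have hZ' : ¬ (φ.comap (MonoidAlgebra.mapDomainRingHom A (proj N))).Z (liftM N σ M) := by
    intro h
    have h1 := NullFam.comap_Z h
    rw [proj_liftM] at h1
    exact hZ h1
  obtain ⟨u, v, g, eu, ev, e0, -, hu, hv, h0, hd, hQ⟩ := line_of_notN hΓ hadj hpq hinv N hN
    (φ.comap (MonoidAlgebra.mapDomainRingHom A (proj N))) (RC A) (RC A)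
    (fun H K h hK => RC.mono h hK) (fun H K h hK => RC.mono h hK)
    (fun H h1 h2 => RC.of_map (proj N) H h1 h2)
    (fun Λ E hG hF K _ _ t M hM N hN => main_L _ E hG hF t M hM hN) (liftM N σ M) σ
    (liftM_on hN hM) hm hZ'
  obtain ⟨l, h1, h2, h3, h4⟩ : ∃ l : ℤ → V, (∀ i j : ℤ, Γ.dist (l i) (l j) = (i - j).natAbs) ∧
      (∀ k : ℕ, l (Int.ofNat k) = u k) ∧ (∀ k : ℕ, l (Int.negSucc k) = v k) ∧ True :=
    ⟨zLine u v, zLine_dist' hΓ.connected hu hv h0 hd, fun _ => rfl, fun _ => rfl, trivial⟩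
  have h5 : ∀ i : ℤ, s(l i, l (i + 1)) = s(gLine g i • p, gLine g i • q) := by
    intro i
    rcases i with k | k
    · have := eu k
      rw [← h2, ← h2] at this
      exact this
    · rcases k with _ | k
      · have h6 : l (Int.negSucc 0 + 1) = u 0 := h2 0
        rw [h3, h6, Sym2.eq_swap, e0]
        rfl
      · have h6 : l (Int.negSucc (k + 1) + 1) = v k := by
          rw [← h3]
          congr 1
        rw [h3, h6, Sym2.eq_swap, ev]
        rfl
  obtain ⟨k, hk⟩ := hl N hfg hN l (gLine g) ⟨h1, fun i => ⟨_, h5 i⟩⟩ h5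
  refine hQ (2 * k + 3) fun H hH hle => hk H hH fun i hi1 hi2 h hh => ?_
  obtain ⟨j, hj⟩ := gLine_le g k i hi1 hi2
  rw [hj]
  have h6 := hle hh
  unfold cint at h6
  rw [Subgroup.mem_iInf] at h6
  obtain ⟨x, hx, hx'⟩ := h6 j
  rw [← hx']
  have : (g j)⁻¹ * ((MulAut.conj (g j)).toMonoidHom x) * g j = x := by
    show (g j)⁻¹ * (g j * x * (g j)⁻¹) * g j = x
    group
  rw [this]
  exact hx

end Pool.Agent.KN
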