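import Mathlib
import Pool.Agent.Lib.KN.SepN
import Pool.Agent.Lib.MP_98022b_UM.Bi
import Pool.Agent.Lib.MP_98022b_UN.E1

/-!
# Row L2: forms lift to the separated amalgam over a finitely generated subgroup
-/

set_option autoImplicit false

open MonoidAlgebra
open Pool.Agent.Lib.MP_98022b_UN Pool.Agent.Lib.MP_98022b_UM Pool.Agent.UP

namespace Pool.Agent.KN

universe u v w

namespace LiftN

section
variable {A : Type u} [CommRing A] {G : Type v} [Group G]

/-- the lift of a letter of side `true` -/
noncomputable def up (N : Subgroup G) (a b : Bool) (x : MonoidAlgebra A G) :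
    MonoidAlgebra A (Sep N) :=
  single ((sa N a)⁻¹) 1 * MonoidAlgebra.mapDomainRingHom A (emb N) x * single (sa N b) 1

theorem emb_supp (N : Subgroup G) {x : MonoidAlgebra A G} {g : Sep N}
    (h : (MonoidAlgebra.mapDomainRingHom A (emb N) x).coeff g ≠ 0) :
    ∃ s, x.coeff s ≠ 0 ∧ emb N s = g := by
  classical
  have h1 : g ∈ (MonoidAlgebra.mapDomain (emb N) x).coeff.support :=
    Finsupp.mem_support_iff.2 h
  have h2 := Finsupp.mapDomain_support (f := emb N) (s := x.coeff)
  have h3 : (MonoidAlgebra.mapDomain (emb N) x).coeff = Finsupp.mapDomain (emb N) x.coeff := by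
    rw [MonoidAlgebra.coeff_mapDomain]
  rw [h3] at h1
  obtain ⟨s, hs, rfl⟩ := Finset.mem_image.1 (h2 h1)
  exact ⟨s, Finsupp.mem_support_iff.1 hs, rfl⟩

theorem single_supp {H : Type v} [Group H] {a g : H} (h : (single a (1 : A)).coeff g ≠ 0) :
    a = g := by
  classical
  rw [coeff_single, Finsupp.single_apply] at h
  by_contra hne
  exact h (if_neg hne)

theorem up_supp (N : Subgroup G) {a b : Bool} {x : MonoidAlgebra A G} {g : Sep N}
    (h : (up N a b x).coeff g ≠ 0) :
    ∃ s, x.coeff s ≠ 0 ∧ g = (sa N a)⁻¹ * emb N s * sa N b := by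
  obtain ⟨c, d, hc, hd, rfl⟩ := OnAux.supp_mul h
  obtain ⟨e, f, he, hf, rfl⟩ := OnAux.supp_mul hc
  obtain ⟨s, hs, rfl⟩ := emb_supp N hf
  rw [← single_supp he, ← single_supp hd]
  exact ⟨s, hs, rfl⟩

theorem proj_emb' (N : Subgroup G) (x : MonoidAlgebra A G) :
    MonoidAlgebra.mapDomainRingHom A (proj N) (MonoidAlgebra.mapDomainRingHom A (emb N) x) = x := by
  have h1 : (proj N).comp (emb N) = MonoidHom.id G := MonoidHom.ext fun g => proj_emb N g
  have h2 := mapDomainRingHom_comp (R := A) (proj N) (emb N)
  rw [h1, mapDomainRingHom_id] at h2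
  exact (congrArg (fun f => f x) h2).symm

theorem proj_up (N : Subgroup G) (a b : Bool) (x : MonoidAlgebra A G) :
    MonoidAlgebra.mapDomainRingHom A (proj N) (up N a b x) = x := by
  have h0 : ∀ g : Sep N, MonoidAlgebra.mapDomainRingHom A (proj N) (single g (1 : A)) =
      single (proj N g) 1 := fun g => by rw [mapDomainRingHom_apply, mapDomain_single]
  unfold up
  rw [map_mul, map_mul, h0, h0, map_inv, proj_sa, proj_sa, inv_one, proj_emb', ← one_def, one_mul,
    mul_one]

/-- elements supported in `N` commute with `sa` -/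
theorem sa_comm_emb (N : Subgroup G) (b : Bool) {x : MonoidAlgebra A G}
    (hx : ∀ g, x.coeff g ≠ 0 → g ∈ N) :
    single (sa N b) (1 : A) * MonoidAlgebra.mapDomainRingHom A (emb N) x =
      MonoidAlgebra.mapDomainRingHom A (emb N) x * single (sa N b) 1 := by
  have h1 : x = x.coeff.sum fun g a => single g a := by
    rw [← MonoidAlgebra.sum_coeff_single x]
    simp
  rw [h1, Finsupp.sum, map_sum, Finset.mul_sum, Finset.sum_mul]
  refine Finset.sum_congr rfl fun g hg => ?_
  rw [mapDomainRingHom_apply, mapDomain_single, single_mul_single, single_mul_single, one_mul,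
    mul_one]
  congr 1
  exact sa_comm N b ⟨g, hx g (Finsupp.mem_support_iff.1 hg)⟩

end

section
variable {A : Type u} [CommRing A] [StarRing A] {G : Type v} [Group G]

theorem barw_emb (χ : G →* ℤˣ) (N : Subgroup G) (x : MonoidAlgebra A G) :
    barw (χ.comp (proj N)) (MonoidAlgebra.mapDomainRingHom A (emb N) x) =
      MonoidAlgebra.mapDomainRingHom A (emb N) (barw χ x) := by
  induction x using MonoidAlgebra.induction_linear with
  | zero => rw [map_zero, barw_zero, barw_zero, map_zero]
  | add x y hx hy => rw [map_add, barw_add, barw_add, map_add, hx, hy]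
  | single g a =>
    rw [mapDomainRingHom_apply, mapDomain_single, barw_single, barw_single,
      mapDomainRingHom_apply, mapDomain_single, map_inv, MonoidHom.comp_apply, proj_emb]

theorem barw_sa (χ : G →* ℤˣ) (N : Subgroup G) (b : Bool) :
    barw (χ.comp (proj N)) (single (sa N b) (1 : A)) = single (sa N b)⁻¹ 1 := by
  rw [barw_single, MonoidHom.comp_apply, proj_sa, map_one, star_one]
  simp

theorem barw_sa' (χ : G →* ℤˣ) (N : Subgroup G) (b : Bool) :
    barw (χ.comp (proj N)) (single (sa N b)⁻¹ (1 : A)) = single (sa N b) 1 := by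
  rw [barw_single, MonoidHom.comp_apply, map_inv, proj_sa, inv_one, map_one, star_one, inv_inv]
  simp

theorem barw_up (χ : G →* ℤˣ) (N : Subgroup G) (a b : Bool) (x : MonoidAlgebra A G) :
    barw (χ.comp (proj N)) (up N a b x) = up N b a (barw χ x) := by
  unfold up
  rw [barw_mul, barw_mul, barw_sa, barw_sa', barw_emb, mul_assoc]

end

end LiftN

open LiftN

/-- forms lift -/
theorem exists_liftBF {A : Type u} [CommRing A] [StarRing A] {G : Type v} [Group G]
    (E : EdgeSys G) (hG : E.Geo) (χ : G →* ℤˣ) {ε : ℤ}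
    (X : BF (biSys E) (barStr (A := A) χ) ε) : ∃ (N : Subgroup G) (hN : N ≤ E.F), N.FG ∧
    ∃ M' : Bool → Matrix X.K X.K (MonoidAlgebra A (Sep N)),
      IsBF (biSys (sepSys (subE E N hN))) (barStr (A := A) (χ.comp (proj N))) ε X.t M' ∧
      ∀ b, (M' b).map (MonoidAlgebra.mapDomainRingHom A (proj N)) = X.M b := by
  classical
  -- the group generated by the support of `M false`
  let S₀ : Finset G := Finset.univ.biUnion fun i : X.K => Finset.univ.biUnion fun j : X.K =>
    (X.M false i j).coeff.support
  have hS₀ : ∀ i j g, (X.M false i j).coeff g ≠ 0 → g ∈ Subgroup.closure (S₀ : Set G) := by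
    intro i j g hg
    apply Subgroup.subset_closure
    simp only [S₀, Finset.coe_biUnion, Finset.mem_coe, Finset.mem_univ, Set.iUnion_true,
      Set.mem_iUnion]
    exact ⟨i, j, Finsupp.mem_support_iff.2 hg⟩
  have h₀F : Subgroup.closure (S₀ : Set G) ≤ E.F := by
    rw [Subgroup.closure_le]
    intro g hg
    simp only [S₀, Finset.coe_biUnion, Finset.mem_coe, Finset.mem_univ, Set.iUnion_true,
      Set.mem_iUnion] at hg
    obtain ⟨i, j, h⟩ := hg
    exact (X.is.on false i j g (Finsupp.mem_support_iff.1 h)).1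
  -- the product of the two matrices
  let σ : X.K → Bool := fun i => (X.t i).down
  have hM : ∀ i j g, ((X.M true * X.M false) i j).coeff g ≠ 0 → g ∈ E.S (σ i) (σ j) := by
    intro i j g hg
    rw [Matrix.mul_apply] at hg
    obtain ⟨k, -, hk⟩ := OnAux.supp_sum hg
    obtain ⟨a, b, ha, hb, rfl⟩ := OnAux.supp_mul hk
    have h1 : a ∈ E.S (X.t i).down (!(X.t k).down) := X.is.on true i k a ha
    have h2 : b ∈ E.F ∧ (X.t j).down = !(X.t k).down := X.is.on false k j b hb
    have h3 := E.right' h1 h2.1
    rw [← h2.2] at h3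
    exact h3
  obtain ⟨n, hn⟩ := X.is.nil
  obtain ⟨N, h₀N, hfg, hN, m, hm⟩ := exists_sepN' E hG σ (X.M true * X.M false) hM hn
    (Subgroup.closure (S₀ : Set G)) ⟨S₀, rfl⟩ h₀F
  let M' : Bool → Matrix X.K X.K (MonoidAlgebra A (Sep N)) := fun b => match b with
    | true => fun i j => up N (X.t i).down (X.t j).down (X.M true i j)
    | false => fun i j => MonoidAlgebra.mapDomainRingHom A (emb N) (X.M false i j)
  have hprod : M' true * M' false = liftM N σ (X.M true * X.M false) := by
    refine Matrix.ext fun i j => ?_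
    change ∑ k, up N (X.t i).down (X.t k).down (X.M true i k) *
      MonoidAlgebra.mapDomainRingHom A (emb N) (X.M false k j) = _
    unfold liftM
    rw [Matrix.mul_apply, map_sum, Finset.mul_sum, Finset.sum_mul]
    refine Finset.sum_congr rfl fun k _ => ?_
    by_cases h0 : X.M false k j = 0
    · rw [h0, map_zero, mul_zero, mul_zero, map_zero, mul_zero, zero_mul]
    · have h1 : (X.t j).down = !(X.t k).down := by
        obtain ⟨g, hg⟩ : ∃ g, (X.M false k j).coeff g ≠ 0 := by
          by_contra h
          push Not at h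
          apply h0
          ext g
          exact h g
        exact (X.is.on false k j g hg).2
      have h2 : (!(σ j)) = (X.t k).down := by
        change (!(X.t j).down) = _
        rw [h1, Bool.not_not]
      rw [h2, map_mul]
      unfold up
      rw [mul_assoc, sa_comm_emb N (X.t k).down fun g hg => h₀N (hS₀ k j g hg)]
      simp only [mul_assoc]
      rfl
  refine ⟨N, hN, hfg, M', ⟨?_, ?_, m, ?_⟩, ?_⟩
  · intro b i j g hg
    cases b
    · obtain ⟨s, hs, rfl⟩ := emb_supp N hg
      exact ⟨⟨s, h₀N (hS₀ i j s hs), rfl⟩, (X.is.on false i j s hs).2⟩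
    · obtain ⟨s, hs, rfl⟩ := up_supp N hg
      have h1 : s ∈ E.S (X.t i).down (!(X.t j).down) := X.is.on true i j s hs
      refine ⟨s, h1, ?_⟩
      first
        | rw [Bool.not_not]; done
        | rw [Bool.not_not]; rfl
  · intro b
    have h1 : ∀ i j, barw χ (X.M b j i) = ε • X.M b i j := fun i j =>
      congrFun (congrFun (X.is.sym b) i) j
    refine Matrix.ext fun i j => ?_
    cases b
    · change barw (χ.comp (proj N)) (MonoidAlgebra.mapDomainRingHom A (emb N) (X.M false j i)) =
        ε • MonoidAlgebra.mapDomainRingHom A (emb N) (X.M false i j)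
      rw [barw_emb, h1, map_zsmul]
    · change barw (χ.comp (proj N)) (up N (X.t j).down (X.t i).down (X.M true j i)) =
        ε • up N (X.t i).down (X.t j).down (X.M true i j)
      rw [barw_up, h1]
      unfold up
      rw [map_zsmul, mul_smul_comm, smul_mul_assoc]
  · exact (congrArg (fun M => M ^ m) hprod).trans hm
  · intro b
    refine Matrix.ext fun i j => ?_
    cases b
    · exact proj_emb' N _
    · exact proj_up N _ _ _

end Pool.Agent.KN
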