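import Mathlib
import Pool.Agent.Lib.MIX.Line
import Pool.Agent.Lib.KN.Amal
import Pool.Agent.Lib.KN.SepN

/-!
# Row L3: reversible lines for a finitely generated subgroup of the edge group

The machine of reversible lines is run over a group `G'` with a homomorphism `π : G' → G` which maps
the words of the system `E₀` over `G'` to words of the system of the edge.
-/

set_option autoImplicit false

open MonoidAlgebra
open Pool.Agent.Lib.MP_98022b_UN Pool.Agent.Lib.MP_98022b_UM Pool.Agent.UP Pool.Agent.MIX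

namespace Pool.Agent.KN

universe u v w

section generic
variable {A : Type u} {G G' : Type v} [CommRing A] [Group G] [Group G'] {V : Type w}
  [MulAction G V] {p q : V} {E₀ : EdgeSys G'} {β : BarStr A G'} {ε : ℤ} {N : Subgroup G}

/-- the left end of the segment of a label -/
def qX (p q : V) (π : G' →* G) {s : Stage E₀ β ε} (st : Step s) (δ : st.Δ) : V :=
  π (s.l (st.R.src δ)) • Tree_a p q (s.σ (st.R.src δ))

/-- the right end of the segment of a label -/
def qY (p q : V) (π : G' →* G) {s : Stage E₀ β ε} (st : Step s) (δ : st.Δ) : V :=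
  π (st.R.d δ) • qX p q π st δ

variable {π : G' →* G}

theorem q_eq {s : Stage E₀ β ε} (st : Step s) (δ : st.Δ) (hδ : st.R.inv δ = δ) :
    (π (st.R.d δ * s.l (st.R.src (st.R.inv δ)))) •
      Tree_b p q (!(s.σ (st.R.src (st.R.inv δ)))) = qY p q π st δ := by
  rw [hδ, Tree_b_not, map_mul, mul_smul]
  rfl

/-- the elements of the label groups come from `N`, seen from the left end -/
theorem q_memL (hF : ∀ g ∈ E₀.F, π g ∈ N) {s : Stage E₀ β ε} (st : Step s) (δ : st.Δ) {g : G'}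
    (hg : g ∈ redF st.R δ) : (π (s.l (st.R.src δ)))⁻¹ * π g * π (s.l (st.R.src δ)) ∈ N := by
  have h1 := hF _ (s.seg.Fl ((mem_redF st.R δ g).1 hg).1)
  rwa [map_mul, map_mul, map_inv] at h1

/-- the elements of the label groups come from `N`, seen from the right end -/
theorem q_memR (hF : ∀ g ∈ E₀.F, π g ∈ N) {s : Stage E₀ β ε} (st : Step s) (δ : st.Δ)
    (hδ : st.R.inv δ = δ) {g : G'} (hg : g ∈ redF st.R δ) :
    (π (st.R.d δ * s.l (st.R.src δ)))⁻¹ * π g * π (st.R.d δ * s.l (st.R.src δ)) ∈ N := by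
  have h0 := ((mem_redF st.R δ g).1 hg).2
  rw [hδ] at h0
  have h1 := hF _ (s.seg.Fl h0)
  have e : (s.l (st.R.src δ))⁻¹ * ((st.R.d δ)⁻¹ * g * st.R.d δ) * s.l (st.R.src δ) =
      (st.R.d δ * s.l (st.R.src δ))⁻¹ * g * (st.R.d δ * s.l (st.R.src δ)) := by group
  rw [e, map_mul, map_mul, map_inv] at h1
  exact h1

theorem q_fix (hF : ∀ g ∈ E₀.F, π g ∈ N) (hN : N ≤ (treeSys p q : EdgeSys G).F)
    {s : Stage E₀ β ε} (st : Step s) (δ : st.Δ) {g : G'} (hg : g ∈ redF st.R δ) :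
    (∀ c, π g • π (s.l (st.R.src δ)) • Tree_a p q c = π (s.l (st.R.src δ)) • Tree_a p q c) ∧
    ∀ c, π g • π (s.l (st.R.src δ)) • Tree_b p q c = π (s.l (st.R.src δ)) • Tree_b p q c := by
  have h1 := hN (q_memL hF st δ hg)
  obtain ⟨h2, h3⟩ := Subgroup.mem_inf.1 (show _ ∈ MulAction.stabilizer G p ⊓
    MulAction.stabilizer G q from h1)
  rw [MulAction.mem_stabilizer_iff] at h2 h3
  have key : ∀ z : V, ((π (s.l (st.R.src δ)))⁻¹ * π g * π (s.l (st.R.src δ))) • z = z →
      π g • π (s.l (st.R.src δ)) • z = π (s.l (st.R.src δ)) • z := by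
    intro z hz
    have h4 := congrArg (fun y => π (s.l (st.R.src δ)) • y) hz
    simp only [smul_smul] at h4
    rw [show π (s.l (st.R.src δ)) * ((π (s.l (st.R.src δ)))⁻¹ * π g * π (s.l (st.R.src δ))) =
      π g * π (s.l (st.R.src δ)) by group] at h4
    rw [smul_smul]
    exact h4
  constructor
  · rintro (_ | _)
    · exact key p h2
    · exact key q h3
  · rintro (_ | _)
    · exact key q h3
    · exact key p h2

theorem q_dist {Γ : SimpleGraph V} (hΓ : Γ.IsTree)
    (hadj : ∀ (g : G) (x y : V), Γ.Adj x y → Γ.Adj (g • x) (g • y))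
    (hpq : Γ.Adj p q) (hinv : ∀ g : G, ¬ (g • p = q ∧ g • q = p))
    (hP : ∀ m σ τ g, g ∈ E₀.P m σ τ → π g ∈ (treeSys p q : EdgeSys G).P m σ τ)
    {s : Stage E₀ β ε} (st : Step s) (δ : st.Δ) (hδ : st.R.inv δ = δ) :
    Γ.dist (qX p q π st δ) (qY p q π st δ) = s.L + 2 := by
  have h0 := hP _ _ _ _ ((s.seg.red st.R).path δ)
  have h1 := (Tree_dist hΓ hadj hpq hinv _ _ _ _ h0).1
  rw [← Tree_dist_smul hΓ hadj (π (s.l (st.R.src δ))), smul_smul, ← map_mul,
    mul_inv_cancel_left, q_eq st δ hδ] at h1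
  exact h1

theorem q_rev (hF : ∀ g ∈ E₀.F, π g ∈ N) (hN : N ≤ (treeSys p q : EdgeSys G).F)
    {s : Stage E₀ β ε} (st : Step s) (δ : st.Δ) (hδ : st.R.inv δ = δ) :
    π (st.R.d δ) • qY p q π st δ = qX p q π st δ := by
  have h5 : st.R.d δ * st.R.d (st.R.inv δ) ∈ redF st.R δ := d_mul_redF st.R δ
  have h6 := (q_fix hF hN st δ h5).1 (s.σ (st.R.src δ))
  rw [hδ, map_mul, mul_smul] at h6
  exact h6

/-- the right ends of consecutive segments are adjacent -/
theorem q_next (hinv : ∀ g : G, ¬ (g • p = q ∧ g • q = p)) (hε : ε = 1 ∨ ε = -1)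
    (hP : ∀ m σ τ g, g ∈ E₀.P m σ τ → π g ∈ (treeSys p q : EdgeSys G).P m σ τ)
    {s : Stage E₀ β ε} (st : Step s) (st1 : Step (st.next hε))
    (δ : st1.Δ) (hδ : st1.R.inv δ = δ) :
      qY p q π st (st.R'.src (st1.R.src δ).1).1 =
        π (st1.R.d δ * (st.next hε).l (st1.R.src δ)) • Tree_b p q ((st.next hε).σ (st1.R.src δ)) ∧
      qY p q π st1 δ =
        π (st1.R.d δ * (st.next hε).l (st1.R.src δ)) • Tree_a p q ((st.next hε).σ (st1.R.src δ)) := by
  have h1 := (st.next hε).seg.tr (st1.R.d_mem δ)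
  rw [hδ] at h1
  obtain ⟨h2, -⟩ := Tree_mem_S hinv ((P_one _).1 (hP _ _ _ _ h1))
  refine ⟨?_, ?_⟩
  · rw [Tree_a_not] at h2
    have h3 := congrArg (fun z => π ((st.next hε).r (st1.R.src δ)) • z) h2
    simp only [smul_smul] at h3
    have e : π ((st.next hε).r (st1.R.src δ)) * π (((st.next hε).r (st1.R.src δ))⁻¹ * st1.R.d δ *
        (st.next hε).l (st1.R.src δ)) = π (st1.R.d δ * (st.next hε).l (st1.R.src δ)) := by
      rw [← map_mul]
      congr 1
      group
    rw [e] at h3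
    rw [h3, ← q_eq st _ (next_key hε st st1 δ hδ).1]
    show _ = π (st.R.d (st.R'.src (st1.R.src δ).1).1 *
      s.l (st.R.src (st.R.inv (st.R'.src (st1.R.src δ).1).1))) •
      Tree_b p q (!(!(!(s.σ (st.R.src (st.R.inv (st.R'.src (st1.R.src δ).1).1))))))
    rw [Bool.not_not]
  · rw [map_mul, mul_smul]
    rfl

/-- the left end of a segment is the image of the right end under the reversal of the next
segment -/
theorem q_back (hF : ∀ g ∈ E₀.F, π g ∈ N) (hN : N ≤ (treeSys p q : EdgeSys G).F)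
    (hε : ε = 1 ∨ ε = -1)
    {s : Stage E₀ β ε} (st : Step s) (st1 : Step (st.next hε))
    (δ : st1.Δ) (hδ : st1.R.inv δ = δ) :
    π (st1.R.d δ) • qY p q π st (st.R'.src (st1.R.src δ).1).1 =
      qX p q π st (st.R'.src (st1.R.src δ).1).1 := by
  obtain ⟨h1, x, hx, h2⟩ := next_key hε st st1 δ hδ
  have h3 := (q_fix hF hN st _ hx).1 (s.σ (st.R.src (st.R'.src (st1.R.src δ).1).1))
  rw [h2, map_mul, mul_smul, q_rev hF hN st _ h1]
  exact h3

/-- the left ends of consecutive segments are adjacent -/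
theorem q_nextL (hinv : ∀ g : G, ¬ (g • p = q ∧ g • q = p)) (hF : ∀ g ∈ E₀.F, π g ∈ N)
    (hN : N ≤ (treeSys p q : EdgeSys G).F) (hε : ε = 1 ∨ ε = -1)
    (hP : ∀ m σ τ g, g ∈ E₀.P m σ τ → π g ∈ (treeSys p q : EdgeSys G).P m σ τ)
    {s : Stage E₀ β ε} (st : Step s) (st1 : Step (st.next hε))
    (δ : st1.Δ) (hδ : st1.R.inv δ = δ) :
      qX p q π st (st.R'.src (st1.R.src δ).1).1 =
        π ((st.next hε).l (st1.R.src δ)) • Tree_b p q ((st.next hε).σ (st1.R.src δ)) := by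
  have h1 := q_back hF hN hε st st1 δ hδ
  rw [← h1, (q_next hinv hε hP st st1 δ hδ).1, map_mul, mul_smul, smul_smul, ← map_mul]
  have h5 : st1.R.d δ * st1.R.d (st1.R.inv δ) ∈ redF st1.R δ := d_mul_redF st1.R δ
  rw [hδ] at h5
  exact (q_fix hF hN st1 δ h5).2 _

theorem line_of_notπ {Γ : SimpleGraph V} (hΓ : Γ.IsTree)
    (hadj : ∀ (g : G) (x y : V), Γ.Adj x y → Γ.Adj (g • x) (g • y))
    (hpq : Γ.Adj p q) (hinv : ∀ g : G, ¬ (g • p = q ∧ g • q = p))
    (hF : ∀ g ∈ E₀.F, π g ∈ N) (hN : N ≤ (treeSys p q : EdgeSys G).F)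
    (hinj : ∀ x ∈ E₀.F, π x = 1 → x = 1)
    (hW : ∀ m σ τ g, g ∈ E₀.P m σ τ → π g ∈ (treeSys p q : EdgeSys G).P m σ τ)
    (hGeo : E₀.Geo) (hno : (biSys E₀).NoInv) (hlen : Len (biSys E₀)) (hε : ε = 1 ∨ ε = -1)
    (P : Subgroup G' → Prop) (Q : Subgroup G → Prop) (hP : ∀ H K, H ≤ K → P K → P H)
    (hQ : ∀ H K, H ≤ K → Q K → Q H)
    (hPQ : ∀ H : Subgroup G', Set.InjOn π H → Q (H.map π) → P H)
    (hm : ∀ (Θ : Type v) (E' : BSys Θ G'), E'.Geo → E'.NoInv → (∀ θ, P (E'.F θ)) →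
      ∀ Y : BF E' β ε, Y.SMetab)
    (X : BF (biSys E₀) β ε) (hX : ¬ WT X) :
    ∃ (u v : ℕ → V) (a b : ℕ → G), ReversibleLine G Γ p q u v ∧
      (∀ k, s(u k, u (k + 1)) = s(a k • p, a k • q)) ∧
      (∀ k, s(v k, v (k + 1)) = s(b k • p, b k • q)) ∧
      ∀ k, 1 ≤ k → ¬ Q (⨅ j : Fin k, N.map (MulAut.conj (a j)).toMonoidHom ⊓
        N.map (MulAut.conj (b j)).toMonoidHom) := by
  let ch : ∀ s : Stage E₀ β ε, Step s := fun s => Classical.choice (exists_step hε s)
  let s0 : Stage E₀ β ε :=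
    { Ω := ULift.{v} Bool
      E := biSys E₀
      L := 0
      l := fun _ => 1
      r := fun _ => 1
      σ := fun ω => ω.down
      τ := fun ω => ω.down
      h := fun ω => ω.down
      geo := biSys_geo hGeo
      noInv := hno
      len := hlen
      spl := spl_bi _
      seg := seg_bi _
      X := X
      not := hX }
  obtain ⟨x, hx⟩ := exists_good hε hP hm ch s0
  have hL : ∀ k, (stg hε ch s0 k).L = 2 * k := by
    intro k
    induction k with
    | zero => rfl
    | succ k ih =>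
      show (stg hε ch s0 k).L + 1 + 1 = 2 * (k + 1)
      rw [ih]
      ring
  have hlab : ∀ k, (x k).1.1 = ((ch (stg hε ch s0 k)).R'.src
      ((ch (stg hε ch s0 (k + 1))).R.src (x (k + 1)).1.1).1).1 := fun k =>
    (congrArg (fun z => z.1.1) (hx k)).symm
  set b0 : Bool := ((ch s0).R.src (x 0).1.1).down with hb0
  set u : ℕ → V := seqCons (Tree_b p q b0)
    (fun k => qX p q π (ch (stg hε ch s0 k)) (x k).1.1) with hu
  set v : ℕ → V := seqCons (Tree_b p q b0)
    (fun k => qY p q π (ch (stg hε ch s0 k)) (x k).1.1) with hv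
  set a : ℕ → G := fun k => π ((stg hε ch s0 k).l ((ch (stg hε ch s0 k)).R.src (x k).1.1)) with ha
  set b : ℕ → G := fun k => π ((ch (stg hε ch s0 k)).R.d (x k).1.1 *
    (stg hε ch s0 k).l ((ch (stg hε ch s0 k)).R.src (x k).1.1)) with hb
  have hV : ∀ k, ∃ (c : Bool), v k = b k • Tree_b p q c ∧ v (k + 1) = b k • Tree_a p q c := by
    intro k
    cases k with
    | zero =>
      refine ⟨b0, ?_, ?_⟩
      · have h1 := (ch s0).R.d_mem (x 0).1.1
        have hδ : (ch s0).R.inv (x 0).1.1 = (x 0).1.1 := (x 0).2.1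
        rw [hδ] at h1
        have h2 : (ch s0).R.d (x 0).1.1 ∈ E₀.S b0 (!b0) := h1
        have h3 : π ((ch s0).R.d (x 0).1.1) ∈ (treeSys p q : EdgeSys G).S b0 (!b0) :=
          (P_one _).1 (hW 1 _ _ _ ((P_one _).2 h2))
        have h4 := (Tree_mem_S hinv h3).1
        rw [Tree_a_not] at h4
        show Tree_b p q b0 = π ((ch s0).R.d (x 0).1.1 * 1) • Tree_b p q b0
        rw [mul_one]
        exact h4.symm
      · show π ((ch s0).R.d (x 0).1.1) • π (1 : G') • Tree_a p q b0 = π ((ch s0).R.d (x 0).1.1 * 1) •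
          Tree_a p q b0
        rw [map_mul, mul_smul]
    | succ k =>
      obtain ⟨h1, h2⟩ := q_next (p := p) (q := q) (π := π) hinv hε hW (ch (stg hε ch s0 k))
        (ch (stg hε ch s0 (k + 1))) (x (k + 1)).1.1 (x (k + 1)).2.1
      refine ⟨_, ?_, h2⟩
      show qY p q π (ch (stg hε ch s0 k)) (x k).1.1 = _
      rw [hlab k]
      exact h1
  have hU : ∀ k, ∃ (c : Bool), u k = a k • Tree_b p q c ∧ u (k + 1) = a k • Tree_a p q c := by
    intro k
    cases k with
    | zero =>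
      refine ⟨b0, ?_, ?_⟩
      · show Tree_b p q b0 = π (1 : G') • Tree_b p q b0
        rw [map_one, one_smul]
      · rfl
    | succ k =>
      refine ⟨_, ?_, rfl⟩
      show qX p q π (ch (stg hε ch s0 k)) (x k).1.1 = _
      rw [hlab k]
      exact q_nextL (p := p) (q := q) (π := π) hinv hF hN hε hW (ch (stg hε ch s0 k))
        (ch (stg hε ch s0 (k + 1))) (x (k + 1)).1.1 (x (k + 1)).2.1
  have hadj' : ∀ (g : G) (c : Bool), Γ.Adj (g • Tree_b p q c) (g • Tree_a p q c) :=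
    fun g c => hadj g _ _ (Tree_adj hpq c)
  have eU : ∀ k, s(u k, u (k + 1)) = s(a k • p, a k • q) := by
    intro k
    obtain ⟨c, h1, h2⟩ := hU k
    rw [h1, h2]
    exact Tree_edge _ p q c
  have eV : ∀ k, s(v k, v (k + 1)) = s(b k • p, b k • q) := by
    intro k
    obtain ⟨c, h1, h2⟩ := hV k
    rw [h1, h2]
    exact Tree_edge _ p q c
  -- the groups decrease
  have hmono : ∀ k j, j ≤ k → redF (ch (stg hε ch s0 k)).R (x k).1.1 ≤
      redF (ch (stg hε ch s0 j)).R (x j).1.1 := by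
    intro k
    induction k with
    | zero =>
      intro j hj
      obtain rfl : j = 0 := by omega
      exact le_rfl
    | succ k ih =>
      intro j hj
      rcases Nat.lt_succ_iff_lt_or_eq.1 (Nat.lt_succ_of_le hj) with h | h
      · refine le_trans ?_ (ih j (by omega))
        have h1 := next_F hε (ch (stg hε ch s0 k)) (ch (stg hε ch s0 (k + 1))) (x (k + 1)).1.1
        rw [← hlab k] at h1
        exact h1
      · subst h
        exact le_rfl
  refine ⟨u, v, a, b, ⟨rfl, ?_, ?_, ?_, ?_, ?_, ?_⟩, eU, eV, ?_⟩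
  · intro k
    obtain ⟨c, h1, h2⟩ := hU k
    rw [h1, h2]
    exact hadj' _ c
  · intro k
    obtain ⟨c, h1, h2⟩ := hV k
    rw [h1, h2]
    exact hadj' _ c
  · exact fun k => ⟨_, eU k⟩
  · exact fun k => ⟨_, eV k⟩
  · intro k
    cases k with
    | zero =>
      show Γ.dist (Tree_b p q b0) (Tree_b p q b0) = 2 * 0
      rw [SimpleGraph.dist_self]
    | succ k =>
      show Γ.dist (qX p q π (ch (stg hε ch s0 k)) (x k).1.1)
        (qY p q π (ch (stg hε ch s0 k)) (x k).1.1) = _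
      rw [q_dist hΓ hadj hpq hinv hW _ _ (x k).2.1, hL]
      ring
  · intro k
    cases k with
    | zero => exact ⟨1, one_smul G _, one_smul G _⟩
    | succ k =>
      exact ⟨π ((ch (stg hε ch s0 k)).R.d (x k).1.1), rfl,
        q_rev hF hN (ch (stg hε ch s0 k)) (x k).1.1 (x k).2.1⟩
  · intro k hk h
    cases k with
    | zero => omega
    | succ k =>
      refine (x k).2.2 (hPQ _ ?_ (hQ _ _ ?_ h))
      · intro g hg g' hg' e
        have h1 : g⁻¹ * g' ∈ redF (ch (stg hε ch s0 k)).R (x k).1.1 :=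
          mul_mem (inv_mem hg) hg'
        have h2 := (stg hε ch s0 k).seg.Fl ((mem_redF _ _ _).1 h1).1
        have h3 := hinj _ h2 (by
          rw [map_mul, map_mul, map_mul, map_inv, map_inv, e]
          group)
        have h4 : g⁻¹ * g' = 1 := by
          have h5 := congrArg (fun y => (stg hε ch s0 k).l ((ch (stg hε ch s0 k)).R.src (x k).1.1) * y *
            ((stg hε ch s0 k).l ((ch (stg hε ch s0 k)).R.src (x k).1.1))⁻¹) h3
          have e6 : ∀ l y : G', l * (l⁻¹ * y * l) * l⁻¹ = y := by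
            intro l y
            group
          have e7 : ∀ l : G', l * 1 * l⁻¹ = 1 := by
            intro l
            group
          exact (e6 _ _).symm.trans (h5.trans (e7 _))
        exact (inv_mul_eq_one.1 h4)
      · rintro _ ⟨g, hg, rfl⟩
        rw [Subgroup.mem_iInf]
        intro j
        have h1 := hmono k j.1 (by omega) hg
        refine ⟨⟨_, q_memL hF _ _ h1, ?_⟩, ⟨_, q_memR hF _ _ (x j.1).2.1 h1, ?_⟩⟩
        · show a j.1 * ((a j.1)⁻¹ * π g * a j.1) * (a j.1)⁻¹ = π g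
          group
        · show b j.1 * ((b j.1)⁻¹ * π g * b j.1) * (b j.1)⁻¹ = π g
          group

end generic

section
variable {A : Type u} [CommRing A] {G : Type v} [Group G]

theorem proj_letter {E : EdgeSys G} {N : Subgroup G} (hN : N ≤ E.F) {σ τ : Bool} {g : Sep N}
    (h : g ∈ (sepSys (subE E N hN)).S σ τ) : proj N g ∈ E.S σ τ := by
  obtain ⟨s, hs, rfl⟩ := h
  have e : proj N ((sa N σ)⁻¹ * emb N s * sa N (!τ)) = s := by
    rw [map_mul, map_mul, map_inv, proj_sa, proj_sa, proj_emb, inv_one, one_mul, mul_one]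
  exact Set.mem_of_eq_of_mem e hs

theorem proj_word {E : EdgeSys G} {N : Subgroup G} (hN : N ≤ E.F) :
    ∀ (m : ℕ) (σ τ : Bool) (g : Sep N), g ∈ (sepSys (subE E N hN)).P m σ τ →
      proj N g ∈ E.P m σ τ := by
  intro m
  induction m with
  | zero =>
    rintro σ τ g ⟨⟨n, hn, rfl⟩, rfl⟩
    refine ⟨?_, rfl⟩
    rw [proj_emb]
    exact hN hn
  | succ m ih =>
    rintro σ τ g ⟨ρ, s, hs, t, ht, rfl⟩
    refine ⟨ρ, proj N s, proj_letter hN hs, proj N t, ih ρ τ t ht, ?_⟩
    rw [map_mul]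

/-- **a reversible line for a finitely generated subgroup of the edge group** -/
theorem line_of_notU {V : Type w} [MulAction G V] {Γ : SimpleGraph V} (hΓ : Γ.IsTree)
    (hadj : ∀ (g : G) (x y : V), Γ.Adj x y → Γ.Adj (g • x) (g • y)) {p q : V}
    (hpq : Γ.Adj p q) (hinv : ∀ g : G, ¬ (g • p = q ∧ g • q = p))
    (hno : (biSys (treeSys p q : EdgeSys G)).NoInv) {ε : ℤ} (hε : ε = 1 ∨ ε = -1)
    (N : Subgroup G) (hN : N ≤ (treeSys p q : EdgeSys G).F) {β : BarStr A (Sep N)}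
    (P : Subgroup (Sep N) → Prop) (Q : Subgroup G → Prop) (hP : ∀ H K, H ≤ K → P K → P H)
    (hQ : ∀ H K, H ≤ K → Q K → Q H)
    (hPQ : ∀ H : Subgroup (Sep N), Set.InjOn (proj N) H → Q (H.map (proj N)) → P H)
    (hm : ∀ (Θ : Type v) (E' : BSys Θ (Sep N)), E'.Geo → E'.NoInv → (∀ θ, P (E'.F θ)) →
      ∀ Y : BF E' β ε, Y.SMetab)
    (X : BF (biSys (sepSys (subE (treeSys p q : EdgeSys G) N hN))) β ε) (hX : ¬ WT X) :
    ∃ (u v : ℕ → V) (a b : ℕ → G), ReversibleLine G Γ p q u v ∧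
      (∀ k, s(u k, u (k + 1)) = s(a k • p, a k • q)) ∧
      (∀ k, s(v k, v (k + 1)) = s(b k • p, b k • q)) ∧
      ∀ k, 1 ≤ k → ¬ Q (⨅ j : Fin k, N.map (MulAut.conj (a j)).toMonoidHom ⊓
        N.map (MulAut.conj (b j)).toMonoidHom) := by
  refine line_of_notπ (π := proj N) (E₀ := sepSys (subE (treeSys p q : EdgeSys G) N hN)) hΓ hadj
    hpq hinv ?_ hN ?_ (proj_word hN) ?_ ?_ ?_ hε P Q hP hQ hPQ hm X hX
  · rintro _ ⟨n, hn, rfl⟩
    rw [proj_emb]
    exact hn
  · rintro _ ⟨n, hn, rfl⟩ h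
    rw [proj_emb] at h
    rw [h, map_one]
  · refine sep_geo ?_
    intro σ τ s hs hs'
    have h1 : s ∈ (treeSys p q : EdgeSys G).F := hN hs'
    obtain ⟨h2, h3⟩ := Subgroup.mem_inf.1 (show s ∈ MulAction.stabilizer G p ⊓
      MulAction.stabilizer G q from h1)
    rw [MulAction.mem_stabilizer_iff] at h2 h3
    have h4 : s ∈ treeS p q σ τ := hs
    rcases σ <;> rcases τ
    · have h5 : s • p = q := h4
      exact hpq.ne (h2.symm.trans h5)
    · have h5 : s • q = q ∧ s • p ≠ p := h4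
      exact h5.2 h2
    · have h5 : s • p = p ∧ s • q ≠ q := h4
      exact h5.2 h3
    · have h5 : s • q = p := h4
      exact hpq.ne (h5.symm.trans h3)
  · refine biSys_noInv ?_
    intro σ g hg h
    have h1 := hno true ⟨σ⟩ (proj N g) (proj_letter hN hg)
    exact h1 (by rw [← map_inv, h])
  · refine biSys_len ?_
    intro m m' σ τ τ' g h h'
    exact treeSys_eLen hΓ hadj hpq hinv m m' σ τ τ' _ (proj_word hN _ _ _ _ h)
      (proj_word hN _ _ _ _ h')

end

end Pool.Agent.KN
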