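import Mathlib
import Pool.Agent.Lib.KN.Defs
import Pool.Agent.Lib.MIX.Defs

/-! Row L1: stable hyperbolicity is functorial. -/

set_option autoImplicit false

open MonoidAlgebra
open Pool.Agent.Lib.MP_98022b_UN Pool.Agent.Lib.MP_98022b_UM Pool.Agent.UP Pool.Agent.MIX

namespace Pool.Agent.KN

universe u v w

section
variable {A : Type u} [CommRing A] {G G' : Type v} [Group G] [Group G']

theorem mapDomain_supp {π : G' →* G} {x : MonoidAlgebra A G'} {g : G}
    (h : (MonoidAlgebra.mapDomainRingHom A π x).coeff g ≠ 0) : ∃ g', x.coeff g' ≠ 0 ∧ π g' = g := by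
  classical
  have h1 : g ∈ (Finsupp.mapDomain π x.coeff).support := Finsupp.mem_support_iff.2 h
  obtain ⟨g', h2, h3⟩ := Finset.mem_image.1 (Finsupp.mapDomain_support h1)
  exact ⟨g', Finsupp.mem_support_iff.1 h2, h3⟩

section
variable {π : G' →* G} {β' : BarStr A G'} {β : BarStr A G}
  (hβ : ∀ x, MonoidAlgebra.mapDomainRingHom A π (β'.bar x) =
    β.bar (MonoidAlgebra.mapDomainRingHom A π x))

include hβ

theorem adj_map {I J : Type} (M : Matrix I J (MonoidAlgebra A G')) :
    (adj β' M).map (MonoidAlgebra.mapDomainRingHom A π) =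
      adj β (M.map (MonoidAlgebra.mapDomainRingHom A π)) := by
  refine Matrix.ext fun i j => ?_
  exact hβ _

theorem qeq_map {ε : ℤ} {I : Type} {θ θ' : Matrix I I (MonoidAlgebra A G')}
    (h : QEq β' ε θ θ') : QEq β ε (θ.map (MonoidAlgebra.mapDomainRingHom A π))
      (θ'.map (MonoidAlgebra.mapDomainRingHom A π)) := by
  obtain ⟨y, hy⟩ := h
  refine ⟨y.map (MonoidAlgebra.mapDomainRingHom A π), ?_⟩
  rw [hy, ← adj_map hβ]
  refine Matrix.ext fun i j => ?_
  simp only [Matrix.map_apply, Matrix.add_apply, Matrix.sub_apply, Matrix.smul_apply, map_add,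
    map_sub, map_zsmul]

theorem iso_map {ε : ℤ} {I J : Type} [Fintype I] [DecidableEq I] [Fintype J] [DecidableEq J]
    {θ : Matrix I I (MonoidAlgebra A G')} {θ' : Matrix J J (MonoidAlgebra A G')}
    (h : Iso β' ε θ θ') : Iso β ε (θ.map (MonoidAlgebra.mapDomainRingHom A π))
      (θ'.map (MonoidAlgebra.mapDomainRingHom A π)) := by
  obtain ⟨U, V, h1, h2, h3⟩ := h
  refine ⟨U.map (MonoidAlgebra.mapDomainRingHom A π), V.map (MonoidAlgebra.mapDomainRingHom A π),
    ?_, ?_, ?_⟩
  · rw [← Matrix.map_mul, h1]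
    exact Matrix.map_one _ (map_zero _) (map_one _)
  · rw [← Matrix.map_mul, h2]
    exact Matrix.map_one _ (map_zero _) (map_one _)
  · rw [← adj_map hβ, ← Matrix.map_mul, ← Matrix.map_mul]
    exact qeq_map hβ h3

theorem shyp_map {ε : ℤ} {I : Type} [Fintype I] [DecidableEq I]
    {θ : Matrix I I (MonoidAlgebra A G')} (h : SHyp β' ε θ) :
    SHyp β ε (θ.map (MonoidAlgebra.mapDomainRingHom A π)) := by
  obtain ⟨m, n, h1⟩ := h
  refine ⟨m, n, ?_⟩
  have h2 := iso_map hβ h1
  have e : ∀ J : Type, ∀ _ : DecidableEq J, (hyp A G' J).map (MonoidAlgebra.mapDomainRingHom A π) =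
      hyp A G J := by
    intro J _
    unfold hyp
    rw [Matrix.fromBlocks_map, Matrix.map_zero _ (map_zero _), Matrix.map_one _ (map_zero _)
      (map_one _)]
  rw [Matrix.fromBlocks_map, Matrix.map_zero _ (map_zero _), Matrix.map_zero _ (map_zero _),
    e, e] at h2
  exact h2

theorem wt_of_map {Ω : Type w} {E' : BSys Ω G'} {E : BSys Ω G}
    (hS : ∀ b ω ω' g, g ∈ E'.S b ω ω' → π g ∈ E.S b ω ω') {ε : ℤ}
    (X : BF E β ε) (M' : Bool → Matrix X.K X.K (MonoidAlgebra A G')) (is' : IsBF E' β' ε X.t M')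
    (hM : ∀ b, (M' b).map (MonoidAlgebra.mapDomainRingHom A π) = X.M b)
    (h : WT (⟨X.K, X.t, M', is'⟩ : BF E' β' ε)) : WT X := by
  obtain ⟨H, hH, h1⟩ := h
  refine ⟨fun b => (H b).map (MonoidAlgebra.mapDomainRingHom A π), ⟨?_, ?_⟩, ?_⟩
  · intro b i j g hg
    obtain ⟨g', h2, h3⟩ := mapDomain_supp hg
    rw [← h3]
    exact hS _ _ _ _ (hH.on b i j g' h2)
  · intro b
    rw [← adj_map hβ, ← hM b, show M' b = H b + ε • adj β' (H b) from hH.eq b]
    refine Matrix.ext fun i j => ?_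
    simp only [Matrix.map_apply, Matrix.add_apply, Matrix.smul_apply, map_add, map_zsmul]
  · have h2 := shyp_map hβ h1
    rw [Matrix.fromBlocks_map, Matrix.map_zero _ (map_zero _), Matrix.map_one _ (map_zero _)
      (map_one _)] at h2
    exact h2

end

end

end Pool.Agent.KN
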