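import Mathlib
import Pool.Agent.Lib.KN.WTmap
import Pool.Agent.Lib.KN.LiftN
import Pool.Agent.Lib.KN.LineU
import Pool.Agent.Lib.MIX.LineA

/-! Row L4: UNil forms of an edge, finitely generated subgroups of the edge group. -/

set_option autoImplicit false

open MonoidAlgebra
open Pool.Agent.Lib.MP_98022b_UN Pool.Agent.Lib.MP_98022b_UM Pool.Agent.UP Pool.Agent.UP25
open Pool.Agent.Lib.MP_98022b_UM.UF Pool.Agent.MIX

namespace Pool.Agent.KN

universe u v w

section
variable {A : Type u} [CommRing A] [StarRing A] {G : Type v} [Group G]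

theorem barw_proj (χ : G →* ℤˣ) (N : Subgroup G) (x : MonoidAlgebra A (Sep N)) :
    MonoidAlgebra.mapDomainRingHom A (proj N) (barw (χ.comp (proj N)) x) =
      barw χ (MonoidAlgebra.mapDomainRingHom A (proj N) x) := by
  induction x using MonoidAlgebra.induction_linear with
  | zero => rw [map_zero, barw_zero, barw_zero, map_zero]
  | add x y hx hy => rw [map_add, barw_add, barw_add, map_add, hx, hy]
  | single g a =>
    rw [barw_single, mapDomainRingHom_apply, mapDomainRingHom_apply, mapDomain_single,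
      mapDomain_single, barw_single, map_inv, MonoidHom.comp_apply]

theorem IsVT.of_map {G G' : Type v} [Group G] [Group G'] (f : G' →* G) (L : Subgroup G')
    (hinj : Set.InjOn f L) (h : IsVT (L.map f)) : IsVT L := by
  obtain ⟨d, hd⟩ := isVT_iff.1 h
  refine isVT_iff.2 ⟨d, hd.of_injective (f.subgroupMap L) fun x y hxy => ?_⟩
  have := congrArg Subtype.val hxy
  exact Subtype.ext (hinj x.2 y.2 this)

theorem fg_map {G G' : Type v} [Group G] [Group G'] (f : G' →* G) {L : Subgroup G'}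
    (hL : L.FG) : (L.map f).FG := by
  obtain ⟨T, hT⟩ := hL
  classical
  exact ⟨T.image f, by rw [Finset.coe_image, ← MonoidHom.map_closure, hT]⟩

/-- **UNil forms of an edge without elements of order two in the vertex groups are stably
hyperbolic if for every finitely generated subgroup `N` of the edge group and every reversible line
with edges `a_k e`, `b_k e` some intersection of the conjugates `a_k N a_k⁻¹`, `b_k N b_k⁻¹` has
only finitely generated subgroups of the class `IsVT`** -/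
theorem unilN {V : Type w} [MulAction G V] {Γ : SimpleGraph V} (hΓ : Γ.IsTree)
    (hadj : ∀ (g : G) (x y : V), Γ.Adj x y → Γ.Adj (g • x) (g • y)) {p q : V}
    (hpq : Γ.Adj p q) (hinv : ∀ g : G, ¬ (g • p = q ∧ g • q = p))
    (h2p : ∀ g : G, g • p = p → g * g = 1 → g = 1)
    (h2q : ∀ g : G, g • q = q → g * g = 1 → g = 1)
    (hl : ∀ N : Subgroup G, N.FG → N ≤ MulAction.stabilizer G p ⊓ MulAction.stabilizer G q →
      ∀ (u v : ℕ → V) (a b : ℕ → G), ReversibleLine G Γ p q u v →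
      (∀ k, s(u k, u (k + 1)) = s(a k • p, a k • q)) →
      (∀ k, s(v k, v (k + 1)) = s(b k • p, b k • q)) →
      GoodRing A ∧ ∃ k, 1 ≤ k ∧ ∀ H : Subgroup G, H.FG →
        (∀ j < k, ∀ h ∈ H, (a j)⁻¹ * h * a j ∈ N ∧ (b j)⁻¹ * h * b j ∈ N) → IsVT H)
    {χ : G →* ℤˣ} {ε : ℤ} (hε : ε = 1 ∨ ε = -1) {n : Type} [Fintype n] [DecidableEq n]
    (x : QForm A χ ε p q n) : StablyHyperbolic χ ε (induced x) := by
  refine stablyHyperbolic_of_wt h2p h2q hε x fun X => ?_
  by_contra hX
  obtain ⟨N, hN, hfg, M', hM', hMM⟩ := exists_liftBF (treeSys p q)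
    (treeSys_geo hΓ hadj hpq hinv) χ X
  have hX' : ¬ WT (⟨X.K, X.t, M', hM'⟩ : BF (biSys (sepSys (subE (treeSys p q) N hN)))
      (barStr (A := A) (χ.comp (proj N))) ε) := by
    intro h
    refine hX (wt_of_map (π := proj N) (β' := barStr (A := A) (χ.comp (proj N)))
      (β := barStr (A := A) χ) (barw_proj χ N) ?_ X M' hM' hMM h)
    rintro (_ | _) ω ω' g hg
    · obtain ⟨⟨n, hn, rfl⟩, h2⟩ := hg
      refine ⟨?_, h2⟩
      rw [proj_emb]
      exact hN hn
    · exact proj_letter hN hg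
  have hm : ∀ (Θ : Type v) (E' : BSys Θ (Sep N)), E'.Geo → E'.NoInv →
      (∀ θ, GoodRing A ∧ ∀ L : Subgroup (Sep N), L ≤ E'.F θ → L.FG → IsVT L) →
      ∀ Y : BF E' (barStr (A := A) (χ.comp (proj N))) ε, Y.SMetab := by
    intro Θ E hGeo hNo hV X
    by_cases h : IsEmpty X.K
    · exact smetab_empty X h
    · rw [not_isEmpty_iff] at h
      obtain ⟨k⟩ := h
      have hgood := (hV (X.t k)).1
      have := hgood.noeth
      obtain ⟨h1, g, h2⟩ := hgood.facts
      exact main_vt h1 h2 hGeo hNo hε (fun ω H hH hfg => (hV ω).2 H hH hfg) X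
  obtain ⟨u, v, a, b, h1, ha, hb, h2⟩ := line_of_notU hΓ hadj hpq hinv
    (biSys_noInv (tree_noInv h2p h2q)) hε N hN
    (fun K => GoodRing A ∧ ∀ L : Subgroup (Sep N), L ≤ K → L.FG → IsVT L)
    (fun K => GoodRing A ∧ ∀ L : Subgroup G, L ≤ K → L.FG → IsVT L)
    (fun H K h1 h2 => ⟨h2.1, fun L h3 h4 => h2.2 L (h3.trans h1) h4⟩)
    (fun H K h1 h2 => ⟨h2.1, fun L h3 h4 => h2.2 L (h3.trans h1) h4⟩)
    (fun H h1 h2 => ⟨h2.1, fun L h3 h4 => IsVT.of_map (proj N) L
      (h1.mono h3) (h2.2 _ (Subgroup.map_mono h3) (fg_map _ h4))⟩) hm _ hX'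
  obtain ⟨h3, k, hk, h4⟩ := hl N hfg hN u v a b h1 ha hb
  refine h2 k hk ⟨h3, fun L h5 h6 => h4 L h6 fun j hj h hh => ?_⟩
  have h7 := h5 hh
  rw [Subgroup.mem_iInf] at h7
  obtain ⟨⟨x, hx, hx'⟩, ⟨y, hy, hy'⟩⟩ := h7 ⟨j, hj⟩
  constructor
  · rw [← hx']
    have : (a j)⁻¹ * ((MulAut.conj (a j)).toMonoidHom x) * a j = x := by
      show (a j)⁻¹ * (a j * x * (a j)⁻¹) * a j = x
      group
    exact Set.mem_of_eq_of_mem this hx
  · rw [← hy']
    have : (b j)⁻¹ * ((MulAut.conj (b j)).toMonoidHom y) * b j = y := by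
      show (b j)⁻¹ * (b j * y * (b j)⁻¹) * b j = y
      group
    exact Set.mem_of_eq_of_mem this hy

end

end Pool.Agent.KN
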