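import Mathlib
import Pool.Agent.Lib.KN.AlongDefs
import Pool.Agent.Lib.KN.FinalN
import Pool.Agent.Lib.KN.FinalU

/-! Row R7: the two theorems in the form of the statement. -/

set_option autoImplicit false

open MonoidAlgebra
open Pool.Agent.Lib.MP_98022b_UN Pool.Agent.Lib.MP_98022b_UM Pool.Agent.UP Pool.Agent.UP25
open Pool.Agent.Lib.MP_98022b_UM.UF Pool.Agent.MIX

namespace Pool.Agent.KN

universe u v w

theorem nilOnLines {A : Type u} [CommRing A] {G : Type v} [Group G] {V : Type w} [MulAction G V]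
    {Γ : SimpleGraph V} (hΓ : Γ.IsTree)
    (hadj : ∀ (g : G) (x y : V), Γ.Adj x y → Γ.Adj (g • x) (g • y)) {p q : V}
    (hpq : Γ.Adj p q) (hinv : ∀ g : G, ¬ (g • p = q ∧ g • q = p))
    (hl : ∀ (l : ℤ → V) (g : ℤ → G), ELine G Γ p q l g →
      Along p q g fun H => RegCoh (MonoidAlgebra A H)) : NilVanishes A G p q := by
  intro m n _ _ _ _ β α γ δ hM
  obtain ⟨k, hk⟩ := hM.nil
  refine nil_stelN hΓ hadj hpq hinv ?_ (Matrix.fromBlocks β α γ δ)
    (Sum.elim (fun _ => false) (fun _ => true)) ?_ hk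
  · intro N hN hNF l g hL hE
    obtain ⟨k, hk⟩ := hl l g ⟨hL.dist, hE⟩ N hN hNF
    exact ⟨k, fun H hH h => (regCoh_iff _).1 (hk H hH fun i hi => by
      rw [abs_le] at hi
      exact h i hi.1 hi.2)⟩
  · rintro (i | i) (j | j) g hg
    · exact hM.suppβ i j g hg
    · exact hM.suppα i j g hg
    · exact hM.suppγ i j g hg
    · exact hM.suppδ i j g hg

theorem unilOnLines {A : Type u} [CommRing A] [StarRing A] {G : Type v} [Group G] {V : Type w}
    [MulAction G V] {Γ : SimpleGraph V} (hΓ : Γ.IsTree)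
    (hadj : ∀ (g : G) (x y : V), Γ.Adj x y → Γ.Adj (g • x) (g • y)) {p q : V}
    (hpq : Γ.Adj p q) (hinv : ∀ g : G, ¬ (g • p = q ∧ g • q = p))
    (h2p : ∀ g : G, g • p = p → g * g = 1 → g = 1) (h2q : ∀ g : G, g • q = q → g * g = 1 → g = 1)
    (hl : ∀ (l : ℤ → V) (g : ℤ → G), ELine G Γ p q l g → Reversible G l →
      GoodRing A ∧ Along p q g fun H => IsVT H) : UNilVanishes A G p q := by
  intro χ ε hε n _ _ x
  refine unilN hΓ hadj hpq hinv h2p h2q ?_ hε x
  intro N hN hNF u v a b hL ha hb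
  have hc := hΓ.connected
  have hd : ∀ k, Γ.dist (u k) (v (k + 1)) = 2 * k + 1 := by
    intro k
    have h1 := hL.dist k
    have h2 := hL.dist (k + 1)
    have h3 : Γ.dist (u k) (v (k + 1)) ≤ Γ.dist (u k) (v k) + Γ.dist (v k) (v (k + 1)) :=
      hc.dist_triangle
    have h4 : Γ.dist (u (k + 1)) (v (k + 1)) ≤
        Γ.dist (u (k + 1)) (u k) + Γ.dist (u k) (v (k + 1)) := hc.dist_triangle
    have h5 : Γ.dist (v k) (v (k + 1)) = 1 := SimpleGraph.dist_eq_one_iff_adj.2 (hL.adjV k)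
    have h6 : Γ.dist (u (k + 1)) (u k) = 1 := SimpleGraph.dist_eq_one_iff_adj.2 (hL.adjU k).symm
    omega
  have h0 : Γ.Adj (u 0) (v (0 + 1)) := by
    rw [hL.start]
    exact hL.adjV 0
  obtain ⟨l, h1, h2, h3⟩ : ∃ l : ℤ → V, (∀ i j : ℤ, Γ.dist (l i) (l j) = (i - j).natAbs) ∧
      (∀ k : ℕ, l (Int.ofNat k) = u k) ∧ (∀ k : ℕ, l (Int.negSucc k) = v (k + 1)) :=
    ⟨zLine u (fun k => v (k + 1)), zLine_dist' hc hL.adjU (fun k => hL.adjV (k + 1)) h0 hd,
      fun _ => rfl, fun _ => rfl⟩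
  let g : ℤ → G := fun i => match i with
    | Int.ofNat k => a k
    | Int.negSucc k => b k
  have h4 : ∀ k : ℕ, l (-(k : ℤ)) = v k := by
    rintro (_ | k)
    · have : l (-((0 : ℕ) : ℤ)) = u 0 := h2 0
      rw [this, hL.start]
    · exact h3 k
  have h5 : ELine G Γ p q l g := by
    refine ⟨h1, fun i => ?_⟩
    rcases i with k | k
    · have := ha k
      rw [← h2, ← h2] at this
      exact this
    · have h6 : l (Int.negSucc k + 1) = v k := by
        rw [← h4]
        congr 1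
        omega
      rw [h3, h6, Sym2.eq_swap, hb]
  have h6 : Reversible G l := by
    have h7 : ∀ k : ℕ, ∃ h : G, h • l k = l (-(k : ℤ)) ∧ h • l (-(k : ℤ)) = l k := by
      intro k
      have h8 : l (k : ℤ) = u k := h2 k
      rw [h4, h8]
      exact hL.rev k
    intro k
    obtain ⟨m, rfl | rfl⟩ := Int.eq_nat_or_neg k
    · exact h7 m
    · obtain ⟨h, h8, h9⟩ := h7 m
      exact ⟨h, by rw [neg_neg, h9], by rw [neg_neg, h8]⟩
  obtain ⟨hA, hC⟩ := hl l g h5 h6
  obtain ⟨k, hk⟩ := hC N hN hNF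
  refine ⟨hA, k + 1, by omega, fun H hH h => hk H hH fun i hi x hx => ?_⟩
  rw [abs_le] at hi
  rcases i with j | j
  · exact (h j (by
      have := hi.2
      rw [Int.ofNat_eq_natCast] at this
      omega) x hx).1
  · exact (h j (by
      have := hi.1
      omega) x hx).2

theorem obstructionsOnLines (A : Type u) [CommRing A] [StarRing A] :
    ObstructionsOnLines.{u, v, w} A :=
  fun _ _ _ _ _ hΓ hadj _ _ hpq hinv => ⟨fun hl => nilOnLines hΓ hadj hpq hinv hl,
    fun h2p h2q hl => unilOnLines hΓ hadj hpq hinv h2p h2q hl⟩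

end Pool.Agent.KN
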