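import Mathlib
import Pool.Agent.Lib.KN.RCmap
import Pool.Agent.Lib.KN.RegCoh

/-! Laurent polynomial coefficients in several variables. -/

set_option autoImplicit false

open MonoidAlgebra
open Pool.Agent.UP Pool.Agent.UP25

namespace Pool.Agent.KN

universe u v w

theorem RegCoh.equiv {R : Type u} {S : Type v} [Ring R] [Ring S] (e : R ≃+* S) (h : RegCoh R) :
    RegCoh S := by
  obtain ⟨h1, h2⟩ := (regCoh_iff R).1 h
  exact (regCoh_iff S).2 ⟨CohT.equiv e h1, PDT.equiv e h2⟩

/-- extensions of poly-`ℤ` groups -/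
theorem polyZ_ext {e : ℕ} : ∀ (d : ℕ) {H : Type v} {K : Type w} [Group H] [Group K] (f : K →* H),
    PolyZ d H → PolyZ e f.ker → PolyZ (d + e) K
  | 0, H, K, _, _, f, h1, h2 => by
    have : Subsingleton H := h1
    rw [Nat.zero_add]
    refine h2.of_injective (MonoidHom.codRestrict (MonoidHom.id K) f.ker
      fun x => (MonoidHom.mem_ker).2 (Subsingleton.elim _ _)) fun x y hxy => ?_
    exact congrArg Subtype.val hxy
  | d + 1, H, K, _, _, f, h1, h2 => by
    obtain ⟨φ, hφ⟩ := h1
    have e1 : d + 1 + e = d + e + 1 := by omega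
    rw [e1]
    refine ⟨φ.comp f, ?_⟩
    let g : (φ.comp f).ker →* φ.ker := (f.comp (φ.comp f).ker.subtype).codRestrict φ.ker
      fun x => MonoidHom.mem_ker.2 (MonoidHom.mem_ker.1 x.2)
    refine polyZ_ext d g hφ ?_
    refine h2.of_injective (MonoidHom.codRestrict ((φ.comp f).ker.subtype.comp g.ker.subtype) f.ker
      fun x => ?_) fun x y hxy => ?_
    · have := congrArg Subtype.val (MonoidHom.mem_ker.1 x.2)
      exact MonoidHom.mem_ker.2 this
    · have h3 : ((x : (φ.comp f).ker) : K) = ((y : (φ.comp f).ker) : K) :=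
        congrArg (fun t : f.ker => (t : K)) hxy
      exact Subtype.ext (Subtype.ext h3)

/-- `ℤ^n` -/
abbrev Zn (n : ℕ) : Type := Multiplicative (Fin n → ℤ)

theorem isVT_prod {H : Type v} [Group H] (h : IsVT H) (n : ℕ) : IsVT (H × Zn n) := by
  obtain ⟨htf, N, V, act, Γ, hN, hΓ, hadj, hlf, d, hst⟩ := h
  let π : H × Zn n →* H := MonoidHom.fst H (Zn n)
  let N' : Subgroup (H × Zn n) := N.comap π
  let j : N' →* N := (π.comp N'.subtype).codRestrict N fun x => x.2
  let act' : MulAction N' V := MulAction.compHom V j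
  have hsm : ∀ (x : N') (y : V), x • y = j x • y := fun _ _ => rfl
  refine ⟨?_, N', V, act', Γ, ?_, hΓ, fun x a b hab => hadj (j x) a b hab, hlf, d + n, ?_⟩
  · rintro ⟨a, b⟩ hab
    have h1 : a = 1 := htf a ((MonoidHom.fst H (Zn n)).isOfFinOrder hab)
    have h2 : IsOfFinOrder b := (MonoidHom.snd H (Zn n)).isOfFinOrder hab
    have h3 : b = 1 := by
      obtain ⟨k, hk, hk'⟩ := isOfFinOrder_iff_pow_eq_one.1 h2
      refine funext fun i => ?_
      have h4 := congrFun hk' i
      have h5 : k • (Multiplicative.toAdd b) i = 0 := h4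
      have h6 : (Multiplicative.toAdd b) i = 0 := by
        rcases smul_eq_zero.1 h5 with h | h
        · omega
        · exact h
      exact h6
    rw [h1, h3]
    rfl
  · have := hN
    exact s3_comap π N hN
  · intro x
    obtain ⟨M, hM, hP⟩ := hst x
    let s : MulAction.stabilizer N' x →* MulAction.stabilizer N x :=
      (j.comp (MulAction.stabilizer N' x).subtype).codRestrict _ fun y =>
        MulAction.mem_stabilizer_iff.2 (MulAction.mem_stabilizer_iff.1 y.2)
    refine ⟨M.comap s, s3_comap s M hM, ?_⟩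
    let r : M.comap s →* M := (s.comp (M.comap s).subtype).codRestrict M fun y => y.2
    refine polyZ_ext d r hP ?_
    refine (polyZ_pi n).of_injective ((MonoidHom.snd H (Zn n)).comp (N'.subtype.comp
      ((MulAction.stabilizer N' x).subtype.comp ((M.comap s).subtype.comp r.ker.subtype))))
      fun a b hab => ?_
    have ha := congrArg (fun t : M => (((t.1 : MulAction.stabilizer N x) : N) : H))
      (MonoidHom.mem_ker.1 a.2)
    have hb := congrArg (fun t : M => (((t.1 : MulAction.stabilizer N x) : N) : H))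
      (MonoidHom.mem_ker.1 b.2)
    refine Subtype.ext (Subtype.ext (Subtype.ext (Subtype.ext (Prod.ext ?_ hab))))
    exact ha.trans hb.symm

theorem regCoh_laurent {A : Type u} [CommRing A] {H : Type v} [Group H]
    (hA : Pool.Agent.MIX.GoodRing A) (hH : IsVT H) (hfg : Group.FG H) (n : ℕ) :
    RegCoh (MonoidAlgebra (MonoidAlgebra A (Zn n)) H) := by
  have h1 : Group.FG (Zn n) := PolyZ.fg (polyZ_pi n)
  have h2 : Group.FG (H × Zn n) := inferInstance
  exact (regCoh_of_isVT hA (isVT_prod hH n) h2).equiv curryRingEquiv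

end Pool.Agent.KN
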